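import Pool.Agent.V1150.MZ.OS3

namespace Pool.Agent.V1150.MZ

open Module OnePoint Matrix

section

variable {F : Type} [Field F] [DecidableEq F]

/-- The action of the general linear group on the projective line. -/
noncomputable def fG : GL (Fin 2) F →* Equiv.Perm (OnePoint F) := MulAction.toPermHom _ _

def gu (b : F) : GL (Fin 2) F := GeneralLinearGroup.mkOfDetNeZero !![1, b; 0, 1] (by simp)
def gh (a : Fˣ) : GL (Fin 2) F := GeneralLinearGroup.mkOfDetNeZero !![(a : F), 0; 0, 1] (by simp)
def gw : GL (Fin 2) F := GeneralLinearGroup.mkOfDetNeZero !![0, 1; 1, 0] (by simp)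

noncomputable def pu (b : F) : Equiv.Perm (OnePoint F) := fG (gu b)
noncomputable def ph (a : Fˣ) : Equiv.Perm (OnePoint F) := fG (gh a)
noncomputable def pw : Equiv.Perm (OnePoint F) := fG gw

theorem gu_val (b : F) : (gu b).val = !![1, b; 0, 1] := rfl
theorem gh_val (a : Fˣ) : (gh a).val = !![(a : F), 0; 0, 1] := rfl
theorem gw_val : (gw : GL (Fin 2) F).val = !![0, 1; 1, 0] := rfl

theorem fG_apply (g : GL (Fin 2) F) (x : OnePoint F) : fG g x = g • x := rfl

@[simp] theorem pu_inf (b : F) : pu b ∞ = ∞ := by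
  simp [pu, fG_apply, smul_infty_eq_ite, gu_val]
@[simp] theorem pu_coe (b x : F) : pu b (x : OnePoint F) = ((b + x : F) : OnePoint F) := by
  simp [pu, fG_apply, smul_some_eq_ite, gu_val, add_comm]
@[simp] theorem ph_inf (b : Fˣ) : ph b ∞ = ∞ := by
  simp [ph, fG_apply, smul_infty_eq_ite, gh_val]
@[simp] theorem ph_coe (b : Fˣ) (x : F) : ph b (x : OnePoint F) = ((b * x : F) : OnePoint F) := by
  simp [ph, fG_apply, smul_some_eq_ite, gh_val]
@[simp] theorem pw_inf : (pw : Equiv.Perm (OnePoint F)) ∞ = ((0 : F) : OnePoint F) := by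
  simp [pw, fG_apply, smul_infty_eq_ite, gw_val]
theorem pw_coe (x : F) : (pw : Equiv.Perm (OnePoint F)) (x : OnePoint F) =
    if x = 0 then ∞ else ((x⁻¹ : F) : OnePoint F) := by
  simp [pw, fG_apply, smul_some_eq_ite, gw_val]

theorem det_gu (b : F) : GeneralLinearGroup.det (gu b) = 1 := by
  apply Units.ext
  simp [gu_val]
theorem det_gh (a : Fˣ) : GeneralLinearGroup.det (gh a) = a := by
  apply Units.ext
  simp [gh_val]
theorem det_gw : GeneralLinearGroup.det (gw : GL (Fin 2) F) = -1 := by
  apply Units.ext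
  simp [gw_val]

theorem pu_zero : pu (0 : F) = 1 := by
  apply Equiv.ext
  intro x
  cases x <;> simp

theorem pu_add (a b : F) : pu (a + b) = pu a * pu b := by
  apply Equiv.ext
  intro x
  cases x <;> simp [add_assoc]

theorem ph_one : ph (1 : Fˣ) = 1 := by
  apply Equiv.ext
  intro x
  cases x <;> simp

theorem ph_mul (a b : Fˣ) : ph (a * b) = ph a * ph b := by
  apply Equiv.ext
  intro x
  cases x <;> simp [mul_assoc]

theorem pw_sq : (pw : Equiv.Perm (OnePoint F)) * pw = 1 := by
  apply Equiv.ext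
  intro x
  cases x with
  | infty => simp [pw_coe]
  | coe x =>
    by_cases hx : x = 0
    · simp [pw_coe, hx]
    · simp [pw_coe, hx]

theorem ph_pu (a : Fˣ) (b : F) : ph a * pu b = pu (a * b) * ph a := by
  apply Equiv.ext
  intro x
  cases x <;> simp [mul_add]

theorem pw_ph (a : Fˣ) : (pw : Equiv.Perm (OnePoint F)) * ph a = ph a⁻¹ * pw := by
  apply Equiv.ext
  intro x
  cases x with
  | infty => simp
  | coe x =>
    by_cases hx : x = 0
    · simp [pw_coe, hx]
    · simp [pw_coe, hx, mul_comm]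

theorem pw_pu_pw (b : Fˣ) : (pw : Equiv.Perm (OnePoint F)) * pu (b : F) * pw =
    pu ((b⁻¹ : Fˣ) : F) * ph (-(b⁻¹ * b⁻¹)) * pw * pu ((b⁻¹ : Fˣ) : F) := by
  apply Equiv.ext
  intro x
  have hb : (b : F) ≠ 0 := b.ne_zero
  cases x with
  | infty => simp [pw_coe, hb]
  | coe x =>
    by_cases hx : x = 0
    · simp [pw_coe, hx, hb]
    · simp only [Equiv.Perm.mul_apply, pw_coe, hx, if_false, pu_coe]
      by_cases h1 : (b : F) + x⁻¹ = 0
      · have h2 : ((b⁻¹ : Fˣ) : F) + x = 0 := by
          rw [Units.val_inv_eq_inv_val]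
          field_simp
          field_simp at h1
          linear_combination h1
        have h2' : (b : F)⁻¹ + x = 0 := by rwa [Units.val_inv_eq_inv_val] at h2
        simp [h1, h2']
      · have h2 : ((b⁻¹ : Fˣ) : F) + x ≠ 0 := by
          intro h2
          apply h1
          rw [Units.val_inv_eq_inv_val] at h2
          field_simp
          field_simp at h2
          linear_combination h2
        rw [if_neg h1, if_neg h2]
        simp only [ph_coe, pu_coe]
        congr 1
        rw [Units.val_inv_eq_inv_val] at *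
        push_cast
        have h3 : (b : F) + x⁻¹ = b * x⁻¹ * ((b : F)⁻¹ + x) := by
          field_simp
          ring
        rw [h3]
        have h4 : ((b : F) * x⁻¹ * ((b : F)⁻¹ + x))⁻¹ = (b : F)⁻¹ * x * ((b : F)⁻¹ + x)⁻¹ := by
          rw [mul_inv, mul_inv, inv_inv]
        rw [h4]
        have h5 : x = ((b : F)⁻¹ + x) - (b : F)⁻¹ := by ring
        generalize (b : F)⁻¹ + x = y at *
        rw [h5]
        field_simp
        ring

/-- Bruhat decomposition, unipotent part absent. -/
theorem bruhat0 (k : GL (Fin 2) F) (hk : k 1 0 = 0) :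
    ∃ (b : F) (s : Fˣ), fG k = pu b * ph (GeneralLinearGroup.det k * (s * s)) ∧ 
      (s : F) * k 1 1 = 1 ∧ b = k 0 1 * s := by
  have hdet : (k.val).det ≠ 0 := GeneralLinearGroup.det_ne_zero k
  have hd : k 0 0 * k 1 1 ≠ 0 := by
    rw [Matrix.det_fin_two] at hdet
    simpa [hk] using hdet
  have h11 : k 1 1 ≠ 0 := right_ne_zero_of_mul hd
  have h00 : k 0 0 ≠ 0 := left_ne_zero_of_mul hd
  refine ⟨k 0 1 * (k 1 1)⁻¹, (Units.mk0 _ h11)⁻¹, ?_, ?_, ?_⟩
  · apply Equiv.ext
    intro x
    cases x with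
    | infty => simp [fG_apply, smul_infty_eq_ite, hk]
    | coe x =>
      simp only [fG_apply, smul_some_eq_ite, hk, zero_mul, zero_add, h11, if_false,
        Equiv.Perm.mul_apply, ph_coe, pu_coe]
      congr 1
      have : ((GeneralLinearGroup.det k : Fˣ) : F) = k 0 0 * k 1 1 := by
        rw [GeneralLinearGroup.val_det_apply, Matrix.det_fin_two, hk]
        ring
      push_cast
      rw [this]
      simp only [Units.val_inv_eq_inv_val, Units.val_mk0]
      field_simp
      ring
  · simp [h11]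
  · simp

theorem bruhat1 (k : GL (Fin 2) F) (hk : k 1 0 ≠ 0) :
    ∃ (b c : F) (s : Fˣ),
      fG k = pu b * ph (GeneralLinearGroup.det k * -(s * s)) * pw * pu c := by
  have hdet : ((GeneralLinearGroup.det k : Fˣ) : F) = k 0 0 * k 1 1 - k 0 1 * k 1 0 := by
    rw [GeneralLinearGroup.val_det_apply, Matrix.det_fin_two]
  refine ⟨k 0 0 * (k 1 0)⁻¹, k 1 1 * (k 1 0)⁻¹, (Units.mk0 _ hk)⁻¹, ?_⟩
  apply Equiv.ext
  intro x
  cases x with
  | infty => simp [fG_apply, smul_infty_eq_ite, hk, div_eq_mul_inv]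
  | coe x =>
    simp only [fG_apply, smul_some_eq_ite, Equiv.Perm.mul_apply, ph_coe, pu_coe, pw_coe]
    by_cases h1 : k 1 0 * x + k 1 1 = 0
    · have h2 : k 1 1 * (k 1 0)⁻¹ + x = 0 := by
        field_simp
        linear_combination h1
      simp [h1, h2]
    · have h2 : k 1 1 * (k 1 0)⁻¹ + x ≠ 0 := by
        intro h2
        apply h1
        field_simp at h2
        linear_combination h2
      rw [if_neg h1, if_neg h2]
      simp only [ph_coe, pu_coe]
      congr 1
      push_cast
      rw [hdet]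
      simp only [Units.val_inv_eq_inv_val, Units.val_mk0]
      have h3 : k 1 1 * (k 1 0)⁻¹ + x = (k 1 0 * x + k 1 1) * (k 1 0)⁻¹ := by
        field_simp
        ring
      rw [h3]
      generalize hD : k 1 0 * x + k 1 1 = D at *
      have h4 : k 1 1 = D - k 1 0 * x := by rw [← hD]; ring
      rw [h4]
      field_simp
      ring

end

end Pool.Agent.V1150.MZ
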