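import Pool.Agent.V1150.MZ.GP

namespace Pool.Agent.V1150.MZ

open Module OnePoint Matrix

theorem fact5 : Fact (Nat.Prime 5) := ⟨by norm_num⟩

attribute [local instance] fact5

section

variable {F : Type} [Field F] [Fintype F] [DecidableEq F] [CharP F 5]
  [hF : Fact (Fintype.card F = 25)]

omit [DecidableEq F] [CharP F 5] in
theorem p25 (x : F) : x ^ 25 = x := by
  have := FiniteField.pow_card x
  rwa [hF.out] at this

/-- The Frobenius map on the projective line. -/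
noncomputable def pf : Equiv.Perm (OnePoint F) where
  toFun := OnePoint.map (frobenius F 5)
  invFun := OnePoint.map (frobenius F 5)
  left_inv := by
    intro x
    cases x with
    | infty => simp
    | coe x =>
      simp only [OnePoint.map_some, frobenius_def, ← pow_mul]
      rw [p25]
  right_inv := by
    intro x
    cases x with
    | infty => simp
    | coe x =>
      simp only [OnePoint.map_some, frobenius_def, ← pow_mul]
      rw [p25]

@[simp] theorem pf_inf : (pf : Equiv.Perm (OnePoint F)) ∞ = ∞ := rfl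
@[simp] theorem pf_coe (x : F) : (pf : Equiv.Perm (OnePoint F)) (x : OnePoint F) =
    ((x ^ 5 : F) : OnePoint F) := rfl

theorem pf_sq : (pf : Equiv.Perm (OnePoint F)) * pf = 1 := by
  apply Equiv.ext
  intro x
  cases x with
  | infty => simp
  | coe x =>
    simp only [Equiv.Perm.mul_apply, pf_coe, ← pow_mul, Equiv.Perm.one_apply]
    rw [p25]

theorem pf_inv : (pf : Equiv.Perm (OnePoint F))⁻¹ = pf :=
  inv_eq_of_mul_eq_one_right pf_sq

/-- Frobenius on matrices. -/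
noncomputable def fr : GL (Fin 2) F →* GL (Fin 2) F := GeneralLinearGroup.map (frobenius F 5)

theorem pf_fG (k : GL (Fin 2) F) : pf * fG k = fG (fr k) * pf := by
  apply Equiv.ext
  intro x
  exact OnePoint.map_smul (frobenius F 5) k x

theorem det_fr (k : GL (Fin 2) F) : GeneralLinearGroup.det (fr k) =
    GeneralLinearGroup.det k ^ 5 := by
  unfold fr
  rw [GeneralLinearGroup.map_det]
  apply Units.ext
  simp [frobenius_def]

/-- The semilinear generator. -/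
noncomputable def pt (a1 : Fˣ) : Equiv.Perm (OnePoint F) := ph a1 * pf

@[simp] theorem pt_inf (a1 : Fˣ) : pt a1 ∞ = ∞ := by simp [pt]
@[simp] theorem pt_coe (a1 : Fˣ) (x : F) : pt a1 (x : OnePoint F) =
    ((a1 * x ^ 5 : F) : OnePoint F) := by simp [pt]

theorem pt_pu (a1 : Fˣ) (b : F) : pt a1 * pu b = pu (a1 * b ^ 5) * pt a1 := by
  apply Equiv.ext
  intro x
  cases x with
  | infty => simp
  | coe x => simp [add_pow_char, mul_add]

theorem pt_ph (a1 a : Fˣ) : pt a1 * ph a = ph (a ^ 5) * pt a1 := by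
  apply Equiv.ext
  intro x
  cases x with
  | infty => simp
  | coe x =>
    simp only [Equiv.Perm.mul_apply, ph_coe, pt_coe]
    congr 1
    push_cast
    ring

theorem pt_pt (a1 : Fˣ) : pt a1 * pt a1 = ph (a1 ^ 6) := by
  apply Equiv.ext
  intro x
  cases x with
  | infty => simp
  | coe x =>
    simp only [Equiv.Perm.mul_apply, ph_coe, pt_coe]
    congr 1
    push_cast
    rw [mul_pow, ← pow_mul]
    norm_num
    rw [p25]
    ring

theorem pw_pt (a1 : Fˣ) : pw * pt a1 = ph (a1⁻¹ * a1⁻¹) * pt a1 * pw := by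
  apply Equiv.ext
  intro x
  cases x with
  | infty => simp [pw_coe]
  | coe x =>
    by_cases hx : x = 0
    · simp [pw_coe, hx]
    · simp only [Equiv.Perm.mul_apply, pt_coe, pw_coe, hx, if_false, ph_coe]
      rw [if_neg (mul_ne_zero a1.ne_zero (pow_ne_zero _ hx))]
      congr 1
      push_cast
      have := a1.ne_zero
      field_simp

/-- The group of semilinear fractional transformations attached to a pair `(L, a1)`. -/
noncomputable def KK (L : Subgroup Fˣ) (a1 : Fˣ) (hsq : ∀ a : Fˣ, a * a ∈ L) :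
    Subgroup (Equiv.Perm (OnePoint F)) where
  carrier := {g | ∃ k : GL (Fin 2) F, (GeneralLinearGroup.det k ∈ L ∧ g = fG k) ∨
    (GeneralLinearGroup.det k * a1⁻¹ ∈ L ∧ g = fG k * pf)}
  one_mem' := ⟨1, Or.inl ⟨by rw [map_one]; exact L.one_mem, by rw [map_one]⟩⟩
  mul_mem' := by
    have h6 : a1 ^ 6 ∈ L := by
      have : a1 ^ 6 = a1 ^ 3 * a1 ^ 3 := by rw [← pow_add]
      rw [this]
      exact hsq _
    rintro _ _ ⟨k, ⟨h1, rfl⟩ | ⟨h1, rfl⟩⟩ ⟨l, ⟨h2, rfl⟩ | ⟨h2, rfl⟩⟩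
    · exact ⟨k * l, Or.inl ⟨by rw [map_mul]; exact L.mul_mem h1 h2, by rw [map_mul]⟩⟩
    · refine ⟨k * l, Or.inr ⟨?_, by rw [map_mul, mul_assoc]⟩⟩
      rw [map_mul, mul_assoc]
      exact L.mul_mem h1 h2
    · refine ⟨k * fr l, Or.inr ⟨?_, by rw [map_mul, mul_assoc, pf_fG, mul_assoc]⟩⟩
      rw [map_mul, det_fr, mul_right_comm]
      exact L.mul_mem h1 (L.pow_mem h2 5)
    · refine ⟨k * fr l, Or.inl ⟨?_, ?_⟩⟩
      · rw [map_mul, det_fr]
        have : GeneralLinearGroup.det k * GeneralLinearGroup.det l ^ 5 =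
            (GeneralLinearGroup.det k * a1⁻¹) * (GeneralLinearGroup.det l * a1⁻¹) ^ 5 *
              a1 ^ 6 := by
          rw [mul_pow, inv_pow]
          have e : a1 ^ 6 = a1 ^ 5 * a1 := by rw [← pow_succ]
          rw [e]
          have : GeneralLinearGroup.det k * a1⁻¹ * (GeneralLinearGroup.det l ^ 5 * (a1 ^ 5)⁻¹) *
              (a1 ^ 5 * a1) = GeneralLinearGroup.det k * GeneralLinearGroup.det l ^ 5 *
              (a1⁻¹ * a1) * ((a1 ^ 5)⁻¹ * a1 ^ 5) := by ac_rfl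
          rw [this, inv_mul_cancel, inv_mul_cancel, mul_one, mul_one]
        rw [this]
        exact L.mul_mem (L.mul_mem h1 (L.pow_mem h2 5)) h6
      · rw [map_mul, mul_assoc, ← mul_assoc pf, pf_fG, mul_assoc (fG (fr l)), pf_sq, mul_one]
  inv_mem' := by
    have h6 : a1 ^ 6 ∈ L := by
      have : a1 ^ 6 = a1 ^ 3 * a1 ^ 3 := by rw [← pow_add]
      rw [this]
      exact hsq _
    rintro _ ⟨k, ⟨h1, rfl⟩ | ⟨h1, rfl⟩⟩
    · exact ⟨k⁻¹, Or.inl ⟨by rw [map_inv]; exact L.inv_mem h1, by rw [map_inv]⟩⟩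
    · refine ⟨fr k⁻¹, Or.inr ⟨?_, ?_⟩⟩
      · rw [det_fr, map_inv]
        have : (GeneralLinearGroup.det k)⁻¹ ^ 5 * a1⁻¹ =
            ((GeneralLinearGroup.det k * a1⁻¹) ^ 5 * a1 ^ 6)⁻¹ := by
          rw [mul_pow, inv_pow, mul_assoc, mul_inv]
          congr 1
          have e : a1 ^ 6 = a1 ^ 5 * a1 := by rw [← pow_succ]
          rw [inv_pow, e, ← mul_assoc, inv_mul_cancel, one_mul]
        rw [this]
        exact L.inv_mem (L.mul_mem (L.pow_mem h1 5) h6)
      · rw [_root_.mul_inv_rev, pf_inv, ← map_inv, pf_fG]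

variable {L : Subgroup Fˣ} {a1 : Fˣ} (hsq : ∀ a : Fˣ, a * a ∈ L)

theorem pu_mem (b : F) : pu b ∈ KK L a1 hsq :=
  ⟨gu b, Or.inl ⟨by rw [det_gu]; exact L.one_mem, rfl⟩⟩

theorem ph_mem {a : Fˣ} (ha : a ∈ L) : ph a ∈ KK L a1 hsq :=
  ⟨gh a, Or.inl ⟨by rwa [det_gh], rfl⟩⟩

theorem pw_mem (hn : (-1 : Fˣ) ∈ L) : pw ∈ KK L a1 hsq :=
  ⟨gw, Or.inl ⟨by rwa [det_gw], rfl⟩⟩

theorem pt_mem : pt a1 ∈ KK L a1 hsq :=
  ⟨gh a1, Or.inr ⟨by rw [det_gh, mul_inv_cancel]; exact L.one_mem, rfl⟩⟩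

/-- Extension of a representation by a junk value. -/
noncomputable def RR {V : Type} [AddCommGroup V] [Module ℂ V]
    {G : Subgroup (Equiv.Perm (OnePoint F))} (ρ : Representation ℂ G V)
    (g : Equiv.Perm (OnePoint F)) : Module.End ℂ V := by
  classical
  exact if h : g ∈ G then ρ ⟨g, h⟩ else 1

omit [Field F] [Fintype F] [DecidableEq F] [CharP F 5] hF in
theorem RR_of {V : Type} [AddCommGroup V] [Module ℂ V]
    {G : Subgroup (Equiv.Perm (OnePoint F))} (ρ : Representation ℂ G V)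
    {g : Equiv.Perm (OnePoint F)} (hg : g ∈ G) : RR ρ g = ρ ⟨g, hg⟩ := by
  unfold RR
  rw [dif_pos hg]

omit [Field F] [Fintype F] [DecidableEq F] [CharP F 5] hF in
theorem RR_mul {V : Type} [AddCommGroup V] [Module ℂ V]
    {G : Subgroup (Equiv.Perm (OnePoint F))} (ρ : Representation ℂ G V)
    {g g' : Equiv.Perm (OnePoint F)} (hg : g ∈ G) (hg' : g' ∈ G) :
    RR ρ (g * g') = RR ρ g * RR ρ g' := by
  rw [RR_of ρ hg, RR_of ρ hg', RR_of ρ (G.mul_mem hg hg'), ← map_mul]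
  rfl

omit [Field F] [Fintype F] [DecidableEq F] [CharP F 5] hF in
theorem RR_one {V : Type} [AddCommGroup V] [Module ℂ V]
    {G : Subgroup (Equiv.Perm (OnePoint F))} (ρ : Representation ℂ G V) : RR ρ 1 = 1 := by
  rw [RR_of ρ G.one_mem]
  exact map_one ρ

/-- The operator system attached to a representation. -/
noncomputable def mkOS {V : Type} [AddCommGroup V] [Module ℂ V]
    {G : Subgroup (Equiv.Perm (OnePoint F))} (hn : (-1 : Fˣ) ∈ L) (hG : KK L a1 hsq ≤ G)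
    (ρ : Representation ℂ G V) : OS F V L a1 := by
  have hu : ∀ b : F, pu b ∈ G := fun b => hG (pu_mem hsq b)
  have hh : ∀ a ∈ L, ph a ∈ G := fun a ha => hG (ph_mem hsq ha)
  have hw : pw ∈ G := hG (pw_mem hsq hn)
  have ht : pt a1 ∈ G := hG (pt_mem hsq)
  have h6 : a1 ^ 6 ∈ L := by
    have : a1 ^ 6 = a1 ^ 3 * a1 ^ 3 := by rw [← pow_add]
    rw [this]
    exact hsq _
  have hns : ∀ b : Fˣ, -(b * b) ∈ L := by
    intro b
    rw [← neg_one_mul]
    exact L.mul_mem hn (hsq b)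
  exact
    { U := fun b => RR ρ (pu b)
      H := fun a => RR ρ (ph a)
      W := RR ρ pw
      T := RR ρ (pt a1)
      U_zero := by rw [pu_zero, RR_one]
      U_add := fun a b => by rw [pu_add, RR_mul ρ (hu a) (hu b)]
      H_one := by rw [ph_one, RR_one]
      H_mul := fun a ha b hb => by rw [ph_mul, RR_mul ρ (hh a ha) (hh b hb)]
      W_sq := by rw [← RR_mul ρ hw hw, pw_sq, RR_one]
      HU := fun a ha b => by
        rw [← RR_mul ρ (hh a ha) (hu b), ph_pu, RR_mul ρ (hu _) (hh a ha)]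
      WH := fun a ha => by
        rw [← RR_mul ρ hw (hh a ha), pw_ph, RR_mul ρ (hh _ (L.inv_mem ha)) hw]
      WUW := fun b => by
        rw [← RR_mul ρ hw (hu _), ← RR_mul ρ (G.mul_mem hw (hu _)) hw, pw_pu_pw,
          RR_mul ρ (G.mul_mem (G.mul_mem (hu _) (hh _ (hns _))) hw) (hu _),
          RR_mul ρ (G.mul_mem (hu _) (hh _ (hns _))) hw, RR_mul ρ (hu _) (hh _ (hns _))]
      TU := fun b => by
        rw [← RR_mul ρ ht (hu b), pt_pu, RR_mul ρ (hu _) ht]
      TH := fun a ha => by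
        rw [← RR_mul ρ ht (hh a ha), pt_ph, RR_mul ρ (hh _ (L.pow_mem ha 5)) ht]
      TT := by rw [← RR_mul ρ ht ht, pt_pt]
      WT := by
        rw [← RR_mul ρ hw ht, pw_pt, RR_mul ρ (G.mul_mem (hh _ (hsq _)) ht) hw,
          RR_mul ρ (hh _ (hsq _)) ht] }

/-- Invariance under the generators implies invariance under the group. -/
theorem inv_group {V : Type} [AddCommGroup V] [Module ℂ V] [FiniteDimensional ℂ V]
    {G : Subgroup (Equiv.Perm (OnePoint F))} (hn : (-1 : Fˣ) ∈ L) (hG : KK L a1 hsq ≤ G)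
    (ρ : Representation ℂ G V) (S : Submodule ℂ V) (hS : (mkOS hsq hn hG ρ).Inv S) :
    ∀ g ∈ KK L a1 hsq, ∀ v ∈ S, RR ρ g v ∈ S := by
  have hu : ∀ b : F, pu b ∈ G := fun b => hG (pu_mem hsq b)
  have hh : ∀ a ∈ L, ph a ∈ G := fun a ha => hG (ph_mem hsq ha)
  have hw : pw ∈ G := hG (pw_mem hsq hn)
  have ht : pt a1 ∈ G := hG (pt_mem hsq)
  obtain ⟨⟨iU, iH, iW⟩, iT⟩ := hS
  change ∀ b, ∀ v ∈ S, RR ρ (pu b) v ∈ S at iU
  change ∀ a ∈ L, ∀ v ∈ S, RR ρ (ph a) v ∈ S at iH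
  change ∀ v ∈ S, RR ρ pw v ∈ S at iW
  change ∀ v ∈ S, RR ρ (pt a1) v ∈ S at iT
  have hns : ∀ b : Fˣ, -(b * b) ∈ L := by
    intro b
    rw [← neg_one_mul]
    exact L.mul_mem hn (hsq b)
  have lin : ∀ k : GL (Fin 2) F, GeneralLinearGroup.det k ∈ L → fG k ∈ G ∧
      ∀ v ∈ S, RR ρ (fG k) v ∈ S := by
    intro k hk
    by_cases h0 : k 1 0 = 0
    · obtain ⟨b, s, h1, -, -⟩ := bruhat0 k h0
      have h2 := L.mul_mem hk (hsq s)
      rw [h1]
      refine ⟨G.mul_mem (hu _) (hh _ h2), fun v hv => ?_⟩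
      rw [RR_mul ρ (hu _) (hh _ h2)]
      exact iU _ _ (iH _ h2 v hv)
    · obtain ⟨b, c, s, h1⟩ := bruhat1 k h0
      have h2 := L.mul_mem hk (hns s)
      rw [h1]
      refine ⟨G.mul_mem (G.mul_mem (G.mul_mem (hu _) (hh _ h2)) hw) (hu _), fun v hv => ?_⟩
      rw [RR_mul ρ (G.mul_mem (G.mul_mem (hu _) (hh _ h2)) hw) (hu _),
        RR_mul ρ (G.mul_mem (hu _) (hh _ h2)) hw, RR_mul ρ (hu _) (hh _ h2)]
      exact iU _ _ (iH _ h2 _ (iW _ (iU _ _ hv)))
  rintro g ⟨k, ⟨h1, rfl⟩ | ⟨h1, rfl⟩⟩ v hv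
  · exact (lin k h1).2 v hv
  · have e1 : fG k * pf = fG (k * (gh a1)⁻¹) * pt a1 := by
      rw [pt, map_mul, map_inv, mul_assoc]
      congr 1
      rw [ph, ← mul_assoc, inv_mul_cancel, one_mul]
    have e2 : GeneralLinearGroup.det (k * (gh a1)⁻¹) ∈ L := by
      rw [map_mul, map_inv, det_gh]
      exact h1
    rw [e1, RR_mul ρ (lin _ e2).1 ht]
    exact (lin _ e2).2 _ (iT v hv)

end

end Pool.Agent.V1150.MZ
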