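import Pool.Agent.V1150.MZ.OS3

namespace Pool.Agent.V1150.MZ

open Module

namespace OS

variable {F V : Type} [Field F] [Fintype F] [DecidableEq F] [AddCommGroup V] [Module ℂ V]
  [FiniteDimensional ℂ V]
  {L : Subgroup Fˣ} {a1 : Fˣ} (o : OS F V L a1) {ψ : AddChar F ℂ} (h : Hyp F L a1 ψ)

/-- The fixed vectors of the squares. -/
def PB (ψ : AddChar F ℂ) (v : V) : Prop := o.E ψ 0 v = v ∧ ∀ a : Fˣ, o.H (a * a) v = v

/-- The intertwiner on the space of `U`-fixed vectors. -/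
noncomputable def X (ψ : AddChar F ℂ) (v : V) : V := o.E ψ 0 (o.W v)

include h

theorem E0_X (v : V) : o.E ψ 0 (o.X ψ v) = o.X ψ v := o.E0_E0 h _

theorem X_smul (c : ℂ) (v : V) : o.X ψ (c • v) = c • o.X ψ v := by
  simp [X]

theorem X_H {a : Fˣ} (ha : a ∈ L) (v : V) : o.X ψ (o.H a v) = o.H a⁻¹ (o.X ψ v) := by
  unfold X
  rw [o.W_H ha, o.E0_H' (L.inv_mem ha)]

theorem X_T (v : V) : o.X ψ (o.T v) = o.H (a1⁻¹ * a1⁻¹) (o.T (o.X ψ v)) := by
  unfold X
  have hk : a1⁻¹ * a1⁻¹ ∈ L := h.sq _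
  rw [← o.E0_T' h, o.T_W h, o.W_H hk, o.E0_H' (L.inv_mem hk), o.H_H hk (L.inv_mem hk),
    mul_inv_cancel, o.H_one']

theorem u24 (u : Fˣ) : u ^ 24 = 1 := by
  have h1 : Fintype.card Fˣ = 24 := by
    rw [Fintype.card_units, h.card]
  rw [← h1]
  exact pow_card_eq_one

theorem H_T {a : Fˣ} (ha : a ∈ L) (v : V) : o.H a (o.T v) = o.T (o.H (a ^ 5) v) := by
  rw [o.T_H (L.pow_mem ha 5), ← pow_mul]
  have : a ^ (5 * 5) = a := by
    have := u24 h a
    calc a ^ (5 * 5) = a ^ 24 * a := by rw [← pow_succ]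
      _ = a := by rw [this, one_mul]
  rw [this]

/-- Kernel of the averaging over squares. -/
theorem X_sq_A
    (hA : ∀ v, o.PB ψ v → v = 0) {v : V} (hv : o.E ψ 0 v = v) :
    o.X ψ (o.X ψ v) = (1 / 25 : ℂ) • v := by
  have hL : ∀ u : Fˣ, -(u * u) ∈ L := negsq_mem h
  have h1 := o.X_sq_formula h.card hL hv
  have h2 : ∑ u : Fˣ, o.H (-(u⁻¹ * u⁻¹)) (o.E ψ 0 (o.W v)) = 0 := by
    apply hA
    constructor
    · rw [map_sum]
      refine Finset.sum_congr rfl fun u _ => ?_
      rw [o.E0_H' (hL _), o.E0_E0 h]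
    · intro a
      rw [map_sum]
      refine Fintype.sum_equiv (Equiv.mulRight a⁻¹) _ _ ?_
      intro u
      rw [o.H_H (h.sq a) (hL _)]
      congr 2
      simp only [Equiv.coe_mulRight, mul_inv, inv_inv, mul_neg]
      congr 1
      rw [mul_mul_mul_comm, mul_comm a]
  unfold X
  rw [h1, h2, add_zero]

theorem lam_A (hI : o.Irr) (hA : ∀ v, o.PB ψ v → v = 0) {v : V} (hv : o.E ψ 0 v = v)
    (hv0 : v ≠ 0) :
    finrank ℂ V = 13 * finrank ℂ (LinearMap.range (o.E ψ 0)) := by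
  obtain ⟨lam, h1, h2⟩ := o.exists_lam h hI
  have h3 := h2 v hv
  have h4 := o.X_sq_A h hA hv
  unfold X at h4
  rw [h4, smul_smul] at h3
  have h5 : (lam - 2) • v = 0 := by
    rw [sub_smul, h3]
    norm_num
    rw [two_smul, sub_self]
  have h6 : lam = 2 := by
    rcases smul_eq_zero.1 h5 with h | h
    · exact sub_eq_zero.1 h
    · exact absurd h hv0
  rw [h6] at h1
  have h7 : (finrank ℂ V : ℂ) = 13 * (finrank ℂ (LinearMap.range (o.E ψ 0)) : ℂ) := by
    linear_combination (-1 / 2) * h1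
  exact_mod_cast h7

theorem even_A (hI : o.Irr) (hA : ∀ v, o.PB ψ v → v = 0) {v : V} (hv : o.E ψ 0 v = v)
    (hv0 : v ≠ 0) : ∃ k, finrank ℂ (LinearMap.range (o.E ψ 0)) = 2 * k ∧ 0 < k := by
  have h1 := o.lam_A h hI hA hv hv0
  have h2 := o.finrank_eq h
  have h3 : 0 < finrank ℂ (LinearMap.range (o.E ψ 0)) := by
    have : Nontrivial (LinearMap.range (o.E ψ 0)) := by
      refine ⟨⟨v, (o.mem_V0 h v).2 hv⟩, 0, ?_⟩
      intro h
      exact hv0 (congrArg Subtype.val h)
    exact finrank_pos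
  refine ⟨finrank ℂ (LinearMap.range (o.E ψ 1)), by omega, by omega⟩

/-- Spans of `H`-eigenvectors. -/
theorem stableH {S : Set V} (hS : ∀ v ∈ S, ∀ a ∈ L, ∃ c : ℂ, o.H a v = c • v) :
    ∀ a ∈ L, ∀ v ∈ Submodule.span ℂ S, o.H a v ∈ Submodule.span ℂ S := by
  intro a ha
  refine span_stable _ _ ?_
  intro v hv
  obtain ⟨c, hc⟩ := hS v hv a ha
  rw [hc]
  exact Submodule.smul_mem _ _ (Submodule.subset_span hv)

/-- A common eigenvector of the torus bounds the space of fixed vectors. -/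
theorem le_four (hI : o.Irr) (hA : ∀ v, o.PB ψ v → v = 0) (hV : LinearMap.range (o.E ψ 0) ≠ ⊥) :
    finrank ℂ (LinearMap.range (o.E ψ 0)) ≤ 4 := by
  classical
  obtain ⟨v, hv, hv0, hvc⟩ := common_eigen (I := L) (fun a => o.H a) _ hV
    (by
      intro a v hv
      rw [o.mem_V0 h] at *
      rw [o.E0_H' a.2, hv])
    (by
      intro a b v hv
      rw [o.H_H a.2 b.2, o.H_H b.2 a.2, mul_comm])
  rw [o.mem_V0 h] at hv
  have hH : ∀ a ∈ L, ∃ c : ℂ, o.H a v = c • v := fun a ha => hvc ⟨a, ha⟩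
  have hk : a1⁻¹ * a1⁻¹ ∈ L := h.sq _
  have hHT : ∀ w : V, (∀ a ∈ L, ∃ c : ℂ, o.H a w = c • w) →
      (∀ a ∈ L, ∃ c : ℂ, o.H a (o.T w) = c • o.T w) := by
    intro w hw a ha
    obtain ⟨c, hc⟩ := hw (a ^ 5) (L.pow_mem ha 5)
    refine ⟨c, ?_⟩
    rw [o.H_T h ha, hc, map_smul]
  have hHX : ∀ w : V, (∀ a ∈ L, ∃ c : ℂ, o.H a w = c • w) →
      (∀ a ∈ L, ∃ c : ℂ, o.H a (o.X ψ w) = c • o.X ψ w) := by
    intro w hw a ha
    obtain ⟨c, hc⟩ := hw a⁻¹ (L.inv_mem ha)
    refine ⟨c, ?_⟩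
    have := o.X_H h (L.inv_mem ha) w
    rw [inv_inv] at this
    rw [← this, hc, o.X_smul h]
  let S : Finset V := {v, o.T v, o.X ψ v, o.T (o.X ψ v)}
  have hS : ∀ w ∈ (S : Set V), w = v ∨ w = o.T v ∨ w = o.X ψ v ∨ w = o.T (o.X ψ v) := by
    intro w hw
    simpa [S] using hw
  have m1 : v ∈ Submodule.span ℂ (S : Set V) := Submodule.subset_span (by simp [S])
  have m2 : o.T v ∈ Submodule.span ℂ (S : Set V) := Submodule.subset_span (by simp [S])
  have m3 : o.X ψ v ∈ Submodule.span ℂ (S : Set V) := Submodule.subset_span (by simp [S])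
  have m4 : o.T (o.X ψ v) ∈ Submodule.span ℂ (S : Set V) := Submodule.subset_span (by simp [S])
  have hSH : ∀ w ∈ (S : Set V), ∀ a ∈ L, ∃ c : ℂ, o.H a w = c • w := by
    intro w hw
    rcases hS w hw with rfl | rfl | rfl | rfl
    · exact hH
    · exact hHT _ hH
    · exact hHX _ hH
    · exact hHT _ (hHX _ hH)
  have hXX : ∀ w, o.E ψ 0 w = w → o.X ψ (o.X ψ w) = (1 / 25 : ℂ) • w := fun w hw => o.X_sq_A h hA hw
  have key := o.lemA h hI (Submodule.span ℂ (S : Set V))
    (by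
      rw [Submodule.ne_bot_iff]
      exact ⟨v, m1, hv0⟩)
    (by
      intro w hw
      have hle : Submodule.span ℂ (S : Set V) ≤ LinearMap.range (o.E ψ 0) := by
        rw [Submodule.span_le]
        intro w hw
        change w ∈ LinearMap.range (o.E ψ 0)
        rw [o.mem_V0 h]
        rcases hS w hw with rfl | rfl | rfl | rfl
        · exact hv
        · rw [o.E0_T' h, hv]
        · exact o.E0_X h _
        · rw [o.E0_T' h, o.E0_X h]
      exact (o.mem_V0 h _).1 (hle hw))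
    (o.stableH h hSH)
    (by
      refine span_stable _ _ ?_
      intro w hw
      rcases hS w hw with rfl | rfl | rfl | rfl
      · exact m2
      · obtain ⟨c, hc⟩ := hH (a1 ^ 6) (a16 h)
        rw [o.T_T, hc]
        exact Submodule.smul_mem _ _ m1
      · exact m4
      · obtain ⟨c, hc⟩ := hHX _ hH (a1 ^ 6) (a16 h)
        rw [o.T_T, hc]
        exact Submodule.smul_mem _ _ m3)
    (by
      have := span_stable (o.E ψ 0 * o.W) (S : Set V) (by
        intro w hw
        change o.X ψ w ∈ _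
        rcases hS w hw with rfl | rfl | rfl | rfl
        · exact m3
        · obtain ⟨c, hc⟩ := hHT _ (hHX _ hH) _ hk
          rw [o.X_T h, hc]
          exact Submodule.smul_mem _ _ m4
        · rw [hXX _ hv]
          exact Submodule.smul_mem _ _ m1
        · obtain ⟨c, hc⟩ := hHT _ hH _ hk
          rw [o.X_T h, hXX _ hv, map_smul, map_smul, hc]
          exact Submodule.smul_mem _ _ (Submodule.smul_mem _ _ m2))
      exact this)
  rw [key]
  refine (finrank_span_finset_le_card S).trans ?_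
  exact Finset.card_le_four

/-- Case B: fixed vectors of the squares exist. -/
theorem caseB (hI : o.Irr) {v0 : V} (hv0 : v0 ≠ 0) (hB : o.PB ψ v0) :
    ∃ v : V, v ≠ 0 ∧ LinearMap.range (o.E ψ 0) = Submodule.span ℂ {v} ∧ o.PB ψ v ∧
      ∃ x : ℂ, o.X ψ v = x • v := by
  classical
  let S : Submodule ℂ V :=
    { carrier := {v | o.PB ψ v}
      add_mem' := by
        rintro a b ⟨ha1, ha2⟩ ⟨hb1, hb2⟩
        exact ⟨by rw [map_add, ha1, hb1], fun c => by rw [map_add, ha2, hb2]⟩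
      zero_mem' := ⟨by simp, fun c => by simp⟩
      smul_mem' := by
        rintro c v ⟨ha1, ha2⟩
        exact ⟨by rw [map_smul, ha1], fun c => by rw [map_smul, ha2]⟩ }
  have hmem : ∀ v, v ∈ S ↔ o.PB ψ v := fun v => Iff.rfl
  have hS0 : S ≠ ⊥ := by
    rw [Submodule.ne_bot_iff]
    exact ⟨v0, hB, hv0⟩
  have sH : ∀ a ∈ L, ∀ v ∈ S, o.H a v ∈ S := by
    rintro a ha v ⟨h1, h2⟩
    refine ⟨by rw [o.E0_H' ha, h1], fun c => ?_⟩
    rw [o.H_H (h.sq c) ha, mul_comm, ← o.H_H ha (h.sq c), h2]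
  have sT : ∀ v ∈ S, o.T v ∈ S := by
    rintro v ⟨h1, h2⟩
    refine ⟨by rw [o.E0_T' h, h1], fun c => ?_⟩
    rw [o.H_T h (h.sq c), mul_pow, h2]
  have sX : ∀ v ∈ S, o.X ψ v ∈ S := by
    rintro v ⟨h1, h2⟩
    refine ⟨o.E0_X h v, fun c => ?_⟩
    have h3 := o.X_H h (L.inv_mem (h.sq c)) v
    rw [inv_inv] at h3
    rw [← h3, mul_inv, h2]
  have cTH : ∀ a ∈ L, ∀ v ∈ S, o.T (o.H a v) = o.H a (o.T v) := by
    intro a ha v hv
    rw [o.T_H ha, pow_succ, mul_comm, ← o.H_H ha (L.pow_mem ha 4)]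
    congr 1
    have : a ^ 4 = (a ^ 2) * (a ^ 2) := by rw [← pow_add]
    rw [this]
    exact (sT v hv).2 _
  have cXH : ∀ a ∈ L, ∀ v ∈ S, o.X ψ (o.H a v) = o.H a (o.X ψ v) := by
    intro a ha v hv
    have e1 : a⁻¹ = a * (a⁻¹ * a⁻¹) := by group
    rw [o.X_H h ha, e1, ← o.H_H ha (h.sq _), (sX v hv).2]
  have cXT : ∀ v ∈ S, o.X ψ (o.T v) = o.T (o.X ψ v) := by
    intro v hv
    rw [o.X_T h]
    exact (sT _ (sX v hv)).2 _
  let XX : Module.End ℂ V := o.E ψ 0 * o.W
  have hXX : ∀ v, XX v = o.X ψ v := fun v => rfl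
  let A : Option (Option L) → Module.End ℂ V := fun i =>
    match i with
    | none => o.T
    | some none => XX
    | some (some a) => o.H a
  obtain ⟨v, hv, hvn, hvc⟩ := common_eigen A S hS0
    (by
      intro i v hv
      match i with
      | none => exact sT v hv
      | some none => exact sX v hv
      | some (some a) => exact sH a a.2 v hv)
    (by
      intro i j v hv
      match i, j with
      | none, none => rfl
      | none, some none => exact (cXT v hv).symm
      | none, some (some a) => exact cTH a a.2 v hv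
      | some none, none => exact cXT v hv
      | some none, some none => rfl
      | some none, some (some a) => exact cXH a a.2 v hv
      | some (some a), none => exact (cTH a a.2 v hv).symm
      | some (some a), some none => exact (cXH a a.2 v hv).symm
      | some (some a), some (some b) =>
        change o.H a (o.H b v) = o.H b (o.H a v)
        rw [o.H_H a.2 b.2, o.H_H b.2 a.2, mul_comm])
  have hspan : ∀ B : Module.End ℂ V, (∃ c : ℂ, B v = c • v) →
      ∀ w ∈ Submodule.span ℂ {v}, B w ∈ Submodule.span ℂ {v} := by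
    rintro B ⟨c, hc⟩
    refine span_stable _ _ ?_
    intro w hw
    rw [Set.mem_singleton_iff] at hw
    rw [hw, hc]
    exact Submodule.smul_mem _ _ (Submodule.mem_span_singleton_self v)
  refine ⟨v, hvn, ?_, hv, hvc (some none)⟩
  refine o.lemA h hI _ ?_ ?_ ?_ ?_ ?_
  · rw [Submodule.ne_bot_iff]
    exact ⟨v, Submodule.mem_span_singleton_self v, hvn⟩
  · intro w hw
    obtain ⟨c, rfl⟩ := Submodule.mem_span_singleton.1 hw
    rw [map_smul, hv.1]
  · intro a ha
    exact hspan _ (hvc (some (some ⟨a, ha⟩)))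
  · exact hspan _ (hvc none)
  · exact hspan XX (hvc (some none))

theorem dimB (hI : o.Irr) {v : V} (hv : v ≠ 0)
    (hr : LinearMap.range (o.E ψ 0) = Submodule.span ℂ {v}) (hB : o.PB ψ v) {x : ℂ}
    (hx : o.X ψ v = x • v) :
    finrank ℂ (LinearMap.range (o.E ψ 0)) = 1 ∧
      ((x = 1 ∧ finrank ℂ V = 1) ∨ (25 * x = -1 ∧ finrank ℂ V = 25)) := by
  have hf : finrank ℂ (LinearMap.range (o.E ψ 0)) = 1 := by
    rw [hr]
    exact finrank_span_singleton hv
  refine ⟨hf, ?_⟩
  have hL : ∀ u : Fˣ, -(u * u) ∈ L := negsq_mem h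
  have hneg : ∀ u : Fˣ, o.H (-(u * u)) v = v := by
    intro u
    obtain ⟨i, hi⟩ := h.negone
    have : -(u * u) = (i * u) * (i * u) := by
      rw [mul_mul_mul_comm, hi, neg_one_mul]
    rw [this, hB.2]
  have h1 := o.X_sq_formula h.card hL hB.1
  have h2 : o.E ψ 0 (o.W v) = x • v := hx
  have h3 : o.E ψ 0 (o.W (o.E ψ 0 (o.W v))) = (x * x) • v := by
    rw [h2, map_smul, map_smul, h2, smul_smul]
  have hc : Fintype.card Fˣ = 24 := by rw [Fintype.card_units, h.card]
  rw [h3] at h1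
  have h4 : ∑ u : Fˣ, o.H (-(u⁻¹ * u⁻¹)) (o.E ψ 0 (o.W v)) = (24 * x) • v := by
    rw [h2]
    have : ∀ u : Fˣ, o.H (-(u⁻¹ * u⁻¹)) (x • v) = x • v := by
      intro u
      rw [map_smul, hneg]
    rw [Finset.sum_congr rfl fun u _ => this u, Finset.sum_const, Finset.card_univ, hc,
      mul_smul]
    exact (Nat.cast_smul_eq_nsmul ℂ 24 _).symm
  rw [h4] at h1
  have h5 : (25 * x * x - 24 * x - 1) • v = 0 := by
    have : (25 * x * x - 24 * x - 1) • v = (25 : ℂ) • ((x * x) • v) - (24 * x) • v - v := by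
      rw [sub_smul, sub_smul, one_smul, smul_smul, mul_assoc]
    rw [this, h1, smul_smul]
    norm_num
  have h6 : 25 * x * x - 24 * x - 1 = 0 := (smul_eq_zero.1 h5).resolve_right hv
  obtain ⟨lam, h7, h8⟩ := o.exists_lam h hI
  have h9 := h8 v hB.1
  rw [h3, smul_smul] at h9
  have h10 : (lam - (1 + 25 * (x * x))) • v = 0 := by
    rw [sub_smul, h9, add_smul, one_smul, sub_self]
  have h11 : lam - (1 + 25 * (x * x)) = 0 := (smul_eq_zero.1 h10).resolve_right hv
  rw [hf] at h7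
  have h12 : (x - 1) * (25 * x + 1) = 0 := by linear_combination h6
  rcases mul_eq_zero.1 h12 with h13 | h13
  · left
    have hx1 : x = 1 := sub_eq_zero.1 h13
    refine ⟨hx1, ?_⟩
    have hl : lam = 26 := by rw [hx1] at h11; linear_combination h11
    rw [hl] at h7
    have : (finrank ℂ V : ℂ) = (1 : ℕ) := by
      push_cast at h7 ⊢
      linear_combination (-1 / 26) * h7
    exact_mod_cast this
  · right
    refine ⟨by linear_combination h13, ?_⟩
    have hxx : x = -1 / 25 := by linear_combination h13 / 25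
    have hl : lam = 26 / 25 := by rw [hxx] at h11; linear_combination h11
    rw [hl] at h7
    have : (finrank ℂ V : ℂ) = (25 : ℕ) := by
      push_cast at h7 ⊢
      linear_combination (-25 / 26) * h7
    exact_mod_cast this

/-- The possible dimensions when there are `U`-fixed vectors. -/
theorem main0 (hI : o.Irr) (hV : LinearMap.range (o.E ψ 0) ≠ ⊥) :
    (finrank ℂ V = 1 ∨ finrank ℂ V = 25 ∨ finrank ℂ V = 26 ∨ finrank ℂ V = 52) ∧
      finrank ℂ V ≤ 25 * finrank ℂ (LinearMap.range (o.E ψ 0)) := by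
  by_cases hA : ∀ v, o.PB ψ v → v = 0
  · obtain ⟨v, hv, hv0⟩ := (Submodule.ne_bot_iff _).1 hV
    rw [o.mem_V0 h] at hv
    have h1 := o.lam_A h hI hA hv hv0
    obtain ⟨k, h2, h3⟩ := o.even_A h hI hA hv hv0
    have h4 := o.le_four h hI hA hV
    refine ⟨?_, by omega⟩
    have : k = 1 ∨ k = 2 := by omega
    rcases this with rfl | rfl
    · right; right; left; omega
    · right; right; right; omega
  · push Not at hA
    obtain ⟨v0, hB, hv0⟩ := hA
    obtain ⟨v, hv, hr, hB', x, hx⟩ := o.caseB h hI hv0 hB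
    obtain ⟨h1, h2⟩ := o.dimB h hI hv hr hB' hx
    rcases h2 with h2 | h2
    · exact ⟨Or.inl h2.2, by omega⟩
    · exact ⟨Or.inr (Or.inl h2.2), by omega⟩

/-- Non-existence of vectors fixed by the squares. -/
theorem notPB (hI : o.Irr) {v : V} (hv : o.E ψ 0 v = v) {b : Fˣ} (hb : o.H (b * b) v ≠ v) :
    ∀ w, o.PB ψ w → w = 0 := by
  intro w hw
  by_contra hw0
  obtain ⟨u, hu, hr, hB', x, hx⟩ := o.caseB h hI hw0 hw
  have : v ∈ Submodule.span ℂ {u} := by
    rw [← hr, o.mem_V0 h]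
    exact hv
  obtain ⟨c, rfl⟩ := Submodule.mem_span_singleton.1 this
  apply hb
  rw [map_smul, hB'.2]

theorem eq25 (hI : o.Irr) {v : V} (hv0 : v ≠ 0) (hv : o.E ψ 0 v = v)
    (hH : ∀ a ∈ L, o.H a v = v) (hT : o.T v = v) (hX : v + (25 : ℂ) • o.E ψ 0 (o.W v) = 0) :
    finrank ℂ V = 25 := by
  have hXv : o.X ψ v = (-1 / 25 : ℂ) • v := by
    have h1 : (25 : ℂ) • o.E ψ 0 (o.W v) = (-1 : ℂ) • v := by
      rw [neg_one_smul]
      exact eq_neg_of_add_eq_zero_right hX
    have h2 : (1 / 25 : ℂ) • ((25 : ℂ) • o.E ψ 0 (o.W v)) = (1 / 25 : ℂ) • ((-1 : ℂ) • v) := by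
      rw [h1]
    rw [smul_smul, smul_smul] at h2
    norm_num at h2
    unfold X
    rw [h2]
    norm_num
  have hr : LinearMap.range (o.E ψ 0) = Submodule.span ℂ {v} := by
    have hspan : ∀ B : Module.End ℂ V, (∃ c : ℂ, B v = c • v) →
        ∀ w ∈ Submodule.span ℂ {v}, B w ∈ Submodule.span ℂ {v} := by
      rintro B ⟨c, hc⟩
      refine span_stable _ _ ?_
      intro w hw
      rw [Set.mem_singleton_iff] at hw
      rw [hw, hc]
      exact Submodule.smul_mem _ _ (Submodule.mem_span_singleton_self v)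
    refine o.lemA h hI _ ?_ ?_ ?_ ?_ ?_
    · rw [Submodule.ne_bot_iff]
      exact ⟨v, Submodule.mem_span_singleton_self v, hv0⟩
    · intro w hw
      obtain ⟨c, rfl⟩ := Submodule.mem_span_singleton.1 hw
      rw [map_smul, hv]
    · intro a ha
      exact hspan _ ⟨1, by rw [hH a ha, one_smul]⟩
    · exact hspan _ ⟨1, by rw [hT, one_smul]⟩
    · exact hspan (o.E ψ 0 * o.W) ⟨_, hXv⟩
  obtain ⟨h1, h2⟩ := o.dimB h hI hv0 hr ⟨hv, fun a => hH _ (h.sq a)⟩ hXv
  rcases h2 with h2 | h2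
  · exfalso
    have := h2.1
    norm_num at this
  · exact h2.2

theorem eq26 (hI : o.Irr) {v : V} (hv0 : v ≠ 0) (hv : o.E ψ 0 v = v)
    (hH : ∀ a ∈ L, ∃ c : ℂ, o.H a v = c • v) (hT : ∃ c : ℂ, o.T v = c • v)
    {b : Fˣ} (hb : o.H (b * b) v ≠ v) : finrank ℂ V = 26 := by
  have hA := o.notPB h hI hv hb
  have h1 := o.lam_A h hI hA hv hv0
  obtain ⟨k, h2, h3⟩ := o.even_A h hI hA hv hv0
  have hk : a1⁻¹ * a1⁻¹ ∈ L := h.sq _
  have hXX : o.X ψ (o.X ψ v) = (1 / 25 : ℂ) • v := o.X_sq_A h hA hv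
  have hHX : ∀ a ∈ L, ∃ c : ℂ, o.H a (o.X ψ v) = c • o.X ψ v := by
    intro a ha
    obtain ⟨c, hc⟩ := hH a⁻¹ (L.inv_mem ha)
    refine ⟨c, ?_⟩
    have := o.X_H h (L.inv_mem ha) v
    rw [inv_inv] at this
    rw [← this, hc, o.X_smul h]
  have hTX : ∃ c : ℂ, o.T (o.X ψ v) = c • o.X ψ v := by
    obtain ⟨c, hc⟩ := hT
    obtain ⟨d, hd⟩ := hHX _ (L.inv_mem hk)
    refine ⟨c * d, ?_⟩
    have e1 := o.X_T h v
    have e2 : o.H (a1⁻¹ * a1⁻¹)⁻¹ (o.X ψ (o.T v)) = o.T (o.X ψ v) := by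
      rw [e1, o.H_H (L.inv_mem hk) hk, inv_mul_cancel, o.H_one']
    rw [← e2, hc, o.X_smul h, map_smul, hd, smul_smul]
  classical
  let S : Finset V := {v, o.X ψ v}
  have hS : ∀ w ∈ (S : Set V), w = v ∨ w = o.X ψ v := by
    intro w hw
    simpa [S] using hw
  have m1 : v ∈ Submodule.span ℂ (S : Set V) := Submodule.subset_span (by simp [S])
  have m3 : o.X ψ v ∈ Submodule.span ℂ (S : Set V) := Submodule.subset_span (by simp [S])
  have key := o.lemA h hI (Submodule.span ℂ (S : Set V))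
    (by
      rw [Submodule.ne_bot_iff]
      exact ⟨v, m1, hv0⟩)
    (by
      intro w hw
      have hle : Submodule.span ℂ (S : Set V) ≤ LinearMap.range (o.E ψ 0) := by
        rw [Submodule.span_le]
        intro w hw
        change w ∈ LinearMap.range (o.E ψ 0)
        rw [o.mem_V0 h]
        rcases hS w hw with rfl | rfl
        · exact hv
        · exact o.E0_X h _
      exact (o.mem_V0 h _).1 (hle hw))
    (o.stableH h (by
      intro w hw
      rcases hS w hw with rfl | rfl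
      · exact hH
      · exact hHX))
    (by
      refine span_stable _ _ ?_
      intro w hw
      rcases hS w hw with rfl | rfl
      · obtain ⟨c, hc⟩ := hT
        rw [hc]
        exact Submodule.smul_mem _ _ m1
      · obtain ⟨c, hc⟩ := hTX
        rw [hc]
        exact Submodule.smul_mem _ _ m3)
    (by
      have := span_stable (o.E ψ 0 * o.W) (S : Set V) (by
        intro w hw
        change o.X ψ w ∈ _
        rcases hS w hw with rfl | rfl
        · exact m3
        · rw [hXX]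
          exact Submodule.smul_mem _ _ m1)
      exact this)
  have h4 : finrank ℂ (LinearMap.range (o.E ψ 0)) ≤ 2 := by
    rw [key]
    exact (finrank_span_finset_le_card S).trans Finset.card_le_two
  have : k = 1 := by omega
  omega

theorem eq52 (hI : o.Irr) {v : V} (hv0 : v ≠ 0) (hv : o.E ψ 0 v = v) {b : Fˣ} {η : ℂ}
    (hb : o.H (b * b) v = η • v) (e1 : η ≠ 1) (e2 : η ^ 5 ≠ η) (e3 : η⁻¹ ≠ η)
    (e4 : η⁻¹ ≠ η ^ 5) : finrank ℂ V = 52 := by
  have hη0 : η ≠ 0 := by
    rintro rfl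
    apply e2
    norm_num
  have hbb : b * b ∈ L := h.sq b
  have hb' : o.H (b * b) v ≠ v := by
    intro h1
    rw [hb] at h1
    have : (η - 1) • v = 0 := by rw [sub_smul, h1, one_smul, sub_self]
    exact e1 (sub_eq_zero.1 ((smul_eq_zero.1 this).resolve_right hv0))
  have hA := o.notPB h hI hv hb'
  have h1 := o.lam_A h hI hA hv hv0
  obtain ⟨k, h2, h3⟩ := o.even_A h hI hA hv hv0
  have hXX : o.X ψ (o.X ψ v) = (1 / 25 : ℂ) • v := o.X_sq_A h hA hv
  have hT0 : o.T v ≠ 0 := by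
    intro h0
    have := congrArg (fun g => g v) (o.T_inv h)
    simp only [Module.End.mul_apply, h0, map_zero, Module.End.one_apply] at this
    exact hv0 this.symm
  have hX0 : o.X ψ v ≠ 0 := by
    intro h0
    rw [h0] at hXX
    have : o.X ψ (0 : V) = 0 := by simp [X]
    rw [this] at hXX
    exact (smul_ne_zero (by norm_num) hv0) hXX.symm
  have hpow : ∀ n : ℕ, o.H ((b * b) ^ n) v = η ^ n • v := by
    intro n
    induction n with
    | zero => simp [o.H_one']
    | succ n ih =>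
      rw [pow_succ, ← o.H_H (L.pow_mem hbb n) hbb, hb, map_smul, ih, smul_smul, pow_succ,
        mul_comm]
  have hTe : o.H (b * b) (o.T v) = η ^ 5 • o.T v := by
    rw [o.H_T h hbb, hpow, map_smul]
  have hXe : o.H (b * b) (o.X ψ v) = η⁻¹ • o.X ψ v := by
    have h5 := o.X_H h (L.inv_mem hbb) v
    rw [inv_inv] at h5
    have h6 : o.H (b * b)⁻¹ v = η⁻¹ • v := by
      have h7 : o.H (b * b)⁻¹ (o.H (b * b) v) = v := by
        rw [o.H_H (L.inv_mem hbb) hbb, inv_mul_cancel, o.H_one']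
      rw [hb, map_smul] at h7
      rw [← h7, smul_smul, inv_mul_cancel₀ hη0, one_smul, h7]
    rw [← h5, h6, o.X_smul h]
  have hind : LinearIndependent ℂ ![v, o.T v, o.X ψ v] := by
    have hinj : Function.Injective ![η, η ^ 5, η⁻¹] := by
      intro i j hij
      fin_cases i <;> fin_cases j <;> simp at hij ⊢
      · exact e2 hij.symm
      · exact e3 hij.symm
      · exact e2 hij
      · exact e4 hij.symm
      · exact e3 hij
      · exact e4 hij
    refine Module.End.eigenvectors_linearIndependent' (o.H (b * b)) ![η, η ^ 5, η⁻¹] hinj _ ?_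
    intro i
    fin_cases i
    · exact ⟨Module.End.mem_eigenspace_iff.2 hb, hv0⟩
    · exact ⟨Module.End.mem_eigenspace_iff.2 hTe, hT0⟩
    · exact ⟨Module.End.mem_eigenspace_iff.2 hXe, hX0⟩
  have h5 : 3 ≤ finrank ℂ (LinearMap.range (o.E ψ 0)) := by
    have hle : Submodule.span ℂ (Set.range ![v, o.T v, o.X ψ v]) ≤ LinearMap.range (o.E ψ 0) := by
      rw [Submodule.span_le]
      rintro _ ⟨i, rfl⟩
      rw [SetLike.mem_coe, o.mem_V0 h]
      fin_cases i
      · exact hv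
      · change o.E ψ 0 (o.T v) = o.T v
        rw [o.E0_T' h, hv]
      · exact o.E0_X h _
    have := finrank_span_eq_card hind
    rw [Fintype.card_fin] at this
    exact this.symm.le.trans (Submodule.finrank_mono hle)
  have h6 := o.le_four h hI hA (by
    rw [Submodule.ne_bot_iff]
    exact ⟨v, (o.mem_V0 h v).2 hv, hv0⟩)
  have : k = 2 := by omega
  omega

end OS

end Pool.Agent.V1150.MZ
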