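import Pool.Agent.V1150.MZ.OS3

namespace Pool.Agent.V1150.MZ

open Module

namespace OS

variable {F V : Type} [Field F] [Fintype F] [DecidableEq F] [AddCommGroup V] [Module ℂ V]
  [FiniteDimensional ℂ V]
  {L : Subgroup Fˣ} {a1 : Fˣ} (o : OS F V L a1) {ψ : AddChar F ℂ} (h : Hyp F L a1 ψ)

theorem E_U' (c x : F) (v : V) : o.E ψ c (o.U x v) = ψ (c * x) • o.E ψ c v := by
  have := congrArg (fun g => g v) (o.E_U ψ x c)
  simpa using this

theorem U_of_E {c : F} {v : V} (hv : o.E ψ c v = v) (x : F) : o.U x v = ψ (c * x) • v := by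
  have := congrArg (fun g => g v) (o.U_E ψ x c)
  simp only [Module.End.mul_apply, LinearMap.smul_apply] at this
  rwa [hv] at this

include h in
theorem E_E' (c d : F) (v : V) : o.E ψ c (o.E ψ d v) = if c = d then o.E ψ c v else 0 := by
  have := congrArg (fun g => g v) (o.E_E ψ h.ne c d)
  simp only [Module.End.mul_apply] at this
  rw [this]
  split_ifs <;> rfl

theorem E_mem {S : Submodule ℂ V} (hS : ∀ b, ∀ v ∈ S, o.U b v ∈ S) (c : F) :
    ∀ v ∈ S, o.E ψ c v ∈ S := by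
  intro v hv
  unfold E
  rw [LinearMap.smul_apply, LinearMap.sum_apply]
  refine S.smul_mem _ (S.sum_mem fun b _ => ?_)
  rw [LinearMap.smul_apply]
  exact S.smul_mem _ (hS b v hv)

include h

theorem E_H_v {c : Fˣ} {v : V} (hv : o.E ψ c v = v) {a : Fˣ} (ha : a ∈ L) (ha1 : a ≠ 1) :
    o.E ψ c (o.H a v) = 0 := by
  have h1 : o.H a v = o.E ψ (c * (a⁻¹ : Fˣ)) (o.H a v) := by
    have := congrArg (fun g => g v) (o.H_E ψ ha c)
    simp only [Module.End.mul_apply] at this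
    rwa [hv] at this
  rw [h1, o.E_E' h, if_neg]
  intro h2
  apply ha1
  have h3 : c = c * a⁻¹ := by
    apply Units.ext
    simpa using h2
  have h4 : a⁻¹ = 1 := by simpa using h3
  simpa using h4

theorem gterm {c : Fˣ} {v : V} (hv : o.E ψ c v = v) {α β : Fˣ} (hα : α ∈ L) (hβ : β ∈ L)
    (b : Fˣ) : o.E ψ c (o.H α (o.W (o.U (b : F) (o.H β (o.W v))))) =
      (ψ (c * (α * (b⁻¹ : Fˣ))) * ψ (c * (β * (b⁻¹ : Fˣ)))) •
        o.E ψ c (o.H (α * -(b⁻¹ * b⁻¹) * β) (o.W v)) := by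
  have hn := negsq_mem h b⁻¹
  have e1 : o.U ((b⁻¹ : Fˣ) : F) (o.H β⁻¹ v) =
      ψ (c * (β * (b⁻¹ : Fˣ))) • o.H β⁻¹ v := by
    have h1 := o.H_U (L.inv_mem hβ) ((β : F) * (b⁻¹ : Fˣ)) v
    rw [← mul_assoc, Units.inv_mul, one_mul, o.U_of_E hv, map_smul] at h1
    exact h1.symm
  rw [o.H_W hβ, o.W_U, e1, map_smul, map_smul, map_smul, map_smul, map_smul, o.H_U hα, o.E_U',
    o.W_H (L.inv_mem hβ), inv_inv, o.H_H hn hβ, o.H_H hα (L.mul_mem hn hβ), smul_smul,
    ← mul_assoc α, mul_comm (ψ _) (ψ _)]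

theorem gcomm {c : Fˣ} {v : V} (hv : o.E ψ c v = v) {α β : Fˣ} (hα : α ∈ L) (hβ : β ∈ L) :
    o.E ψ c (o.H α (o.W (o.E ψ c (o.H β (o.W v))))) =
      o.E ψ c (o.H β (o.W (o.E ψ c (o.H α (o.W v))))) := by
  have h1 : ∀ w : V, o.E ψ c w = (1 / (Fintype.card F : ℂ)) • ∑ b : F, ψ (-(c * b)) • o.U b w := by
    intro w
    conv_lhs => rw [E]
    simp [LinearMap.sum_apply]
  rw [h1 (o.H β (o.W v)), h1 (o.H α (o.W v))]
  simp only [map_smul, map_sum]
  congr 1
  rw [sum_F (fun b : F => ψ (-(c * b)) • o.E ψ c (o.H α (o.W (o.U b (o.H β (o.W v)))))),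
    sum_F (fun b : F => ψ (-(c * b)) • o.E ψ c (o.H β (o.W (o.U b (o.H α (o.W v))))))]
  congr 1
  · congr 1
    rw [o.U_zero', o.U_zero', o.H_W hβ v, o.H_W hα v, o.W_W, o.W_W, o.H_H hα (L.inv_mem hβ),
      o.H_H hβ (L.inv_mem hα)]
    by_cases hab : α = β
    · rw [hab]
    · rw [o.E_H_v h hv (L.mul_mem hα (L.inv_mem hβ)), o.E_H_v h hv (L.mul_mem hβ (L.inv_mem hα))]
      · intro h2
        exact hab (mul_inv_eq_one.1 h2).symm
      · intro h2
        exact hab (mul_inv_eq_one.1 h2)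
  · refine Finset.sum_congr rfl fun b _ => ?_
    rw [o.gterm h hv hα hβ, o.gterm h hv hβ hα]
    have e1 : α * -(b⁻¹ * b⁻¹) * β = β * -(b⁻¹ * b⁻¹) * α := by ac_rfl
    rw [e1, mul_comm (ψ _) (ψ _)]

theorem gelfand {S : Submodule ℂ V} (hS : o.InvK S)
    (hmin : ∀ S', o.InvK S' → S' ≤ S → S' = ⊥ ∨ S' = S) (c : Fˣ) :
    ∃ v0 : V, ∀ w ∈ S, o.E ψ c w ∈ Submodule.span ℂ {v0} := by
  by_cases hall : ∀ w ∈ S, o.E ψ c w = 0
  · refine ⟨0, fun w hw => ?_⟩
    rw [hall w hw]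
    exact Submodule.zero_mem _
  push Not at hall
  obtain ⟨w0, hw0, hw1⟩ := hall
  have hCE : ∀ v ∈ Submodule.map (o.E ψ c) S, o.E ψ c v = v := by
    rintro _ ⟨w, hw, rfl⟩
    rw [o.E_E' h, if_pos rfl]
  have hCS : ∀ v ∈ Submodule.map (o.E ψ c) S, v ∈ S := by
    rintro _ ⟨w, hw, rfl⟩
    exact o.E_mem hS.1 _ w hw
  obtain ⟨v, hv, hv0, hvc⟩ := common_eigen (I := L) (fun a => o.E ψ c * o.H a * o.W)
    (Submodule.map (o.E ψ c) S)
    (by
      rw [Submodule.ne_bot_iff]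
      exact ⟨_, ⟨w0, hw0, rfl⟩, hw1⟩)
    (by
      intro a v hv
      exact ⟨o.H a (o.W v), hS.2.1 a a.2 _ (hS.2.2 _ (hCS v hv)), rfl⟩)
    (by
      intro a b v hv
      exact o.gcomm h (hCE v hv) a.2 b.2)
  have hvE := hCE v hv
  have hvS := hCS v hv
  have hc' : ∀ a ∈ L, ∃ k : ℂ, o.E ψ c (o.H a (o.W v)) = k • v := fun a ha => hvc ⟨a, ha⟩
  let Y : Set V := {x | (∃ a ∈ L, x = o.H a v) ∨ ∃ b : F, ∃ a ∈ L, x = o.U b (o.H a (o.W v))}
  have m1 : ∀ a ∈ L, o.H a v ∈ Submodule.span ℂ Y :=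
    fun a ha => Submodule.subset_span (Or.inl ⟨a, ha, rfl⟩)
  have m2 : ∀ b : F, ∀ a ∈ L, o.U b (o.H a (o.W v)) ∈ Submodule.span ℂ Y :=
    fun b a ha => Submodule.subset_span (Or.inr ⟨b, a, ha, rfl⟩)
  have hU : ∀ a ∈ L, ∀ x : F, o.U x (o.H a v) = ψ (c * ((a⁻¹ : Fˣ) * x)) • o.H a v := by
    intro a ha x
    have h1 := o.H_U ha ((a⁻¹ : Fˣ) * x) v
    rw [← mul_assoc, Units.mul_inv, one_mul, o.U_of_E hvE, map_smul] at h1
    exact h1.symm
  have hinv : o.InvK (Submodule.span ℂ Y) := by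
    refine ⟨?_, ?_, ?_⟩
    · intro x
      refine span_stable _ _ ?_
      rintro w (⟨a, ha, rfl⟩ | ⟨b, a, ha, rfl⟩)
      · rw [hU a ha]
        exact Submodule.smul_mem _ _ (m1 a ha)
      · rw [o.U_U]
        exact m2 _ _ ha
    · intro x hx
      refine span_stable _ _ ?_
      rintro w (⟨a, ha, rfl⟩ | ⟨b, a, ha, rfl⟩)
      · rw [o.H_H hx ha]
        exact m1 _ (L.mul_mem hx ha)
      · rw [o.H_U hx, o.H_H hx ha]
        exact m2 _ _ (L.mul_mem hx ha)
    · refine span_stable _ _ ?_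
      rintro w (⟨a, ha, rfl⟩ | ⟨b, a, ha, rfl⟩)
      · rw [o.W_H ha]
        have := m2 0 _ (L.inv_mem ha)
        rwa [o.U_zero'] at this
      · rw [o.H_W ha]
        by_cases hb : b = 0
        · rw [hb, o.U_zero', o.W_W]
          exact m1 _ (L.inv_mem ha)
        · have h1 := o.W_U (Units.mk0 b hb) (o.H a⁻¹ v)
          rw [Units.val_mk0] at h1
          have hn := negsq_mem h (Units.mk0 b hb)⁻¹
          rw [h1, hU _ (L.inv_mem ha), map_smul, map_smul, map_smul, o.W_H (L.inv_mem ha),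
            inv_inv, o.H_H hn ha]
          exact Submodule.smul_mem _ _ (m2 _ _ (L.mul_mem hn ha))
  have hle : Submodule.span ℂ Y ≤ S := by
    rw [Submodule.span_le]
    rintro w (⟨a, ha, rfl⟩ | ⟨b, a, ha, rfl⟩)
    · exact hS.2.1 a ha _ hvS
    · exact hS.1 _ _ (hS.2.1 a ha _ (hS.2.2 _ hvS))
  have hY : Submodule.span ℂ Y = S := by
    rcases hmin _ hinv hle with h0 | h0
    · exfalso
      apply hv0
      have := m1 1 L.one_mem
      rw [h0, o.H_one'] at this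
      simpa using this
    · exact h0
  refine ⟨v, ?_⟩
  have hfin : Submodule.span ℂ Y ≤ (Submodule.span ℂ {v}).comap (o.E ψ c) := by
    rw [Submodule.span_le]
    rintro w (⟨a, ha, rfl⟩ | ⟨b, a, ha, rfl⟩)
    · change o.E ψ c (o.H a v) ∈ Submodule.span ℂ {v}
      by_cases ha1 : a = 1
      · rw [ha1, o.H_one', hvE]
        exact Submodule.mem_span_singleton_self v
      · rw [o.E_H_v h hvE ha ha1]
        exact Submodule.zero_mem _
    · change o.E ψ c (o.U b (o.H a (o.W v))) ∈ Submodule.span ℂ {v}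
      obtain ⟨k, hk⟩ := hc' a ha
      rw [o.E_U', hk, smul_smul]
      exact Submodule.smul_mem _ _ (Submodule.mem_span_singleton_self v)
  intro w hw
  rw [← hY] at hw
  exact hfin hw

/-- Cuspidal case. -/
theorem cusp (hI : o.Irr) (hV0 : ∀ v, o.E ψ 0 v = 0) :
    finrank ℂ V = 24 ∨ finrank ℂ V = 48 := by
  classical
  have := hI.1
  -- minimal nonzero invariant subspace
  have hwf : WellFounded ((· < ·) : Submodule ℂ V → Submodule ℂ V → Prop) := wellFounded_lt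
  let P : Set (Submodule ℂ V) := {S | o.InvK S ∧ S ≠ ⊥}
  have hP : P.Nonempty := ⟨⊤, ⟨fun _ _ _ => trivial, fun _ _ _ _ => trivial, fun _ _ => trivial⟩,
    top_ne_bot⟩
  obtain ⟨S, ⟨hS, hS0⟩, hSmin⟩ := hwf.has_min P hP
  have hmin : ∀ S', o.InvK S' → S' ≤ S → S' = ⊥ ∨ S' = S := by
    intro S' hS' hle
    by_contra hcon
    push Not at hcon
    exact hSmin S' ⟨hS', hcon.1⟩ (lt_of_le_of_ne hle hcon.2)
  choose v0 hv0 using o.gelfand h hS hmin
  have hk : a1⁻¹ * a1⁻¹ ∈ L := h.sq _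
  have h25 : ∀ x : F, x ^ 25 = x := by
    intro x
    rw [← h.card]
    exact FiniteField.pow_card x
  -- the sum of S and T S
  have hinv : o.Inv (S ⊔ S.map o.T) := by
    have gen : ∀ A : Module.End ℂ V, (∀ v ∈ S, A v ∈ S ⊔ S.map o.T) →
        (∀ v ∈ S, A (o.T v) ∈ S ⊔ S.map o.T) → ∀ v ∈ S ⊔ S.map o.T, A v ∈ S ⊔ S.map o.T := by
      intro A h1 h2 v hv
      obtain ⟨x, hx, y, ⟨z, hz, rfl⟩, rfl⟩ := Submodule.mem_sup.1 hv
      rw [map_add]
      exact Submodule.add_mem _ (h1 x hx) (h2 z hz)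
    have l1 : ∀ v ∈ S, v ∈ S ⊔ S.map o.T := fun v hv => Submodule.mem_sup_left hv
    have l2 : ∀ v ∈ S, o.T v ∈ S ⊔ S.map o.T := fun v hv => Submodule.mem_sup_right ⟨v, hv, rfl⟩
    refine ⟨⟨?_, ?_, ?_⟩, ?_⟩
    · intro b
      refine gen _ (fun v hv => l1 _ (hS.1 b v hv)) (fun v hv => ?_)
      have h1 := o.T_U (((a1⁻¹ : Fˣ) * b) ^ 5) v
      have h2 : (a1 : F) * (((a1⁻¹ : Fˣ) * b) ^ 5) ^ 5 = b := by
        rw [← pow_mul]
        norm_num
        rw [h25]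
        simp
      rw [h2] at h1
      rw [← h1]
      exact l2 _ (hS.1 _ _ hv)
    · intro a ha
      refine gen _ (fun v hv => l1 _ (hS.2.1 a ha v hv)) (fun v hv => ?_)
      have h1 := o.T_H (L.pow_mem ha 5) v
      rw [← pow_mul] at h1
      have : a ^ (5 * 5) = a := by
        apply Units.ext
        rw [Units.val_pow_eq_pow_val]
        exact h25 _
      rw [this] at h1
      rw [← h1]
      exact l2 _ (hS.2.1 _ (L.pow_mem ha 5) _ hv)
    · refine gen _ (fun v hv => l1 _ (hS.2.2 v hv)) (fun v hv => ?_)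
      have h1 : o.W (o.T v) = o.T (o.H ((a1⁻¹ * a1⁻¹) ^ 5) (o.W v)) := by
        rw [o.T_H (L.pow_mem hk 5), ← pow_mul]
        have : (a1⁻¹ * a1⁻¹) ^ (5 * 5) = a1⁻¹ * a1⁻¹ := by
          apply Units.ext
          rw [Units.val_pow_eq_pow_val]
          exact h25 _
        rw [this]
        have := congrArg (fun g => g v) o.WT
        simpa using this
      rw [h1]
      exact l2 _ (hS.2.1 _ (L.pow_mem hk 5) _ (hS.2.2 v hv))
    · refine gen _ (fun v hv => l2 v hv) (fun v hv => ?_)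
      rw [o.T_T]
      exact l1 _ (hS.2.1 _ (a16 h) _ hv)
  have htop : S ⊔ S.map o.T = ⊤ := by
    rcases hI.2 _ hinv with h0 | h0
    · exfalso
      apply hS0
      rw [eq_bot_iff, ← h0]
      exact le_sup_left
    · exact h0
  -- spanning family
  let f : Fˣ ⊕ Fˣ → V := Sum.elim v0 (fun c => o.T (v0 c))
  have hSf : ∀ w ∈ S, w ∈ Submodule.span ℂ (Set.range v0) := by
    intro w hw
    have h1 : w = ∑ c : F, o.E ψ c w := by
      have := congrArg (fun g => g w) (o.sum_E ψ h.ne)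
      simpa [LinearMap.sum_apply] using this.symm
    rw [h1]
    refine Submodule.sum_mem _ fun c _ => ?_
    by_cases hc : c = 0
    · rw [hc, hV0]
      exact Submodule.zero_mem _
    · have h2 := hv0 (Units.mk0 c hc) w hw
      rw [Units.val_mk0] at h2
      exact Submodule.span_mono (Set.singleton_subset_iff.2 (Set.mem_range_self _)) h2
  have hspan : (⊤ : Submodule ℂ V) ≤ Submodule.span ℂ (Set.range f) := by
    rw [← htop]
    refine sup_le ?_ ?_
    · intro w hw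
      refine Submodule.span_mono ?_ (hSf w hw)
      rintro _ ⟨c, rfl⟩
      exact ⟨Sum.inl c, rfl⟩
    · rintro _ ⟨w, hw, rfl⟩
      have h1 : o.T w ∈ (Submodule.span ℂ (Set.range v0)).map o.T := ⟨w, hSf w hw, rfl⟩
      rw [Submodule.map_span] at h1
      refine Submodule.span_mono ?_ h1
      rintro _ ⟨_, ⟨c, rfl⟩, rfl⟩
      exact ⟨Sum.inr c, rfl⟩
  have hc : Fintype.card Fˣ = 24 := by rw [Fintype.card_units, h.card]
  have h48 : finrank ℂ V ≤ 48 := by
    have h1 := finrank_range_le_card (R := ℂ) f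
    rw [Set.finrank, top_le_iff.1 hspan, finrank_top, Fintype.card_sum, hc] at h1
    exact h1
  have hdim := o.finrank_eq h
  have hr0 : LinearMap.range (o.E ψ 0) = ⊥ := by
    rw [LinearMap.range_eq_bot]
    ext v
    exact hV0 v
  rw [hr0, finrank_bot] at hdim
  have hpos : 0 < finrank ℂ V := finrank_pos
  omega

end OS

end Pool.Agent.V1150.MZ
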