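import Pool.Agent.V1150.MZ.OS3

namespace Pool.Agent.V1150.MZ

open Module

namespace OS

variable {F V : Type} [Field F] [Fintype F] [DecidableEq F] [AddCommGroup V] [Module ℂ V]
  [FiniteDimensional ℂ V]
  {L : Subgroup Fˣ} {a1 : Fˣ} (o : OS F V L a1) {ψ : AddChar F ℂ} (h : Hyp F L a1 ψ)

include h

theorem trace_zero (B : Module.End ℂ V) (hB : ∀ c : F, o.E ψ c * B * o.E ψ c = 0) :
    LinearMap.trace ℂ V B = 0 := by
  have h1 : B = ∑ c : F, B * (o.E ψ c * o.E ψ c) := by
    have : ∀ c : F, B * (o.E ψ c * o.E ψ c) = B * o.E ψ c := by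
      intro c
      rw [o.E_E ψ h.ne, if_pos rfl]
    rw [Finset.sum_congr rfl fun c _ => this c, ← Finset.mul_sum, o.sum_E ψ h.ne, mul_one]
  rw [h1, map_sum]
  refine Finset.sum_eq_zero fun c _ => ?_
  rw [← mul_assoc, LinearMap.trace_mul_comm, ← mul_assoc, hB, map_zero]

theorem tr_H (hV0 : o.E ψ 0 = 0) {a : Fˣ} (ha : a ∈ L) (ha1 : a ≠ 1) (x : F) :
    LinearMap.trace ℂ V (o.H a * o.U x) = 0 := by
  refine o.trace_zero h _ ?_
  intro c
  by_cases hc : c = 0
  · rw [hc, hV0, zero_mul, zero_mul]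
  · rw [mul_assoc, mul_assoc, o.U_E, mul_smul_comm, o.H_E ψ ha, mul_smul_comm, ← mul_assoc,
      o.E_E ψ h.ne, if_neg, zero_mul, smul_zero]
    intro h1
    apply ha1
    have h2 : c * ((a⁻¹ : Fˣ) : F) = c * 1 := by rw [← h1, mul_one]
    have h3 := mul_left_cancel₀ hc h2
    have h4 : a⁻¹ = 1 := Units.ext h3
    simpa using h4

theorem tr_HT (hV0 : o.E ψ 0 = 0) (ha1 : a1 ∉ L) {a : Fˣ} (ha : a ∈ L) :
    LinearMap.trace ℂ V (o.H a * o.T) = 0 := by
  refine o.trace_zero h _ ?_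
  intro c
  by_cases hc : c = 0
  · rw [hc, hV0, zero_mul, zero_mul]
  · rw [mul_assoc, mul_assoc, o.T_E ψ h.card h.pow5, ← mul_assoc (o.H a), o.H_E ψ ha, ← mul_assoc,
      ← mul_assoc, o.E_E ψ h.ne, if_neg, zero_mul, zero_mul]
    intro h1
    apply ha1
    have h2 : c * (c ^ 4 * (a1⁻¹ : Fˣ) * (a⁻¹ : Fˣ)) = c * 1 := by
      rw [mul_one]
      conv_rhs => rw [h1]
      ring
    have h3 := mul_left_cancel₀ hc h2
    have h4 : (Units.mk0 c hc) ^ 4 * a1⁻¹ * a⁻¹ = 1 := by
      apply Units.ext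
      simpa using h3
    have h5 : a1 = (Units.mk0 c hc) ^ 4 * a⁻¹ := by
      have : (Units.mk0 c hc) ^ 4 * a1⁻¹ * a⁻¹ = ((Units.mk0 c hc) ^ 4 * a⁻¹) * a1⁻¹ := by
        ac_rfl
      rw [this] at h4
      exact (mul_inv_eq_one.1 h4).symm
    rw [h5]
    have h6 : (Units.mk0 c hc) ^ 4 = (Units.mk0 c hc) ^ 2 * (Units.mk0 c hc) ^ 2 := by
      rw [← pow_add]
    exact L.mul_mem (h6 ▸ h.sq _) (L.inv_mem ha)

theorem tr_HW (hV0 : o.E ψ 0 = 0) (s : Fˣ) :
    LinearMap.trace ℂ V (o.H (s * s) * o.W) = 0 := by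
  have hs := h.sq s
  have hne : (-1 : Fˣ) ∈ L := by
    have := negsq_mem h 1
    simpa using this
  have e1 : (o.W * o.U (-(s : F))) * (o.H (s * s) * o.W) * (o.U (s : F) * o.W) =
      o.H (-1) * o.U ((s⁻¹ : Fˣ) : F) := by
    apply LinearMap.ext
    intro v
    simp only [Module.End.mul_apply]
    rw [o.W_U, o.H_U hs, o.H_H hs (negsq_mem h _), o.U_U]
    have e2 : -(s : F) + ((s * s : Fˣ) : F) * ((s⁻¹ : Fˣ) : F) = 0 := by
      rw [Units.val_mul, mul_assoc, Units.mul_inv, mul_one, neg_add_cancel]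
    have e3 : s * s * -(s⁻¹ * s⁻¹) = -1 := by
      rw [mul_neg, mul_mul_mul_comm, mul_inv_cancel, one_mul]
    rw [e2, o.U_zero', e3, o.W_H hne, o.W_W, inv_neg, inv_one]
  have e2 : (o.U (s : F) * o.W) * (o.W * o.U (-(s : F))) = 1 := by
    rw [mul_assoc, ← mul_assoc o.W, o.W_sq, one_mul, ← o.U_add, add_neg_cancel, o.U_zero]
  have h1 : LinearMap.trace ℂ V ((o.W * o.U (-(s : F))) * (o.H (s * s) * o.W) *
      (o.U (s : F) * o.W)) = LinearMap.trace ℂ V (o.H (s * s) * o.W) := by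
    rw [LinearMap.trace_mul_comm, ← mul_assoc, e2, one_mul]
  rw [← h1, e1]
  refine o.tr_H h hV0 hne ?_ _
  intro h2
  have h3 : (-1 : F) = 1 := by
    have := congrArg Units.val h2
    simpa using this
  have h4 : (2 : F) = 0 := by linear_combination -h3
  have h5 : ((25 : ℕ) : F) = 0 := by
    rw [← h.card]
    exact FiniteField.cast_card_eq_zero F
  have h6 : (1 : F) = 0 := by
    push_cast at h5
    linear_combination h5 - 12 * h4
  exact one_ne_zero h6

/-- The trace estimate for the semilinear elements interchanging zero and infinity. -/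
theorem est [Fintype L] (hV0 : o.E ψ 0 = 0) (ha1 : a1 ∉ L) (hL : Fintype.card L = 12)
    (hsq : ∀ a ∈ L, ∃ s : Fˣ, a = s * s) (hdim : finrank ℂ V = 24) :
    (48 : ℝ) ≤ ∑ a : L, Complex.normSq (LinearMap.trace ℂ V (o.H a * o.T * o.W)) := by
  classical
  have hk : a1⁻¹ * a1⁻¹ ∈ L := h.sq _
  have h25 : ∀ a : L, a ^ 25 = a := by
    intro a
    apply Subtype.ext
    apply Units.ext
    rw [Subgroup.coe_pow, Units.val_pow_eq_pow_val, ← h.card]
    exact FiniteField.pow_card _
  let S : Module.End ℂ V := ∑ a : L, o.H a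
  have hHS : ∀ b ∈ L, o.H b * S = S := by
    intro b hb
    simp only [S, Finset.mul_sum]
    refine Fintype.sum_equiv (Equiv.mulLeft (⟨b, hb⟩ : L)) _ _ ?_
    intro a
    rw [← o.H_mul b hb a a.2]
    rfl
  have hSH : ∀ b ∈ L, S * o.H b = S := by
    intro b hb
    simp only [S, Finset.sum_mul]
    refine Fintype.sum_equiv (Equiv.mulRight (⟨b, hb⟩ : L)) _ _ ?_
    intro a
    rw [← o.H_mul a a.2 b hb]
    rfl
  have hSS : S * S = (12 : ℂ) • S := by
    conv_lhs => enter [1]; simp only [S]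
    rw [Finset.sum_mul, Finset.sum_congr rfl fun (a : L) _ => hHS a a.2, Finset.sum_const,
      Finset.card_univ, hL]
    exact (Nat.cast_smul_eq_nsmul ℂ 12 _).symm
  have hTS : o.T * S = S * o.T := by
    simp only [S, Finset.mul_sum, Finset.sum_mul]
    let e : L ≃ L :=
      { toFun := fun a => a ^ 5
        invFun := fun a => a ^ 5
        left_inv := fun a => by
          change (a ^ 5) ^ 5 = a
          rw [← pow_mul]
          exact h25 a
        right_inv := fun a => by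
          change (a ^ 5) ^ 5 = a
          rw [← pow_mul]
          exact h25 a }
    refine Fintype.sum_equiv e _ _ ?_
    intro a
    rw [o.TH a a.2]
    rfl
  have hWS : o.W * S = S * o.W := by
    simp only [S, Finset.mul_sum, Finset.sum_mul]
    refine Fintype.sum_equiv (Equiv.inv L) _ _ ?_
    intro a
    rw [o.WH a a.2]
    rfl
  let P : Module.End ℂ V := (1 / 24 : ℂ) • (S + S * o.T)
  have hSTST : S * o.T * (S * o.T) = (12 : ℂ) • S := by
    calc S * o.T * (S * o.T) = S * (o.T * S) * o.T := by simp only [mul_assoc]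
      _ = S * S * (o.T * o.T) := by rw [hTS]; simp only [mul_assoc]
      _ = (12 : ℂ) • S := by rw [o.TT, hSS, smul_mul_assoc, hSH _ (a16 h)]
  have hP : P * P = P := by
    simp only [P]
    rw [smul_mul_smul_comm, add_mul, mul_add, mul_add, hSTST]
    have e1 : S * (S * o.T) = (12 : ℂ) • (S * o.T) := by rw [← mul_assoc, hSS, smul_mul_assoc]
    have e2 : S * o.T * S = (12 : ℂ) • (S * o.T) := by rw [mul_assoc, hTS, e1]
    rw [e1, e2, hSS]
    module
  have hWP : o.W * P = P * o.W := by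
    simp only [P]
    rw [mul_smul_comm, smul_mul_assoc, mul_add, add_mul, hWS, ← mul_assoc, hWS]
    congr 2
    have : o.W * o.T = o.H (a1⁻¹ * a1⁻¹) * o.T * o.W := o.WT
    rw [mul_assoc, this, ← mul_assoc, ← mul_assoc, hSH _ hk]
  have htrS : LinearMap.trace ℂ V S = 24 := by
    simp only [S, map_sum]
    rw [Finset.sum_eq_single (1 : L)]
    · rw [Subgroup.coe_one, o.H_one, LinearMap.trace_one, hdim]
      norm_num
    · intro a _ ha
      have := o.tr_H h hV0 a.2 (fun h1 => ha (Subtype.ext h1)) 0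
      rwa [o.U_zero, mul_one] at this
    · intro h1
      exact absurd (Finset.mem_univ _) h1
  have htrST : LinearMap.trace ℂ V (S * o.T) = 0 := by
    simp only [S, Finset.sum_mul, map_sum]
    exact Finset.sum_eq_zero fun a _ => o.tr_HT h hV0 ha1 a.2
  have htrP : LinearMap.trace ℂ V P = 1 := by
    simp only [P, map_smul, map_add, htrS, htrST]
    norm_num
  have hrank : finrank ℂ (LinearMap.range P) = 1 := by
    have := trace_idem P hP
    rw [htrP] at this
    exact_mod_cast this.symm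
  obtain ⟨v, hv0, hv⟩ := finrank_eq_one_iff'.1 hrank
  have hWv : o.W (v : V) ∈ LinearMap.range P := by
    obtain ⟨x, hx⟩ := v.2
    refine ⟨o.W x, ?_⟩
    have := congrArg (fun g => g x) hWP
    simp only [Module.End.mul_apply] at this
    rw [← this, hx]
  obtain ⟨ε, hε⟩ := hv ⟨_, hWv⟩
  have hε' : o.W (v : V) = ε • (v : V) := (congrArg Subtype.val hε).symm
  have hv0' : (v : V) ≠ 0 := fun h0 => hv0 (Subtype.ext h0)
  have hε2 : ε * ε = 1 := by
    have h1 := o.W_W (v : V)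
    rw [hε', map_smul, hε', smul_smul] at h1
    have h2 : (ε * ε - 1) • (v : V) = 0 := by rw [sub_smul, h1, one_smul, sub_self]
    exact sub_eq_zero.1 ((smul_eq_zero.1 h2).resolve_right hv0')
  have hPW : P * o.W = ε • P := by
    rw [← hWP]
    apply LinearMap.ext
    intro x
    change o.W (P x) = ε • P x
    obtain ⟨c, hc⟩ := hv ⟨P x, ⟨x, rfl⟩⟩
    have hc' : P x = c • (v : V) := (congrArg Subtype.val hc).symm
    rw [hc', map_smul, hε', smul_comm]
  have htrPW : LinearMap.trace ℂ V (P * o.W) = ε := by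
    rw [hPW, map_smul, htrP, smul_eq_mul, mul_one]
  have hsum : ∑ a : L, LinearMap.trace ℂ V (o.H a * o.T * o.W) = 24 * ε := by
    have h1 : P * o.W = (1 / 24 : ℂ) • ((∑ a : L, o.H a * o.W) + ∑ a : L, o.H a * o.T * o.W) := by
      simp only [P, S]
      rw [smul_mul_assoc, add_mul, Finset.sum_mul, Finset.sum_mul, Finset.sum_mul]
    have h2 : ∑ a : L, LinearMap.trace ℂ V (o.H a * o.W) = 0 := by
      refine Finset.sum_eq_zero fun a _ => ?_
      obtain ⟨s, hs⟩ := hsq a a.2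
      rw [hs]
      exact o.tr_HW h hV0 s
    rw [h1, map_smul, map_add, map_sum, map_sum, h2, smul_eq_mul] at htrPW
    linear_combination 24 * htrPW
  have hnorm : ‖ε‖ = 1 := by
    have h1 : ‖ε‖ * ‖ε‖ = 1 := by rw [← norm_mul, hε2, norm_one]
    nlinarith [norm_nonneg ε]
  have h3 : (24 : ℝ) ≤ ∑ a : L, ‖LinearMap.trace ℂ V (o.H a * o.T * o.W)‖ := by
    have h4 := norm_sum_le (Finset.univ : Finset L)
      (fun a : L => LinearMap.trace ℂ V (o.H a * o.T * o.W))
    rw [hsum, norm_mul, hnorm, mul_one] at h4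
    have h5 : ‖(24 : ℂ)‖ = 24 := by norm_num
    rwa [h5] at h4
  have h6 := sq_sum_le_card_mul_sum_sq (s := (Finset.univ : Finset L))
    (f := fun a : L => ‖LinearMap.trace ℂ V (o.H a * o.T * o.W)‖)
  rw [Finset.card_univ, hL] at h6
  have h7 : ∀ z : ℂ, ‖z‖ ^ 2 = Complex.normSq z := fun z => by
    rw [Complex.normSq_eq_norm_sq]
  rw [Finset.sum_congr rfl fun a _ => h7 _] at h6
  push_cast at h6
  nlinarith

end OS

end Pool.Agent.V1150.MZ
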