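import Pool.Agent.V1150.MZ.GP2
import Pool.Agent.V1150.MZ.OS4
import Pool.Agent.V1150.MZ.OS5
import Pool.Agent.V1150.MZ.OS6

namespace Pool.Agent.V1150.MZ

open Module OnePoint Matrix

attribute [local instance] fact5

section

variable {F : Type} [Field F] [Fintype F] [DecidableEq F] [CharP F 5]
  [hF : Fact (Fintype.card F = 25)]
variable {L : Subgroup Fˣ} {a1 : Fˣ} (hsq : ∀ a : Fˣ, a * a ∈ L) (hn : (-1 : Fˣ) ∈ L)
  {ψ : AddChar F ℂ}

theorem os_irr {V : Type} [AddCommGroup V] [Module ℂ V] [FiniteDimensional ℂ V]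
    (ρ : Representation ℂ (KK L a1 hsq) V) (hρ : ρ.IsIrreducible) :
    (mkOS hsq hn le_rfl ρ).Irr := by
  rw [irr_iff] at hρ
  refine ⟨hρ.1, fun S hS => ?_⟩
  refine hρ.2 S (fun g v hv => ?_)
  have := inv_group hsq hn le_rfl ρ S hS g.1 g.2 v hv
  rwa [RR_of ρ g.2] at this

/-- Classification of the dimensions of the irreducible representations. -/
theorem dims (h : Hyp F L a1 ψ) {V : Type} [AddCommGroup V] [Module ℂ V] [FiniteDimensional ℂ V]
    (ρ : Representation ℂ (KK L a1 hsq) V) (hρ : ρ.IsIrreducible) :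
    (((mkOS hsq hn le_rfl ρ).E ψ 0 ≠ 0) ∧
      (finrank ℂ V = 1 ∨ finrank ℂ V = 25 ∨ finrank ℂ V = 26 ∨ finrank ℂ V = 52) ∧
      finrank ℂ V ≤ 25 * finrank ℂ (LinearMap.range ((mkOS hsq hn le_rfl ρ).E ψ 0))) ∨
    (((mkOS hsq hn le_rfl ρ).E ψ 0 = 0) ∧ (finrank ℂ V = 24 ∨ finrank ℂ V = 48)) := by
  have hI := os_irr hsq hn ρ hρ
  by_cases h0 : (mkOS hsq hn le_rfl ρ).E ψ 0 = 0
  · right
    refine ⟨h0, OS.cusp _ h hI (fun v => by rw [h0]; rfl)⟩
  · left
    refine ⟨h0, OS.main0 _ h hI ?_⟩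
    intro h1
    exact h0 (LinearMap.range_eq_bot.1 h1)

/-- Elements fixing zero and infinity. -/
theorem stab {g : Equiv.Perm (OnePoint F)} (hg : g ∈ KK L a1 hsq) (h1 : g ∞ = ∞)
    (h2 : g ((0 : F) : OnePoint F) = ((0 : F) : OnePoint F)) :
    ∃ c ∈ L, g = ph c ∨ g = ph c * pt a1 := by
  have key : ∀ k : GL (Fin 2) F, fG k ∞ = ∞ → fG k ((0 : F) : OnePoint F) = ((0 : F) : OnePoint F) →
      ∃ s : Fˣ, fG k = ph (GeneralLinearGroup.det k * (s * s)) := by
    intro k hk1 hk2
    rw [fG_apply, smul_infty_eq_self_iff] at hk1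
    obtain ⟨b, s, h3, -, -⟩ := bruhat0 k hk1
    rw [h3] at hk2
    simp at hk2
    refine ⟨s, ?_⟩
    rw [h3, hk2, pu_zero, one_mul]
  obtain ⟨k, ⟨hk, rfl⟩ | ⟨hk, rfl⟩⟩ := hg
  · obtain ⟨s, hs⟩ := key k h1 h2
    exact ⟨_, L.mul_mem hk (hsq s), Or.inl hs⟩
  · have e1 : fG k ∞ = ∞ := by simpa using h1
    have e2 : fG k ((0 : F) : OnePoint F) = ((0 : F) : OnePoint F) := by simpa using h2
    obtain ⟨s, hs⟩ := key k e1 e2
    refine ⟨(GeneralLinearGroup.det k * a1⁻¹) * (s * s), L.mul_mem hk (hsq s), Or.inr ?_⟩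
    rw [hs, pt, ← mul_assoc (ph _) (ph a1) pf, ← ph_mul]
    congr 2
    rw [mul_right_comm _ (s * s), mul_assoc _ a1⁻¹, inv_mul_cancel, mul_one]

/-- Restriction of the operator system to an invariant subspace. -/
theorem sub_E {V : Type} [AddCommGroup V] [Module ℂ V] [FiniteDimensional ℂ V]
    {G : Subgroup (Equiv.Perm (OnePoint F))} (hG : KK L a1 hsq ≤ G)
    (ρ : Representation ℂ G V) (S : Submodule ℂ V) (hS : ∀ g, S ≤ S.comap (ρ g)) (c : F) (v : S) :
    (((mkOS hsq hn hG (ρ.subrepresentation S hS)).E ψ c v : S) : V) =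
      (mkOS hsq hn hG ρ).E ψ c (v : V) := by
  unfold OS.E
  rw [LinearMap.smul_apply, LinearMap.smul_apply, LinearMap.sum_apply, LinearMap.sum_apply,
    Submodule.coe_smul, Submodule.coe_sum]
  congr 1
  refine Finset.sum_congr rfl fun b _ => ?_
  rw [LinearMap.smul_apply, LinearMap.smul_apply, Submodule.coe_smul]
  congr 1
  change ((RR (ρ.subrepresentation S hS) (pu b) v : S) : V) = RR ρ (pu b) (v : V)
  rw [RR_of _ (hG (pu_mem hsq b)), RR_of _ (hG (pu_mem hsq b))]
  rfl

theorem cusp_irr (h : Hyp F L a1 ψ) {V : Type} [AddCommGroup V] [Module ℂ V]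
    [FiniteDimensional ℂ V] (ρ : Representation ℂ (KK L a1 hsq) V)
    (h0 : (mkOS hsq hn le_rfl ρ).E ψ 0 = 0) (hd : finrank ℂ V = 24) : ρ.IsIrreducible := by
  rw [irr_iff]
  have hnt : Nontrivial V := by
    apply Module.nontrivial_of_finrank_pos (R := ℂ)
    rw [hd]
    norm_num
  refine ⟨hnt, fun S hS => ?_⟩
  have hS' : ∀ g, S ≤ S.comap (ρ g) := fun g v hv => hS g v hv
  have h1 := OS.finrank_eq (mkOS hsq hn le_rfl (ρ.subrepresentation S hS')) h
  have h2 : (mkOS hsq hn le_rfl (ρ.subrepresentation S hS')).E ψ 0 = 0 := by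
    apply LinearMap.ext
    intro v
    apply Subtype.ext
    rw [sub_E, h0]
    rfl
  rw [h2, LinearMap.range_zero, finrank_bot] at h1
  by_cases hb : S = ⊥
  · exact Or.inl hb
  · right
    have h3 : Nontrivial S := (Submodule.nontrivial_iff_ne_bot).2 hb
    have h4 : 0 < finrank ℂ S := finrank_pos
    have h5 := Submodule.finrank_le S
    apply Submodule.eq_top_of_finrank_eq
    omega

/-- There is no 24-dimensional cuspidal representation for the twisted group. -/
theorem no24 (h : Hyp F L a1 ψ) [Fintype L] (hL : Fintype.card L = 12) (ha1 : a1 ∉ L)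
    (hsL : ∀ a ∈ L, ∃ s : Fˣ, a = s * s) (h12 : ∀ c : Fˣ, c ^ 12 = 1 → c ∈ L)
    {V : Type} [AddCommGroup V] [Module ℂ V] [FiniteDimensional ℂ V]
    (ρ : Representation ℂ (KK L a1 hsq) V)
    (h0 : (mkOS hsq hn le_rfl ρ).E ψ 0 = 0) (hd : finrank ℂ V = 24) : False := by
  classical
  have hρ := cusp_irr hsq hn h ρ h0 hd
  have hNm : ∀ a : L, ph (a : Fˣ) * pt a1 * pw ∈ KK L a1 hsq := fun a =>
    (KK L a1 hsq).mul_mem ((KK L a1 hsq).mul_mem (ph_mem hsq a.2) (pt_mem hsq)) (pw_mem hsq hn)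
  let N : L → KK L a1 hsq := fun a => ⟨ph (a : Fˣ) * pt a1 * pw, hNm a⟩
  have : Fintype (KK L a1 hsq) := Fintype.ofFinite _
  have hest := OS.est (mkOS hsq hn le_rfl ρ) h h0 ha1 hL hsL hd
  have hchar : ∀ a : L, LinearMap.trace ℂ V ((mkOS hsq hn le_rfl ρ).H a *
      (mkOS hsq hn le_rfl ρ).T * (mkOS hsq hn le_rfl ρ).W) = ρ.character (N a) := by
    intro a
    change LinearMap.trace ℂ V (RR ρ (ph (a : Fˣ)) * RR ρ (pt a1) * RR ρ pw) = _
    rw [← RR_mul ρ (ph_mem hsq a.2) (pt_mem hsq),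
      ← RR_mul ρ ((KK L a1 hsq).mul_mem (ph_mem hsq a.2) (pt_mem hsq)) (pw_mem hsq hn),
      RR_of ρ (hNm a)]
    rfl
  rw [Finset.sum_congr rfl fun a _ => by rw [hchar a]] at hest
  have hsum := sum_normSq ρ hρ
  -- point formulas
  have hNinf : ∀ a : L, (N a : Equiv.Perm (OnePoint F)) ∞ = ((0 : F) : OnePoint F) := by
    intro a
    simp [N]
  have hN2 : ∀ a : L, ((N a : Equiv.Perm (OnePoint F)) * (N a : Equiv.Perm (OnePoint F))) =
      ph (((a : Fˣ) * a1)⁻¹ ^ 4) := by
    intro a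
    apply Equiv.ext
    intro x
    cases x with
    | infty => simp [N, pw_coe]
    | coe x =>
      by_cases hx : x = 0
      · simp [N, pw_coe, hx]
      · have hax : ((a : Fˣ) : F) * ((a1 : F) * x⁻¹ ^ 5) ≠ 0 :=
          mul_ne_zero (a : Fˣ).ne_zero (mul_ne_zero a1.ne_zero (pow_ne_zero _ (inv_ne_zero hx)))
        simp only [N, Equiv.Perm.mul_apply, pw_coe, hx, if_false, pt_coe, ph_coe, hax]
        congr 1
        push_cast
        have e1 : (((a : Fˣ) : F) * ((a1 : F) * x⁻¹ ^ 5))⁻¹ ^ 5 =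
            (((a : Fˣ) : F) * (a1 : F))⁻¹ ^ 5 * x := by
          rw [mul_inv, mul_inv, mul_inv, mul_pow, mul_pow, mul_pow, ← inv_pow, inv_inv, ← pow_mul]
          norm_num
          rw [p25]
          ring
        rw [e1]
        have h1 := (a : Fˣ).ne_zero
        have h2 := a1.ne_zero
        field_simp
  have hNne : ∀ a : L, ((a : Fˣ) * a1)⁻¹ ^ 4 ≠ 1 := by
    intro a ha
    apply ha1
    have h1 : ((a : Fˣ) * a1) ^ 4 = 1 := by
      rw [inv_pow, inv_eq_one] at ha
      exact ha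
    have h2 : ((a : Fˣ) * a1) ^ 12 = 1 := by
      have : ((a : Fˣ) * a1) ^ 12 = (((a : Fˣ) * a1) ^ 4) ^ 3 := by rw [← pow_mul]
      rw [this, h1, one_pow]
    have h3 := h12 _ h2
    have h4 : a1 = (a : Fˣ)⁻¹ * ((a : Fˣ) * a1) := by group
    rw [h4]
    exact L.mul_mem (L.inv_mem a.2) h3
  have hNinj : Function.Injective N := by
    intro a b hab
    have h1 : (N a : Equiv.Perm (OnePoint F)) = N b := congrArg _ hab
    have h2 := congrArg (fun g : Equiv.Perm (OnePoint F) => g ((1 : F) : OnePoint F)) h1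
    simp only [N, Equiv.Perm.mul_apply, pw_coe, one_ne_zero, if_false, pt_coe, ph_coe] at h2
    rw [OnePoint.coe_eq_coe] at h2
    have h3 := mul_right_cancel₀ (by simp [a1.ne_zero]) h2
    exact Subtype.ext (Units.ext h3)
  -- fixed points
  have hfix : ∀ β : Fˣ, β ≠ 1 → ∀ x : OnePoint F, ph β x = x → x = ∞ ∨ x = ((0 : F) : OnePoint F) := by
    intro β hβ x hx
    cases x with
    | infty => exact Or.inl rfl
    | coe x =>
      right
      rw [ph_coe, OnePoint.coe_eq_coe] at hx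
      by_contra hx0
      apply hβ
      apply Units.ext
      have hx1 : x ≠ 0 := fun h => hx0 (by rw [h])
      have : (β : F) * x = 1 * x := by rw [hx, one_mul]
      exact mul_right_cancel₀ hx1 this
  -- the small set
  let Φ : L × Bool × Bool → Equiv.Perm (OnePoint F) := fun p =>
    (if p.2.1 then pw else 1) * ph (p.1 : Fˣ) * (if p.2.2 then pt a1 else 1)
  have hΦ : ∀ k ∈ KK L a1 hsq, (k ∞ = ∞ ∨ k ∞ = ((0 : F) : OnePoint F)) →
      (k ((0 : F) : OnePoint F) = ∞ ∨ k ((0 : F) : OnePoint F) = ((0 : F) : OnePoint F)) →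
      k ∈ Finset.univ.image Φ := by
    intro k hk h1 h2
    rw [Finset.mem_image]
    have hne : k ∞ ≠ k ((0 : F) : OnePoint F) := by
      intro h3
      exact OnePoint.infty_ne_coe (0 : F) (k.injective h3)
    rcases h1 with h1 | h1
    · have h3 : k ((0 : F) : OnePoint F) = ((0 : F) : OnePoint F) := by
        rcases h2 with h2 | h2
        · exact absurd (h1.trans h2.symm) hne
        · exact h2
      obtain ⟨c, hc, hk' | hk'⟩ := stab hsq hk h1 h3
      · exact ⟨(⟨c, hc⟩, false, false), Finset.mem_univ _, by simp [Φ, hk']⟩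
      · exact ⟨(⟨c, hc⟩, false, true), Finset.mem_univ _, by simp [Φ, hk']⟩
    · have h3 : k ((0 : F) : OnePoint F) = ∞ := by
        rcases h2 with h2 | h2
        · exact h2
        · exact absurd (h1.trans h2.symm) hne
      have h4 : pw * k ∈ KK L a1 hsq := (KK L a1 hsq).mul_mem (pw_mem hsq hn) hk
      obtain ⟨c, hc, hk' | hk'⟩ := stab hsq h4 (by simp [h1, pw_coe]) (by simp [h3])
      · refine ⟨(⟨c, hc⟩, true, false), Finset.mem_univ _, ?_⟩
        simp only [Φ, if_true, Bool.false_eq_true, if_false, mul_one]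
        rw [← hk', ← mul_assoc, pw_sq, one_mul]
      · refine ⟨(⟨c, hc⟩, true, true), Finset.mem_univ _, ?_⟩
        simp only [Φ, if_true]
        rw [mul_assoc, ← hk', ← mul_assoc, pw_sq, one_mul]
  have hcardΦ : (Finset.univ.image Φ).card ≤ 48 := by
    refine Finset.card_image_le.trans ?_
    rw [Finset.card_univ, Fintype.card_prod, Fintype.card_prod, hL, Fintype.card_bool]
  -- double counting
  let φ : KK L a1 hsq × L → KK L a1 hsq := fun p => p.1 * N p.2 * p.1⁻¹
  let f : KK L a1 hsq → ℝ := fun g => Complex.normSq (ρ.character g)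
  have hf0 : ∀ g, 0 ≤ f g := fun g => Complex.normSq_nonneg _
  have hA : ∑ p : KK L a1 hsq × L, f (φ p) =
      (Fintype.card (KK L a1 hsq) : ℝ) * ∑ a : L, f (N a) := by
    rw [Fintype.sum_prod_type]
    have : ∀ r : KK L a1 hsq, ∑ a : L, f (φ (r, a)) = ∑ a : L, f (N a) := by
      intro r
      refine Finset.sum_congr rfl fun a _ => ?_
      simp only [f, φ]
      rw [Representation.char_conj]
    rw [Finset.sum_congr rfl fun r _ => this r, Finset.sum_const, Finset.card_univ,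
      nsmul_eq_mul]
  have hfib : ∀ g : KK L a1 hsq,
      (Finset.univ.filter fun p : KK L a1 hsq × L => φ p = g).card ≤ 48 := by
    intro g
    rcases (Finset.univ.filter fun p : KK L a1 hsq × L => φ p = g).eq_empty_or_nonempty with he | he
    · rw [he]
      simp
    · obtain ⟨⟨r0, a0⟩, hp0⟩ := he
      rw [Finset.mem_filter] at hp0
      refine le_trans (Finset.card_le_card_of_injOn
        (fun p : KK L a1 hsq × L => ((r0⁻¹ * p.1 : KK L a1 hsq) : Equiv.Perm (OnePoint F)))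
        ?_ ?_) hcardΦ
      · intro p hp
        rw [Finset.mem_coe, Finset.mem_filter] at hp
        have e1 : φ p = φ (r0, a0) := hp.2.trans hp0.2.symm
        have e2 : (r0⁻¹ * p.1) * N p.2 * (r0⁻¹ * p.1)⁻¹ = N a0 := by
          simp only [φ] at e1
          rw [_root_.mul_inv_rev, inv_inv]
          calc r0⁻¹ * p.1 * N p.2 * (p.1⁻¹ * r0) = r0⁻¹ * (p.1 * N p.2 * p.1⁻¹) * r0 := by group
            _ = N a0 := by rw [e1]; group
        have e3 : (r0⁻¹ * p.1) * (N p.2 * N p.2) = (N a0 * N a0) * (r0⁻¹ * p.1) := by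
          rw [← e2]
          group
        have e4 : ((r0⁻¹ * p.1 : KK L a1 hsq) : Equiv.Perm (OnePoint F)) *
            ph (((p.2 : Fˣ) * a1)⁻¹ ^ 4) = ph (((a0 : Fˣ) * a1)⁻¹ ^ 4) *
            ((r0⁻¹ * p.1 : KK L a1 hsq) : Equiv.Perm (OnePoint F)) := by
          rw [← hN2, ← hN2]
          exact congrArg Subtype.val e3
        refine hΦ _ (r0⁻¹ * p.1).2 ?_ ?_
        · apply hfix _ (hNne a0)
          have := congrArg (fun g : Equiv.Perm (OnePoint F) => g ∞) e4
          simp only [Equiv.Perm.mul_apply, ph_inf] at this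
          exact this.symm
        · apply hfix _ (hNne a0)
          have := congrArg (fun g : Equiv.Perm (OnePoint F) => g ((0 : F) : OnePoint F)) e4
          simp only [Equiv.Perm.mul_apply, ph_coe, mul_zero] at this
          exact this.symm
      · intro p hp q hq hpq
        rw [Finset.mem_coe, Finset.mem_filter] at hp hq
        have e1 : r0⁻¹ * p.1 = r0⁻¹ * q.1 := Subtype.ext hpq
        have e2 : p.1 = q.1 := mul_left_cancel e1
        have e3 : φ p = φ q := hp.2.trans hq.2.symm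
        simp only [φ] at e3
        rw [e2] at e3
        have e4 : N p.2 = N q.2 := mul_left_cancel (mul_right_cancel e3)
        exact Prod.ext e2 (hNinj e4)
  have h1not : ∀ p, φ p ≠ 1 := by
    intro p hp
    have e1 : N p.2 = 1 := by
      simp only [φ] at hp
      have : p.1 * N p.2 = p.1 * 1 := by
        rw [mul_inv_eq_one.1 hp, mul_one]
      exact mul_left_cancel this
    have e2 := hNinf p.2
    rw [e1] at e2
    exact OnePoint.infty_ne_coe (0 : F) e2
  have hB : ∑ p : KK L a1 hsq × L, f (φ p) ≤ 48 * ∑ g ∈ Finset.univ.erase (1 : KK L a1 hsq), f g := by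
    rw [Finset.sum_comp f φ, Finset.mul_sum]
    refine le_trans (Finset.sum_le_sum (g := fun g => 48 * f g) ?_) ?_
    · intro g _
      rw [nsmul_eq_mul]
      refine mul_le_mul_of_nonneg_right ?_ (hf0 g)
      exact_mod_cast hfib g
    · refine Finset.sum_le_sum_of_subset_of_nonneg ?_ ?_
      · intro g hg
        rw [Finset.mem_image] at hg
        obtain ⟨p, -, rfl⟩ := hg
        exact Finset.mem_erase.2 ⟨h1not p, Finset.mem_univ _⟩
      · intro g _ _
        exact mul_nonneg (by norm_num) (hf0 g)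
  have hC : f 1 + ∑ g ∈ Finset.univ.erase (1 : KK L a1 hsq), f g =
      (Fintype.card (KK L a1 hsq) : ℝ) := by
    rw [Finset.add_sum_erase _ _ (Finset.mem_univ _)]
    exact hsum
  have hD : f 1 = 576 := by
    simp only [f, Representation.char_one, hd]
    norm_num [Complex.normSq_apply]
  have hE : (48 : ℝ) ≤ ∑ a : L, f (N a) := hest
  have hcard : (0 : ℝ) < Fintype.card (KK L a1 hsq) := by
    exact_mod_cast Fintype.card_pos
  rw [hA] at hB
  nlinarith

end

end Pool.Agent.V1150.MZ
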