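import Pool.Agent.V1150.MZ.GP3

namespace Pool.Agent.V1150.MZ

open Module OnePoint Matrix

attribute [local instance] fact5

/-- Rank additivity for an idempotent preserving a subspace. -/
theorem rank_add {V : Type} [AddCommGroup V] [Module ℂ V] [FiniteDimensional ℂ V]
    (E : Module.End ℂ V) (hE : E * E = E) (S : Submodule ℂ V) (hS : S ≤ S.comap E) :
    finrank ℂ (LinearMap.range E) = finrank ℂ (LinearMap.range (E.restrict hS)) +
      finrank ℂ (LinearMap.range (S.mapQ S E hS)) := by
  have hEE : ∀ v, E (E v) = E v := fun v => by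
    have := congrArg (fun g => g v) hE
    simpa using this
  let f : LinearMap.range E →ₗ[ℂ] V ⧸ S := S.mkQ.comp (LinearMap.range E).subtype
  have h1 := LinearMap.finrank_range_add_finrank_ker f
  have h2 : LinearMap.range f = LinearMap.range (S.mapQ S E hS) := by
    ext x
    constructor
    · rintro ⟨⟨_, v, rfl⟩, rfl⟩
      exact ⟨S.mkQ v, rfl⟩
    · rintro ⟨y, rfl⟩
      obtain ⟨v, rfl⟩ := S.mkQ_surjective y
      exact ⟨⟨E v, v, rfl⟩, rfl⟩
  have h3 : (LinearMap.ker f).map (LinearMap.range E).subtype =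
      (LinearMap.range (E.restrict hS)).map S.subtype := by
    ext x
    constructor
    · rintro ⟨⟨_, v, rfl⟩, hx, rfl⟩
      have h4 : E v ∈ S := by
        have : S.mkQ (E v) = 0 := hx
        simpa using this
      refine ⟨⟨E v, h4⟩, ⟨⟨E v, h4⟩, ?_⟩, rfl⟩
      apply Subtype.ext
      exact hEE v
    · rintro ⟨_, ⟨⟨v, hv⟩, rfl⟩, rfl⟩
      refine ⟨⟨E v, v, rfl⟩, ?_, rfl⟩
      change S.mkQ (E v) = 0
      simpa using hS hv
  have h5 : finrank ℂ (LinearMap.ker f) = finrank ℂ (LinearMap.range (E.restrict hS)) := by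
    rw [← Submodule.finrank_map_subtype_eq (LinearMap.range E) (LinearMap.ker f), h3,
      Submodule.finrank_map_subtype_eq]
  rw [h2, h5] at h1
  omega

section

variable {F : Type} [Field F] [Fintype F] [DecidableEq F] [CharP F 5]
  [hF : Fact (Fintype.card F = 25)]
variable {L : Subgroup Fˣ} {a1 : Fˣ} (hsq : ∀ a : Fˣ, a * a ∈ L) (hn : (-1 : Fˣ) ∈ L)
  {ψ : AddChar F ℂ}

theorem quo_E {V : Type} [AddCommGroup V] [Module ℂ V] [FiniteDimensional ℂ V]
    {G : Subgroup (Equiv.Perm (OnePoint F))} (hG : KK L a1 hsq ≤ G)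
    (ρ : Representation ℂ G V) (S : Submodule ℂ V) (hS : ∀ g, S ≤ S.comap (ρ g)) (c : F) (v : V) :
    (mkOS hsq hn hG (ρ.quotient S hS)).E ψ c (S.mkQ v) =
      S.mkQ ((mkOS hsq hn hG ρ).E ψ c v) := by
  unfold OS.E
  rw [LinearMap.smul_apply, LinearMap.smul_apply, LinearMap.sum_apply, LinearMap.sum_apply,
    _root_.map_smul, map_sum]
  congr 1
  refine Finset.sum_congr rfl fun b _ => ?_
  rw [LinearMap.smul_apply, LinearMap.smul_apply, _root_.map_smul]
  congr 1
  change RR (ρ.quotient S hS) (pu b) (S.mkQ v) = S.mkQ (RR ρ (pu b) v)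
  rw [RR_of _ (hG (pu_mem hsq b)), RR_of _ (hG (pu_mem hsq b))]
  rfl

/-- The rank of the projection to the fixed vectors of the translations. -/
noncomputable def rk {V : Type} [AddCommGroup V] [Module ℂ V] (ψ : AddChar F ℂ)
    (ρ : Representation ℂ (KK L a1 hsq) V) : ℕ :=
  finrank ℂ (LinearMap.range ((mkOS hsq hn le_rfl ρ).E ψ 0))

theorem rk_add (h : Hyp F L a1 ψ) {V : Type} [AddCommGroup V] [Module ℂ V]
    [FiniteDimensional ℂ V] (ρ : Representation ℂ (KK L a1 hsq) V) (S : Submodule ℂ V)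
    (hS : ∀ g, S ≤ S.comap (ρ g)) :
    rk hsq hn ψ ρ = rk hsq hn ψ (ρ.subrepresentation S hS) + rk hsq hn ψ (ρ.quotient S hS) := by
  have hES : S ≤ S.comap ((mkOS hsq hn le_rfl ρ).E ψ 0) := by
    intro v hv
    have := sub_E hsq hn (ψ := ψ) le_rfl ρ S hS 0 ⟨v, hv⟩
    change (mkOS hsq hn le_rfl ρ).E ψ 0 v ∈ S
    rw [← this]
    exact Subtype.property _
  have h1 := rank_add ((mkOS hsq hn le_rfl ρ).E ψ 0)
    (by rw [OS.E_E _ ψ h.ne, if_pos rfl]) S hES
  have e1 : ((mkOS hsq hn le_rfl ρ).E ψ 0).restrict hES =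
      (mkOS hsq hn le_rfl (ρ.subrepresentation S hS)).E ψ 0 := by
    apply LinearMap.ext
    intro v
    apply Subtype.ext
    rw [sub_E]
    rfl
  have e2 : S.mapQ S ((mkOS hsq hn le_rfl ρ).E ψ 0) hES =
      (mkOS hsq hn le_rfl (ρ.quotient S hS)).E ψ 0 := by
    apply LinearMap.ext
    intro x
    obtain ⟨v, rfl⟩ := S.mkQ_surjective x
    rw [quo_E]
    rfl
  rw [e1, e2] at h1
  exact h1

theorem claim (h : Hyp F L a1 ψ)
    (hall : ∀ (V : Type) [AddCommGroup V] [Module ℂ V] [FiniteDimensional ℂ V]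
      (ρ : Representation ℂ (KK L a1 hsq) V), ρ.IsIrreducible →
        finrank ℂ V ≤ 25 * rk hsq hn ψ ρ) :
    ∀ (n : ℕ) (V : Type) [AddCommGroup V] [Module ℂ V] [FiniteDimensional ℂ V]
      (ρ : Representation ℂ (KK L a1 hsq) V), finrank ℂ V = n →
        finrank ℂ V ≤ 25 * rk hsq hn ψ ρ := by
  intro n
  induction n using Nat.strong_induction_on with
  | _ n ih =>
    intro V _ _ _ ρ hn'
    by_cases h0 : finrank ℂ V = 0
    · omega
    by_cases hρ : ρ.IsIrreducible
    · exact hall V ρ hρ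
    · rw [irr_iff] at hρ
      have hnt : Nontrivial V := Module.nontrivial_of_finrank_pos (R := ℂ) (by omega)
      push Not at hρ
      obtain ⟨S, hS, hS0, hS1⟩ := hρ hnt
      have hS' : ∀ g, S ≤ S.comap (ρ g) := fun g v hv => hS g v hv
      have h1 : finrank ℂ S < n := by
        rw [← hn']
        exact Submodule.finrank_lt hS1
      have h2 := Submodule.finrank_quotient_add_finrank S
      have h3 : 0 < finrank ℂ S := by
        have : Nontrivial S := (Submodule.nontrivial_iff_ne_bot).2 hS0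
        exact finrank_pos
      have i1 := ih _ h1 S (ρ.subrepresentation S hS') rfl
      have i2 := ih (finrank ℂ (V ⧸ S)) (by omega) (V ⧸ S) (ρ.quotient S hS') rfl
      have h4 := rk_add hsq hn h ρ S hS'
      omega

/-- The permutation representation on functions on the symmetric group of the line. -/
noncomputable def funRep (X : Type) [MulAction (Equiv.Perm (OnePoint F)) X]
    (G : Subgroup (Equiv.Perm (OnePoint F))) : Representation ℂ G (X → ℂ) where
  toFun g :=
    { toFun := fun f x => f ((g : Equiv.Perm (OnePoint F))⁻¹ • x)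
      map_add' := fun _ _ => rfl
      map_smul' := fun _ _ => rfl }
  map_one' := by
    apply LinearMap.ext
    intro f
    funext x
    simp
  map_mul' := by
    intro g g'
    apply LinearMap.ext
    intro f
    funext x
    simp [mul_smul]

omit [Field F] [Fintype F] [DecidableEq F] [CharP F 5] hF in
theorem funRep_apply (X : Type) [MulAction (Equiv.Perm (OnePoint F)) X]
    (G : Subgroup (Equiv.Perm (OnePoint F))) (g : G) (f : X → ℂ) (x : X) :
    funRep X G g f x = f ((g : Equiv.Perm (OnePoint F))⁻¹ • x) := rfl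

theorem exists_cusp (h : Hyp F L a1 ψ) :
    ∃ (V : Type) (_ : AddCommGroup V) (_ : Module ℂ V) (_ : FiniteDimensional ℂ V)
      (ρ : Representation ℂ (KK L a1 hsq) V), ρ.IsIrreducible ∧
      (finrank ℂ V = 24 ∨ finrank ℂ V = 48) ∧ (mkOS hsq hn le_rfl ρ).E ψ 0 = 0 := by
  classical
  by_contra hcon
  have hall : ∀ (V : Type) [AddCommGroup V] [Module ℂ V] [FiniteDimensional ℂ V]
      (ρ : Representation ℂ (KK L a1 hsq) V), ρ.IsIrreducible →
        finrank ℂ V ≤ 25 * rk hsq hn ψ ρ := by
    intro V i1 i2 i3 ρ hρ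
    rcases dims hsq hn h ρ hρ with h1 | h1
    · exact h1.2.2
    · exfalso
      exact hcon ⟨V, i1, i2, i3, ρ, hρ, h1.2, h1.1⟩
  have hcl := claim hsq hn h hall
  -- the regular representation
  let M := Equiv.Perm (OnePoint F) → ℂ
  let ρ : Representation ℂ (KK L a1 hsq) M := funRep _ _
  let S : Submodule ℂ M := Submodule.span ℂ {fun _ => 1}
  have hSfix : ∀ g, ∀ v ∈ S, ρ g v = v := by
    intro g v hv
    obtain ⟨c, rfl⟩ := Submodule.mem_span_singleton.1 hv
    rfl
  have hS : ∀ g, S ≤ S.comap (ρ g) := by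
    intro g v hv
    change ρ g v ∈ S
    rw [hSfix g v hv]
    exact hv
  have hS1 : finrank ℂ S = 1 := by
    apply finrank_span_singleton
    intro h0
    exact one_ne_zero (congrFun h0 1)
  have hrkS : rk hsq hn ψ (ρ.subrepresentation S hS) = 1 := by
    unfold rk
    have : (mkOS hsq hn le_rfl (ρ.subrepresentation S hS)).E ψ 0 = 1 := by
      apply LinearMap.ext
      intro v
      apply Subtype.ext
      rw [sub_E]
      have hfix : ∀ b : F, (mkOS hsq hn le_rfl ρ).U b (v : M) = v := by
        intro b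
        change RR ρ (pu b) (v : M) = v
        rw [RR_of _ (pu_mem hsq b)]
        exact hSfix _ _ v.2
      unfold OS.E
      rw [LinearMap.smul_apply, LinearMap.sum_apply]
      have h2 : ∀ b : F, (ψ (-(0 * b)) • (mkOS hsq hn le_rfl ρ).U b) (v : M) = (v : M) := by
        intro b
        rw [LinearMap.smul_apply, hfix, zero_mul, neg_zero, AddChar.map_zero_eq_one, one_smul]
      rw [Finset.sum_congr rfl fun b _ => h2 b, Finset.sum_const, Finset.card_univ, hF.out,
        ← Nat.cast_smul_eq_nsmul ℂ, smul_smul]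
      norm_num
    rw [this]
    change finrank ℂ (LinearMap.range (LinearMap.id : S →ₗ[ℂ] S)) = 1
    rw [LinearMap.range_id, finrank_top, hS1]
  have hadd := rk_add hsq hn h ρ S hS
  have hq := hcl _ (M ⧸ S) (ρ.quotient S hS) rfl
  have hdim := Submodule.finrank_quotient_add_finrank S
  -- rank of the projection on the regular representation
  have htr : (rk hsq hn ψ ρ : ℂ) = (1 / 25 : ℂ) * finrank ℂ M := by
    unfold rk
    rw [← OS.trace_E _ ψ h.ne]
    unfold OS.E
    rw [_root_.map_smul, map_sum, hF.out, smul_eq_mul]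
    push_cast
    congr 1
    rw [Finset.sum_eq_single (0 : F)]
    · rw [(mkOS hsq hn le_rfl ρ).U_zero, _root_.map_smul, LinearMap.trace_one]
      simp
    · intro b _ hb
      rw [_root_.map_smul]
      have : LinearMap.trace ℂ M ((mkOS hsq hn le_rfl ρ).U b) = 0 := by
        change LinearMap.trace ℂ M (RR ρ (pu b)) = 0
        rw [RR_of _ (pu_mem hsq b), LinearMap.trace_eq_matrix_trace ℂ (Pi.basisFun ℂ _)]
        unfold Matrix.trace
        refine Finset.sum_eq_zero fun x _ => ?_
        rw [Matrix.diag_apply, LinearMap.toMatrix_apply, Pi.basisFun_repr, Pi.basisFun_apply]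
        change (Pi.single x (1 : ℂ) : M) ((pu b : Equiv.Perm (OnePoint F))⁻¹ * x) = 0
        rw [Pi.single_eq_of_ne]
        intro h1
        have h2 : (pu b : Equiv.Perm (OnePoint F))⁻¹ = 1 := mul_eq_right.1 h1
        have h3 : (pu b : Equiv.Perm (OnePoint F)) = 1 := inv_eq_one.1 h2
        have h4 := congrArg (fun g : Equiv.Perm (OnePoint F) => g ((0 : F) : OnePoint F)) h3
        simp at h4
        exact hb h4
      rw [this, smul_zero]
    · intro h1
      exact absurd (Finset.mem_univ _) h1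
  have htr' : 25 * rk hsq hn ψ ρ = finrank ℂ M := by
    have : (25 : ℂ) * (rk hsq hn ψ ρ : ℂ) = finrank ℂ M := by
      rw [htr]
      ring
    exact_mod_cast this
  omega

end

end Pool.Agent.V1150.MZ
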