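import Pool.Agent.V1150.MZ.GP4

namespace Pool.Agent.V1150.MZ

open Module OnePoint Matrix

attribute [local instance] fact5

theorem transfer {G V V' : Type} [Group G] [AddCommGroup V] [Module ℂ V] [AddCommGroup V']
    [Module ℂ V'] (ρ : Representation ℂ G V) (v : V) (ρ' : Representation ℂ G V') (v' : V')
    (H : ∀ a : MonoidAlgebra ℂ G, ρ.asAlgebraHom a v = 0 → ρ'.asAlgebraHom a v' = 0)
    (g : G) (c : ℂ) (hg : ρ g v = c • v) : ρ' g v' = c • v' := by
  have := H (MonoidAlgebra.of ℂ G g - c • 1) (by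
    rw [map_sub, _root_.map_smul, map_one, Representation.asAlgebraHom_of, LinearMap.sub_apply, hg]
    simp)
  rw [map_sub, _root_.map_smul, map_one, Representation.asAlgebraHom_of, LinearMap.sub_apply] at this
  simpa [sub_eq_zero] using this

section

variable {F : Type} [Field F] [Fintype F] [DecidableEq F] [CharP F 5]
  [hF : Fact (Fintype.card F = 25)]
variable {L : Subgroup Fˣ} {a1 : Fˣ} (hsq : ∀ a : Fˣ, a * a ∈ L) (hn : (-1 : Fˣ) ∈ L)
  {ψ : AddChar F ℂ}

omit [DecidableEq F] [CharP F 5] in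
theorem E0_of_U {V : Type} [AddCommGroup V] [Module ℂ V] (o : OS F V L a1) (v : V)
    (hv : ∀ b, o.U b v = v) : o.E ψ 0 v = v := by
  unfold OS.E
  rw [LinearMap.smul_apply, LinearMap.sum_apply]
  have h2 : ∀ b : F, (ψ (-(0 * b)) • o.U b) v = v := by
    intro b
    rw [LinearMap.smul_apply, hv, zero_mul, neg_zero, AddChar.map_zero_eq_one, one_smul]
  rw [Finset.sum_congr rfl fun b _ => h2 b, Finset.sum_const, Finset.card_univ, hF.out,
    ← Nat.cast_smul_eq_nsmul ℂ, smul_smul]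
  norm_num

open Classical in
/-- The vector generating the Steinberg representation. -/
noncomputable def v25 : OnePoint F → ℂ := fun x => if x = ∞ then 25 else -1

theorem v25_fix {g : Equiv.Perm (OnePoint F)} (G : Subgroup (Equiv.Perm (OnePoint F)))
    (hg : g ∈ G) (h1 : g ∞ = ∞) : funRep (OnePoint F) G ⟨g, hg⟩ v25 = (1 : ℂ) • v25 := by
  funext x
  rw [funRep_apply, one_smul]
  unfold v25
  have : (g⁻¹ • x = ∞) ↔ x = ∞ := by
    rw [inv_smul_eq_iff]
    change x = g ∞ ↔ _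
    rw [h1]
  by_cases hx : x = ∞
  · rw [if_pos hx]
    exact if_pos (this.2 hx)
  · rw [if_neg hx]
    exact if_neg (fun h => hx (this.1 h))

include hn in
theorem exists25 (h : Hyp F L a1 ψ) :
    ∃ (V : Type) (_ : AddCommGroup V) (_ : Module ℂ V) (_ : FiniteDimensional ℂ V)
      (ρ : Representation ℂ (KK L a1 hsq) V), ρ.IsIrreducible ∧ finrank ℂ V = 25 := by
  classical
  have hv0 : (v25 : OnePoint F → ℂ) ≠ 0 := by
    intro h0
    have := congrFun h0 ∞
    simp [v25] at this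
  have hw := pw_mem (a1 := a1) hsq hn
  obtain ⟨V', i1, i2, i3, ρ', v', hirr, hv', H⟩ :=
    exists_irr (funRep (OnePoint F) (KK L a1 hsq)) v25 hv0
  refine ⟨V', i1, i2, i3, ρ', hirr, ?_⟩
  have tr : ∀ (g : Equiv.Perm (OnePoint F)) (hg : g ∈ KK L a1 hsq), g ∞ = ∞ →
      RR ρ' g v' = v' := by
    intro g hg h1
    rw [RR_of _ hg]
    have := transfer _ _ _ _ H ⟨g, hg⟩ 1 (v25_fix _ hg h1)
    rwa [one_smul] at this
  have hU : ∀ b, (mkOS hsq hn le_rfl ρ').U b v' = v' := fun b => tr _ (pu_mem hsq b) (pu_inf b)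
  have hE := E0_of_U (ψ := ψ) (mkOS hsq hn le_rfl ρ') v' hU
  refine OS.eq25 (mkOS hsq hn le_rfl ρ') h (os_irr hsq hn ρ' hirr) hv' hE
    (fun a ha => tr _ (ph_mem hsq ha) (ph_inf a)) (tr _ (pt_mem hsq) (pt_inf a1)) ?_
  -- the relation
  have hrel := H (1 + ∑ b : F, MonoidAlgebra.of ℂ (KK L a1 hsq)
    ⟨pu b * pw, (KK L a1 hsq).mul_mem (pu_mem hsq b) hw⟩) (by
      rw [map_add, map_one, map_sum, LinearMap.add_apply, LinearMap.sum_apply]
      funext x
      rw [Pi.add_apply, Finset.sum_apply, Module.End.one_apply, Pi.zero_apply]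
      have h1 : ∀ b : F, (((funRep (OnePoint F) (KK L a1 hsq)).asAlgebraHom
          (MonoidAlgebra.of ℂ (KK L a1 hsq)
            ⟨pu b * pw, (KK L a1 hsq).mul_mem (pu_mem hsq b) hw⟩)) v25) x =
          v25 (pw (pu (-b) x)) := by
        intro b
        rw [Representation.asAlgebraHom_of, funRep_apply]
        congr 1
        change (pu b * pw : Equiv.Perm (OnePoint F))⁻¹ x = _
        have e1 : (pu b : Equiv.Perm (OnePoint F))⁻¹ = pu (-b) := by
          apply inv_eq_of_mul_eq_one_right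
          rw [← pu_add, add_neg_cancel, pu_zero]
        have e2 : (pw : Equiv.Perm (OnePoint F))⁻¹ = pw :=
          inv_eq_of_mul_eq_one_right pw_sq
        rw [_root_.mul_inv_rev, e1, e2]
        rfl
      rw [Finset.sum_congr rfl fun b _ => h1 b]
      cases x with
      | infty =>
        simp only [v25, pu_inf, pw_inf, OnePoint.coe_ne_infty, if_true, if_false,
          Finset.sum_const, Finset.card_univ, hF.out]
        norm_num
      | coe y =>
        have h2 : ∀ b : F, (v25 (pw (pu (-b) ((y : F) : OnePoint F))) : ℂ) =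
            -1 + if b = y then 26 else 0 := by
          intro b
          rw [pu_coe, pw_coe]
          by_cases hb : b = y
          · rw [hb, neg_add_cancel, if_pos rfl, if_pos rfl]
            simp [v25]
            norm_num
          · have : -b + y ≠ 0 := by
              intro h3
              exact hb (by linear_combination -h3)
            rw [if_neg this, if_neg hb]
            simp [v25]
        rw [Finset.sum_congr rfl fun b _ => h2 b, Finset.sum_add_distrib]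
        simp only [v25, OnePoint.coe_ne_infty, if_false, Finset.sum_const, Finset.card_univ,
          hF.out, Finset.sum_ite_eq', Finset.mem_univ, if_true]
        norm_num)
  rw [map_add, map_one, map_sum, LinearMap.add_apply, LinearMap.sum_apply,
    Module.End.one_apply] at hrel
  have h3 : ∀ b : F, (ρ'.asAlgebraHom (MonoidAlgebra.of ℂ (KK L a1 hsq)
      ⟨pu b * pw, (KK L a1 hsq).mul_mem (pu_mem hsq b) hw⟩)) v' =
      (mkOS hsq hn le_rfl ρ').U b ((mkOS hsq hn le_rfl ρ').W v') := by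
    intro b
    rw [Representation.asAlgebraHom_of]
    change _ = RR ρ' (pu b) (RR ρ' pw v')
    rw [← Module.End.mul_apply, ← RR_mul ρ' (pu_mem hsq b) hw,
      RR_of ρ' ((KK L a1 hsq).mul_mem (pu_mem hsq b) hw)]
  rw [Finset.sum_congr rfl fun b _ => h3 b] at hrel
  have h4 := congrArg ((mkOS hsq hn le_rfl ρ').E ψ 0) hrel
  rw [map_add, map_sum, map_zero, hE,
    Finset.sum_congr rfl fun b _ => OS.E0_U' (mkOS hsq hn le_rfl ρ') b _, Finset.sum_const,
    Finset.card_univ, hF.out, ← Nat.cast_smul_eq_nsmul ℂ] at h4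
  exact_mod_cast h4

/-- The finite part of a point. -/
def val (x : OnePoint F) : F := x.elim 0 id

open Classical in
/-- The vector generating the principal series. -/
noncomputable def vv (χ : MulChar F ℂ) : Equiv.Perm (OnePoint F) → ℂ := fun g =>
  if g ∞ = ∞ then χ (val (g ((1 : F) : OnePoint F)) - val (g ((0 : F) : OnePoint F))) else 0

theorem vmul (χ : MulChar F ℂ) (g : Equiv.Perm (OnePoint F)) (h1 : g ∞ = ∞) (c : ℂ)
    (hc : ∀ q r : F, χ (val (g (r : OnePoint F)) - val (g (q : OnePoint F))) = c * χ (r - q))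
    (y : Equiv.Perm (OnePoint F)) : vv χ (g * y) = c * vv χ y := by
  unfold vv
  by_cases hy : y ∞ = ∞
  · rw [if_pos hy, if_pos (by rw [Equiv.Perm.mul_apply, hy, h1])]
    have h0 : ∀ z : F, ∃ q : F, y (z : OnePoint F) = (q : OnePoint F) := by
      intro z
      have hne : y (z : OnePoint F) ≠ ∞ := by
        intro h2
        exact OnePoint.coe_ne_infty z (y.injective (h2.trans hy.symm))
      obtain ⟨q, hq⟩ := OnePoint.ne_infty_iff_exists.1 hne
      exact ⟨q, hq.symm⟩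
    obtain ⟨q, hq⟩ := h0 0
    obtain ⟨r, hr⟩ := h0 1
    rw [Equiv.Perm.mul_apply, Equiv.Perm.mul_apply, hq, hr, hc]
    rfl
  · rw [if_neg hy, if_neg, mul_zero]
    rw [Equiv.Perm.mul_apply]
    intro h2
    exact hy (g.injective (h2.trans h1.symm))

theorem vfix (χ : MulChar F ℂ) {g : Equiv.Perm (OnePoint F)}
    (G : Subgroup (Equiv.Perm (OnePoint F))) (hg : g ∈ G) (c : ℂ) (hc0 : c ≠ 0)
    (hc : ∀ y, vv χ (g * y) = c * vv χ y) :
    funRep (Equiv.Perm (OnePoint F)) G ⟨g, hg⟩ (vv χ) = c⁻¹ • vv χ := by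
  funext x
  rw [funRep_apply]
  change vv χ (g⁻¹ * x) = c⁻¹ * vv χ x
  have h1 := hc (g⁻¹ * x)
  rw [mul_inv_cancel_left] at h1
  rw [h1, ← mul_assoc, inv_mul_cancel₀ hc0, one_mul]

theorem vv_ne (χ : MulChar F ℂ) : vv χ ≠ 0 := by
  intro h0
  have := congrFun h0 1
  simp [vv, val] at this

theorem vv_pu (χ : MulChar F ℂ) (b : F) (y : Equiv.Perm (OnePoint F)) :
    vv χ (pu b * y) = 1 * vv χ y := by
  refine vmul χ _ (pu_inf b) 1 ?_ y
  intro q r
  simp [val]

theorem vv_ph (χ : MulChar F ℂ) (a : Fˣ) (y : Equiv.Perm (OnePoint F)) :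
    vv χ (ph a * y) = χ a * vv χ y := by
  refine vmul χ _ (ph_inf a) (χ a) ?_ y
  intro q r
  simp only [val, ph_coe, OnePoint.elim_some, id, ← mul_sub, map_mul]

theorem vv_pt (χ : MulChar F ℂ) (h5 : ∀ z, χ (z ^ 5) = χ z) (a : Fˣ)
    (y : Equiv.Perm (OnePoint F)) : vv χ (pt a * y) = χ a * vv χ y := by
  refine vmul χ _ (pt_inf a) (χ a) ?_ y
  intro q r
  simp only [val, pt_coe, OnePoint.elim_some, id, ← mul_sub, map_mul]
  rw [← h5 (r - q), sub_pow_char]

theorem chi_ne (χ : MulChar F ℂ) (a : Fˣ) : χ (a : F) ≠ 0 := by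
  intro h0
  have h1 : χ (a : F) * χ ((a⁻¹ : Fˣ) : F) = 1 := by
    rw [← map_mul, Units.mul_inv, map_one]
  rw [h0, zero_mul] at h1
  exact zero_ne_one h1

theorem exists_ps (χ : MulChar F ℂ) :
    ∃ (V : Type) (_ : AddCommGroup V) (_ : Module ℂ V) (_ : FiniteDimensional ℂ V)
      (ρ : Representation ℂ (KK L a1 hsq) V) (v : V), ρ.IsIrreducible ∧ v ≠ 0 ∧
      (mkOS hsq hn le_rfl ρ).E ψ 0 v = v ∧
      (∀ a ∈ L, (mkOS hsq hn le_rfl ρ).H a v = (χ a)⁻¹ • v) ∧
      ((∀ z, χ (z ^ 5) = χ z) → (mkOS hsq hn le_rfl ρ).T v = (χ a1)⁻¹ • v) := by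
  classical
  obtain ⟨V', i1, i2, i3, ρ', v', hirr, hv', H⟩ :=
    exists_irr (funRep (Equiv.Perm (OnePoint F)) (KK L a1 hsq)) (vv χ) (vv_ne χ)
  refine ⟨V', i1, i2, i3, ρ', v', hirr, hv', ?_, ?_, ?_⟩
  · apply E0_of_U
    intro b
    change RR ρ' (pu b) v' = v'
    rw [RR_of _ (pu_mem hsq b)]
    have := transfer _ _ _ _ H ⟨pu b, pu_mem hsq b⟩ (1 : ℂ)⁻¹
      (vfix χ _ _ 1 one_ne_zero (vv_pu χ b))
    rwa [inv_one, one_smul] at this
  · intro a ha
    change RR ρ' (ph a) v' = _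
    rw [RR_of _ (ph_mem hsq ha)]
    exact transfer _ _ _ _ H ⟨ph a, ph_mem hsq ha⟩ _ (vfix χ _ _ _ (chi_ne χ a) (vv_ph χ a))
  · intro h5
    change RR ρ' (pt a1) v' = _
    rw [RR_of _ (pt_mem hsq)]
    exact transfer _ _ _ _ H ⟨pt a1, pt_mem hsq⟩ _ (vfix χ _ _ _ (chi_ne χ a1) (vv_pt χ h5 a1))

include hn in
theorem exists26 (h : Hyp F L a1 ψ) (χ : MulChar F ℂ) (h5 : ∀ z, χ (z ^ 5) = χ z)
    (b : Fˣ) (hb : χ ((b * b : Fˣ) : F) ≠ 1) :
    ∃ (V : Type) (_ : AddCommGroup V) (_ : Module ℂ V) (_ : FiniteDimensional ℂ V)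
      (ρ : Representation ℂ (KK L a1 hsq) V), ρ.IsIrreducible ∧ finrank ℂ V = 26 := by
  obtain ⟨V', i1, i2, i3, ρ', v', hirr, hv', h1, h2, h3⟩ := exists_ps hsq hn (ψ := ψ) χ
  refine ⟨V', i1, i2, i3, ρ', hirr, ?_⟩
  refine OS.eq26 (mkOS hsq hn le_rfl ρ') h (os_irr hsq hn ρ' hirr) hv' h1
    (fun a ha => ⟨_, h2 a ha⟩) ⟨_, h3 h5⟩ (b := b) ?_
  rw [h2 _ (hsq b)]
  intro h4
  apply hb
  have h6 : ((χ ((b * b : Fˣ) : F))⁻¹ - 1) • v' = 0 := by
    rw [sub_smul, h4, one_smul, sub_self]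
  have h7 := sub_eq_zero.1 ((smul_eq_zero.1 h6).resolve_right hv')
  exact inv_eq_one.1 h7

include hn in
theorem exists52 (h : Hyp F L a1 ψ) (χ : MulChar F ℂ) (b : Fˣ)
    (e1 : χ ((b * b : Fˣ) : F) ≠ 1) (e2 : χ ((b * b : Fˣ) : F) ^ 2 ≠ 1)
    (e4 : χ ((b * b : Fˣ) : F) ^ 4 ≠ 1) (e6 : χ ((b * b : Fˣ) : F) ^ 6 ≠ 1) :
    ∃ (V : Type) (_ : AddCommGroup V) (_ : Module ℂ V) (_ : FiniteDimensional ℂ V)
      (ρ : Representation ℂ (KK L a1 hsq) V), ρ.IsIrreducible ∧ finrank ℂ V = 52 := by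
  obtain ⟨V', i1, i2, i3, ρ', v', hirr, hv', h1, h2, h3⟩ := exists_ps hsq hn (ψ := ψ) χ
  refine ⟨V', i1, i2, i3, ρ', hirr, ?_⟩
  have h0 := chi_ne χ (b * b)
  generalize hz : χ ((b * b : Fˣ) : F) = z at *
  refine OS.eq52 (mkOS hsq hn le_rfl ρ') h (os_irr hsq hn ρ' hirr) hv' h1 (b := b)
    (η := z⁻¹) ?_ ?_ ?_ ?_ ?_
  · rw [h2 _ (hsq b), hz]
  · intro h4
    exact e1 (inv_eq_one.1 h4)
  · intro h4
    apply e4
    rw [inv_pow, _root_.inv_inj] at h4
    have : z * (z ^ 4 - 1) = 0 := by linear_combination h4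
    exact sub_eq_zero.1 ((mul_eq_zero.1 this).resolve_left h0)
  · intro h4
    apply e2
    rw [inv_inv] at h4
    field_simp at h4
    exact h4
  · intro h4
    apply e6
    rw [inv_inv] at h4
    field_simp at h4
    exact h4

end

end Pool.Agent.V1150.MZ
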