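import Pool.Agent.V1150.MZ.GP5

namespace Pool.Agent.V1150.MZ

open Module OnePoint Matrix

attribute [local instance] fact5

/-- Degrees of irreducible complex representations. -/
def IsDeg (G : Type) [Group G] (n : ℕ) : Prop :=
  ∃ (V : Type) (_ : AddCommGroup V) (_ : Module ℂ V) (_ : FiniteDimensional ℂ V)
    (ρ : Representation ℂ G V), ρ.IsIrreducible ∧ finrank ℂ V = n

theorem isDeg_one (G : Type) [Group G] : IsDeg G 1 := by
  refine ⟨ℂ, inferInstance, inferInstance, inferInstance, 1, ?_, finrank_self ℂ⟩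
  rw [irr_iff]
  exact ⟨inferInstance, fun S _ => eq_bot_or_eq_top S⟩

section

variable {F : Type} [Field F] [Fintype F] [DecidableEq F] [CharP F 5]
  [hF : Fact (Fintype.card F = 25)]

section

variable {L : Subgroup Fˣ} {a1 : Fˣ} (hsq : ∀ a : Fˣ, a * a ∈ L) (hn : (-1 : Fˣ) ∈ L)
  {ψ : AddChar F ℂ}

include hn in
theorem cdset (h : Hyp F L a1 ψ)
    (h24 : ∀ (V : Type) [AddCommGroup V] [Module ℂ V] [FiniteDimensional ℂ V]
      (ρ : Representation ℂ (KK L a1 hsq) V), (mkOS hsq hn le_rfl ρ).E ψ 0 = 0 →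
        finrank ℂ V = 24 → False)
    (χ : MulChar F ℂ) (b : Fˣ) (hχ : ∀ k : ℕ, 0 < k → k < 24 → χ (b : F) ^ k ≠ 1)
    (hχ24 : ∀ z : Fˣ, χ (z : F) ^ 24 = 1) (n : ℕ) :
    IsDeg (KK L a1 hsq) n ↔ n = 1 ∨ n = 25 ∨ n = 26 ∨ n = 48 ∨ n = 52 := by
  constructor
  · rintro ⟨V, i1, i2, i3, ρ, hρ, rfl⟩
    rcases dims hsq hn h ρ hρ with ⟨-, h1, -⟩ | ⟨h1, h2⟩
    · rcases h1 with h1 | h1 | h1 | h1 <;> simp [h1]
    · rcases h2 with h2 | h2
      · exact (h24 V ρ h1 h2).elim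
      · simp [h2]
  · rintro (rfl | rfl | rfl | rfl | rfl)
    · exact isDeg_one _
    · exact exists25 hsq hn h
    · refine exists26 hsq hn h (χ ^ 6) ?_ b ?_
      · intro z
        by_cases hz : z = 0
        · rw [hz, zero_pow (by norm_num)]
        · rw [MulChar.pow_apply' _ (by norm_num), MulChar.pow_apply' _ (by norm_num), map_pow,
            ← pow_mul]
          have := hχ24 (Units.mk0 z hz)
          rw [Units.val_mk0] at this
          calc χ z ^ (5 * 6) = χ z ^ 24 * χ z ^ 6 := by rw [← pow_add]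
            _ = χ z ^ 6 := by rw [this, one_mul]
      · rw [MulChar.pow_apply' _ (by norm_num), Units.val_mul, map_mul, ← pow_two, ← pow_mul]
        exact hχ _ (by norm_num) (by norm_num)
    · obtain ⟨V, i1, i2, i3, ρ, hρ, h1, h2⟩ := exists_cusp hsq hn h
      rcases h1 with h1 | h1
      · exact (h24 V ρ h2 h1).elim
      · exact ⟨V, i1, i2, i3, ρ, hρ, h1⟩
    · have e : ∀ m : ℕ, χ ((b * b : Fˣ) : F) ^ m = χ (b : F) ^ (2 * m) := by
        intro m
        rw [Units.val_mul, map_mul, ← pow_two, ← pow_mul]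
      refine exists52 hsq hn h χ b ?_ ?_ ?_ ?_
      · have := e 1
        rw [pow_one] at this
        rw [this]
        exact hχ _ (by norm_num) (by norm_num)
      · rw [e]
        exact hχ _ (by norm_num) (by norm_num)
      · rw [e]
        exact hχ _ (by norm_num) (by norm_num)
      · rw [e]
        exact hχ _ (by norm_num) (by norm_num)

end

omit [DecidableEq F] in
theorem exists_psi : ∃ ψ : AddChar F ℂ, ψ ≠ 1 ∧ ∀ x, ψ (x ^ 5) = ψ x := by
  have h0 : (AddChar.FiniteField.primitiveChar_to_Complex F) ≠ 1 := by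
    have h1 := AddChar.FiniteField.primitiveChar_to_Complex_isPrimitive F one_ne_zero
    intro h2
    apply h1
    rw [h2]
    ext x
    simp
  generalize AddChar.FiniteField.primitiveChar_to_Complex F = χ at h0
  obtain ⟨x0, hx0⟩ := AddChar.ne_one_iff.1 h0
  have h2 : (2 : F) ≠ 0 := by
    intro h2
    have h5 : ((25 : ℕ) : F) = 0 := by
      rw [← hF.out]
      exact FiniteField.cast_card_eq_zero F
    have h6 : (1 : F) = 0 := by
      push_cast at h5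
      linear_combination h5 - 12 * h2
    exact one_ne_zero h6
  let ψ : AddChar F ℂ :=
    { toFun := fun x => χ (x0 / 2 * (x + x ^ 5))
      map_zero_eq_one' := by
        norm_num
      map_add_eq_mul' := by
        intro a b
        rw [← AddChar.map_add_eq_mul, add_pow_char]
        congr 1
        ring }
  refine ⟨ψ, ?_, ?_⟩
  · rw [AddChar.ne_one_iff]
    refine ⟨1, ?_⟩
    change χ (x0 / 2 * (1 + 1 ^ 5)) ≠ 1
    have : x0 / 2 * (1 + 1 ^ 5) = x0 := by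
      field_simp
      norm_num
    rwa [this]
  · intro x
    change χ (x0 / 2 * (x ^ 5 + (x ^ 5) ^ 5)) = χ (x0 / 2 * (x + x ^ 5))
    congr 2
    rw [← pow_mul, p25, add_comm]

/-- The subgroup of squares. -/
def Lsq (F : Type) [Field F] : Subgroup Fˣ := (powMonoidHom 2 : Fˣ →* Fˣ).range

omit [Fintype F] [DecidableEq F] [CharP F 5] hF in
theorem mem_Lsq (a : Fˣ) : a ∈ Lsq F ↔ ∃ s : Fˣ, a = s * s := by
  unfold Lsq
  rw [MonoidHom.mem_range]
  constructor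
  · rintro ⟨s, hs⟩
    exact ⟨s, by rw [← hs, powMonoidHom_apply, pow_two]⟩
  · rintro ⟨s, hs⟩
    exact ⟨s, by rw [hs, powMonoidHom_apply, pow_two]⟩

omit [Fintype F] [DecidableEq F] [CharP F 5] hF in
theorem sq_Lsq (a : Fˣ) : a * a ∈ Lsq F := (mem_Lsq _).2 ⟨a, rfl⟩

omit [CharP F 5] in
theorem cardU : Fintype.card Fˣ = 24 := by rw [Fintype.card_units, hF.out]

omit [CharP F 5] in
theorem gen : ∃ ω : Fˣ, orderOf ω = 24 ∧ ∀ x : Fˣ, ∃ k : ℕ, ω ^ k = x := by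
  obtain ⟨ω, hω⟩ := IsCyclic.exists_generator (α := Fˣ)
  refine ⟨ω, ?_, ?_⟩
  · rw [orderOf_eq_card_of_forall_mem_zpowers hω, Nat.card_eq_fintype_card, cardU]
  · intro x
    obtain ⟨k, hk⟩ := (mem_powers_iff_mem_zpowers.2 (hω x))
    exact ⟨k, hk⟩

omit [CharP F 5] in
theorem h12 (c : Fˣ) (hc : c ^ 12 = 1) : c ∈ Lsq F := by
  obtain ⟨ω, hω, hgen⟩ := gen (F := F)
  obtain ⟨k, rfl⟩ := hgen c
  rw [← pow_mul] at hc
  have h1 := orderOf_dvd_of_pow_eq_one hc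
  rw [hω] at h1
  obtain ⟨m, hm⟩ : 2 ∣ k := by
    obtain ⟨m, hm⟩ := h1
    exact ⟨m, by omega⟩
  rw [mem_Lsq]
  exact ⟨ω ^ m, by rw [← pow_add, hm]; congr 1; ring⟩

omit [CharP F 5] in
theorem neg_mem : (-1 : Fˣ) ∈ Lsq F := by
  apply h12
  rw [Even.neg_pow (by decide), one_pow]

omit [CharP F 5] in
theorem gen_not {ω : Fˣ} (hω : orderOf ω = 24) : ω ∉ Lsq F := by
  intro h
  obtain ⟨s, hs⟩ := (mem_Lsq _).1 h
  have h1 : ω ^ 12 = 1 := by
    rw [hs, ← pow_two, ← pow_mul]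
    have := pow_card_eq_one (x := s)
    rwa [cardU] at this
  have h2 := orderOf_dvd_of_pow_eq_one h1
  rw [hω] at h2
  norm_num at h2

theorem hypL {ψ : AddChar F ℂ} (h1 : ψ ≠ 1) (h2 : ∀ x, ψ (x ^ 5) = ψ x) {ω : Fˣ}
    (hgen : ∀ x : Fˣ, ∃ k : ℕ, ω ^ k = x) : Hyp F (Lsq F) ω ψ where
  card := hF.out
  ne := h1
  pow5 := h2
  sq := sq_Lsq
  negone := by
    obtain ⟨i, hi⟩ := (mem_Lsq _).1 (neg_mem (F := F))
    exact ⟨i, hi.symm⟩
  tr := by
    intro c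
    obtain ⟨k, rfl⟩ := hgen c
    rcases Nat.even_or_odd' k with ⟨m, rfl | rfl⟩
    · left
      exact (mem_Lsq _).2 ⟨ω ^ m, by rw [← pow_add]; congr 1; ring⟩
    · right
      exact (mem_Lsq _).2 ⟨ω ^ (m + 1), by rw [← pow_succ', ← pow_add]; congr 1; ring⟩

theorem hypT {ψ : AddChar F ℂ} (h1 : ψ ≠ 1) (h2 : ∀ x, ψ (x ^ 5) = ψ x) :
    Hyp F ⊤ (1 : Fˣ) ψ where
  card := hF.out
  ne := h1
  pow5 := h2
  sq := fun _ => trivial
  negone := by
    obtain ⟨i, hi⟩ := (mem_Lsq _).1 (neg_mem (F := F))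
    exact ⟨i, hi.symm⟩
  tr := fun _ => Or.inl trivial

theorem top_sq : ∀ a : Fˣ, a * a ∈ (⊤ : Subgroup Fˣ) := fun _ => trivial

theorem KK_le (L : Subgroup Fˣ) (a1 : Fˣ) (hsq : ∀ a : Fˣ, a * a ∈ L) :
    KK L a1 hsq ≤ KK ⊤ 1 top_sq := by
  rintro g ⟨k, ⟨-, rfl⟩ | ⟨-, rfl⟩⟩
  · exact ⟨k, Or.inl ⟨trivial, rfl⟩⟩
  · exact ⟨k, Or.inr ⟨trivial, rfl⟩⟩

theorem same_degrees {ω : Fˣ} (hω : orderOf ω = 24) (hgen : ∀ x : Fˣ, ∃ k : ℕ, ω ^ k = x)
    (n : ℕ) : (IsDeg (KK (Lsq F) ω sq_Lsq) n ↔ n = 1 ∨ n = 25 ∨ n = 26 ∨ n = 48 ∨ n = 52) ∧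
      (IsDeg (KK (F := F) ⊤ 1 top_sq) n ↔ n = 1 ∨ n = 25 ∨ n = 26 ∨ n = 48 ∨ n = 52) := by
  classical
  obtain ⟨ψ, hψ1, hψ2⟩ := exists_psi (F := F)
  have hL := hypL hψ1 hψ2 hgen
  have hT := hypT (F := F) hψ1 hψ2
  -- a multiplicative character of order 24
  obtain ⟨χ, hχ⟩ := MulChar.exists_mulChar_orderOf_eq_card_units F (R := ℂ)
    (ζ := Complex.exp (2 * Real.pi * Complex.I / (Fintype.card Fˣ : ℂ)))
    (Complex.isPrimitiveRoot_exp _ (Fintype.card_ne_zero))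
  rw [cardU] at hχ
  have hz24 : ∀ z : Fˣ, χ (z : F) ^ 24 = 1 := by
    intro z
    rw [← map_pow, ← Units.val_pow_eq_pow_val]
    have := pow_card_eq_one (x := z)
    rw [cardU] at this
    rw [this, Units.val_one, map_one]
  have hk : ∀ k : ℕ, 0 < k → k < 24 → χ (ω : F) ^ k ≠ 1 := by
    intro k hk0 hk1 h1
    have h2 : χ ^ k = 1 := by
      ext z
      rw [MulChar.pow_apply_coe, MulChar.one_apply_coe]
      obtain ⟨m, rfl⟩ := hgen z
      rw [Units.val_pow_eq_pow_val, map_pow, ← pow_mul, mul_comm, pow_mul, h1, one_pow]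
    have h3 := orderOf_dvd_of_pow_eq_one h2
    rw [hχ] at h3
    have := Nat.le_of_dvd hk0 h3
    omega
  have : Fintype (Lsq F) := Fintype.ofFinite _
  have hcard : Fintype.card (Lsq F) = 12 := by
    rw [← Nat.card_eq_fintype_card]
    unfold Lsq
    rw [IsCyclic.card_powMonoidHom_range, Nat.card_eq_fintype_card, cardU]
    norm_num
  have n24L : ∀ (V : Type) [AddCommGroup V] [Module ℂ V] [FiniteDimensional ℂ V]
      (ρ : Representation ℂ (KK (Lsq F) ω sq_Lsq) V),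
      (mkOS sq_Lsq neg_mem le_rfl ρ).E ψ 0 = 0 → finrank ℂ V = 24 → False := by
    intro V _ _ _ ρ h0 hd
    exact no24 sq_Lsq neg_mem hL hcard (gen_not hω) (fun a ha => (mem_Lsq a).1 ha)
      (fun c hc => h12 c hc) ρ h0 hd
  have n24T : ∀ (V : Type) [AddCommGroup V] [Module ℂ V] [FiniteDimensional ℂ V]
      (ρ : Representation ℂ (KK (F := F) ⊤ 1 top_sq) V),
      (mkOS top_sq trivial le_rfl ρ).E ψ 0 = 0 → finrank ℂ V = 24 → False := by
    intro V _ _ _ ρ h0 hd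
    refine n24L V (ρ.comp (Subgroup.inclusion (KK_le (Lsq F) ω sq_Lsq))) ?_ hd
    rw [← h0]
    unfold OS.E
    congr 1
    refine Finset.sum_congr rfl fun b _ => ?_
    congr 1
    change RR (ρ.comp (Subgroup.inclusion (KK_le (Lsq F) ω sq_Lsq))) (pu b) = RR ρ (pu b)
    rw [RR_of _ (pu_mem sq_Lsq b), RR_of _ (pu_mem top_sq b)]
    rfl
  exact ⟨cdset sq_Lsq neg_mem hL n24L χ ω hk hz24 n, cdset top_sq trivial hT n24T χ ω hk hz24 n⟩

end

end Pool.Agent.V1150.MZ
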