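import Pool.Agent.V1150.MZ.GP6

namespace Pool.Agent.V1150.MZ

open Module OnePoint Matrix

attribute [local instance] fact5

section

variable {F : Type} [Field F] [Fintype F] [DecidableEq F] [CharP F 5]
  [hF : Fact (Fintype.card F = 25)]

/-- The special linear group inside the semilinear group. -/
noncomputable def sG : SpecialLinearGroup (Fin 2) F →* KK (F := F) ⊤ 1 top_sq where
  toFun s := ⟨fG (s : GL (Fin 2) F), ⟨(s : GL (Fin 2) F), Or.inl ⟨trivial, rfl⟩⟩⟩
  map_one' := by
    apply Subtype.ext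
    simp
  map_mul' := by
    intro a b
    apply Subtype.ext
    simp

theorem sG_val (s : SpecialLinearGroup (Fin 2) F) :
    ((sG s : KK (F := F) ⊤ 1 top_sq) : Equiv.Perm (OnePoint F)) = fG (s : GL (Fin 2) F) := rfl

theorem mem_sG (k : GL (Fin 2) F) (hk : GeneralLinearGroup.det k = 1) :
    ∃ s : SpecialLinearGroup (Fin 2) F, (s : GL (Fin 2) F) = k := by
  refine ⟨⟨k.val, ?_⟩, ?_⟩
  · have := congrArg Units.val hk
    simpa using this
  · apply Units.ext
    rfl

theorem sG_normal : (sG (F := F)).range.Normal := by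
  constructor
  rintro _ ⟨s, rfl⟩ ⟨g, k, ⟨-, rfl⟩ | ⟨-, rfl⟩⟩
  · obtain ⟨t, ht⟩ := mem_sG (k * (s : GL (Fin 2) F) * k⁻¹) (by
      rw [map_mul, map_mul, map_inv, SpecialLinearGroup.coeToGL_det]
      simp)
    refine ⟨t, ?_⟩
    apply Subtype.ext
    rw [sG_val, ht, map_mul, map_mul, map_inv]
    rfl
  · obtain ⟨t, ht⟩ := mem_sG (k * fr (s : GL (Fin 2) F) * k⁻¹) (by
      rw [map_mul, map_mul, map_inv, det_fr, SpecialLinearGroup.coeToGL_det]
      simp)
    refine ⟨t, ?_⟩
    apply Subtype.ext
    rw [sG_val, ht, map_mul, map_mul, map_inv]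
    change fG k * fG (fr (s : GL (Fin 2) F)) * (fG k)⁻¹ =
      (fG k * pf) * fG (s : GL (Fin 2) F) * (fG k * pf)⁻¹
    rw [_root_.mul_inv_rev, pf_inv, mul_assoc (fG k) pf, pf_fG, mul_assoc (fG k) (_ * pf),
      mul_assoc _ pf, ← mul_assoc pf pf, pf_sq, one_mul, mul_assoc]

theorem sG_ker : (sG (F := F)).ker = Subgroup.center (SpecialLinearGroup (Fin 2) F) := by
  ext s
  rw [MonoidHom.mem_ker, Matrix.SpecialLinearGroup.mem_center_iff]
  constructor
  · intro h
    have h1 : fG (s : GL (Fin 2) F) = 1 := congrArg Subtype.val h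
    have e1 : (s : GL (Fin 2) F) • (∞ : OnePoint F) = ∞ := by
      have := congrArg (fun g : Equiv.Perm (OnePoint F) => g ∞) h1
      simpa [fG_apply] using this
    have e2 : (s : GL (Fin 2) F) • ((0 : F) : OnePoint F) = ((0 : F) : OnePoint F) := by
      have := congrArg (fun g : Equiv.Perm (OnePoint F) => g ((0 : F) : OnePoint F)) h1
      simpa [fG_apply] using this
    have e3 : (s : GL (Fin 2) F) • ((1 : F) : OnePoint F) = ((1 : F) : OnePoint F) := by
      have := congrArg (fun g : Equiv.Perm (OnePoint F) => g ((1 : F) : OnePoint F)) h1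
      simpa [fG_apply] using this
    rw [smul_infty_eq_self_iff] at e1
    have hdet : s 0 0 * s 1 1 - s 0 1 * s 1 0 = 1 := by
      rw [← Matrix.det_fin_two]
      exact s.2
    have e1' : s 1 0 = 0 := e1
    rw [e1', mul_zero, sub_zero] at hdet
    have h11 : s 1 1 ≠ 0 := right_ne_zero_of_mul (hdet.symm ▸ one_ne_zero)
    rw [smul_some_eq_ite] at e2 e3
    change (if s 1 0 * 0 + s 1 1 = 0 then ∞ else (((s 0 0 * 0 + s 0 1) / (s 1 0 * 0 + s 1 1) : F) :
      OnePoint F)) = _ at e2
    change (if s 1 0 * 1 + s 1 1 = 0 then ∞ else (((s 0 0 * 1 + s 0 1) / (s 1 0 * 1 + s 1 1) : F) :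
      OnePoint F)) = _ at e3
    rw [e1', zero_mul, zero_add, if_neg h11, OnePoint.coe_eq_coe, mul_zero, zero_add,
      div_eq_zero_iff] at e2
    have e2' : s 0 1 = 0 := e2.resolve_right h11
    rw [e1', zero_mul, zero_add, if_neg h11, OnePoint.coe_eq_coe, mul_one, e2', add_zero,
      div_eq_one_iff_eq h11] at e3
    refine ⟨s 0 0, ?_, ?_⟩
    · rw [Fintype.card_fin, pow_two]
      conv_lhs => enter [2]; rw [e3]
      exact hdet
    · ext i j
      fin_cases i <;> fin_cases j
      · simp
      · simp [e2']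
      · simp [e1']
      · simp [e3]
  · rintro ⟨r, hr, hs⟩
    have hr0 : r ≠ 0 := by
      rintro rfl
      simp at hr
    have e00 : s 0 0 = r := by rw [← hs]; simp
    have e01 : s 0 1 = 0 := by rw [← hs]; simp
    have e10 : s 1 0 = 0 := by rw [← hs]; simp
    have e11 : s 1 1 = r := by rw [← hs]; simp
    apply Subtype.ext
    rw [sG_val]
    apply Equiv.ext
    intro x
    cases x with
    | infty =>
      rw [fG_apply, smul_infty_eq_ite]
      change (if s 1 0 = 0 then ∞ else _) = _
      rw [if_pos e10]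
      rfl
    | coe x =>
      rw [fG_apply, smul_some_eq_ite]
      change (if s 1 0 * x + s 1 1 = 0 then ∞ else
        (((s 0 0 * x + s 0 1) / (s 1 0 * x + s 1 1) : F) : OnePoint F)) = _
      rw [e10, e11, e00, e01, zero_mul, zero_add, if_neg hr0, add_zero, mul_div_cancel_left₀ _ hr0]
      rfl

/-- The image of the special linear group is the projective special linear group. -/
noncomputable def sGequiv : (sG (F := F)).range ≃* ProjectiveSpecialLinearGroup (Fin 2) F :=
  (QuotientGroup.quotientKerEquivRange (sG (F := F))).symm.trans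
    (QuotientGroup.quotientMulEquivOfEq sG_ker)

theorem pu_range (b : F) : ∃ s : SpecialLinearGroup (Fin 2) F, fG (s : GL (Fin 2) F) = pu b := by
  obtain ⟨s, hs⟩ := mem_sG (gu b) (det_gu b)
  exact ⟨s, by rw [hs]; rfl⟩

/-- The centralizer of the special linear group is trivial. -/
theorem sG_cent (g : KK (F := F) ⊤ 1 top_sq) (hg : ∀ s, g * sG s = sG s * g) : g = 1 := by
  have h1 : ∀ s : SpecialLinearGroup (Fin 2) F,
      (g : Equiv.Perm (OnePoint F)) * fG (s : GL (Fin 2) F) =
        fG (s : GL (Fin 2) F) * (g : Equiv.Perm (OnePoint F)) :=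
    fun s => congrArg Subtype.val (hg s)
  have hu : ∀ b : F, (g : Equiv.Perm (OnePoint F)) * pu b = pu b * g := by
    intro b
    obtain ⟨s, hs⟩ := pu_range b
    rw [← hs]
    exact h1 s
  -- infinity is fixed
  have hinf : (g : Equiv.Perm (OnePoint F)) ∞ = ∞ := by
    have h2 := congrArg (fun k : Equiv.Perm (OnePoint F) => k ∞) (hu 1)
    simp only [Equiv.Perm.mul_apply, pu_inf] at h2
    generalize (g : Equiv.Perm (OnePoint F)) ∞ = x at h2
    cases x with
    | infty => rfl
    | coe x =>
      exfalso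
      rw [pu_coe, OnePoint.coe_eq_coe] at h2
      have : (1 : F) = 0 := by linear_combination -h2
      exact one_ne_zero this
  -- the element diag with opposite translation
  obtain ⟨s, hs⟩ := mem_sG (F := F) (GeneralLinearGroup.mkOfDetNeZero !![0, -1; 1, 0] (by simp)) (by
    apply Units.ext
    rw [GeneralLinearGroup.val_det_apply]
    change Matrix.det !![(0 : F), -1; 1, 0] = 1
    simp)
  have h3 := h1 s
  rw [hs] at h3
  have w1 : fG (GeneralLinearGroup.mkOfDetNeZero !![(0 : F), -1; 1, 0] (by simp)) ∞ =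
      ((0 : F) : OnePoint F) := by
    rw [fG_apply, smul_infty_eq_ite]
    change (if (1 : F) = 0 then ∞ else (((0 : F) / 1 : F) : OnePoint F)) = _
    simp
  have h0 : (g : Equiv.Perm (OnePoint F)) ((0 : F) : OnePoint F) = ((0 : F) : OnePoint F) := by
    have := congrArg (fun k : Equiv.Perm (OnePoint F) => k ∞) h3
    simp only [Equiv.Perm.mul_apply, w1, hinf] at this
    exact this
  apply Subtype.ext
  apply Equiv.ext
  intro x
  cases x with
  | infty => exact hinf
  | coe x =>
    have := congrArg (fun k : Equiv.Perm (OnePoint F) => k ((0 : F) : OnePoint F)) (hu x)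
    simp only [Equiv.Perm.mul_apply, pu_coe, add_zero, h0] at this
    exact this

/-- The embedding in the automorphism group. -/
theorem aut_embed : ∃ f : KK (F := F) ⊤ 1 top_sq →*
      MulAut (ProjectiveSpecialLinearGroup (Fin 2) F),
    Function.Injective f ∧
      (MulAut.conj : ProjectiveSpecialLinearGroup (Fin 2) F →* _).range ≤ f.range := by
  have hN := sG_normal (F := F)
  let f : KK (F := F) ⊤ 1 top_sq →* MulAut (ProjectiveSpecialLinearGroup (Fin 2) F) :=
    (MulAut.congr sGequiv).toMonoidHom.comp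
      (MulAut.conjNormal : KK (F := F) ⊤ 1 top_sq →* MulAut (sG (F := F)).range)
  refine ⟨f, ?_, ?_⟩
  · rw [injective_iff_map_eq_one]
    intro g hg
    apply sG_cent
    intro s
    have h1 : (MulAut.conjNormal g : MulAut (sG (F := F)).range) = 1 := by
      apply (MulAut.congr sGequiv).injective
      rw [map_one]
      exact hg
    have h2 := congrArg (fun φ : MulAut (sG (F := F)).range =>
      ((φ ⟨sG s, s, rfl⟩ : (sG (F := F)).range) : KK (F := F) ⊤ 1 top_sq)) h1
    simp only [MulAut.conjNormal_apply, MulAut.one_apply] at h2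
    exact mul_inv_eq_iff_eq_mul.1 h2
  · rintro _ ⟨t, rfl⟩
    refine ⟨(sGequiv.symm t : (sG (F := F)).range), ?_⟩
    apply MulEquiv.ext
    intro x
    change sGequiv (MulAut.conjNormal _ (sGequiv.symm x)) = t * x * t⁻¹
    have : (MulAut.conjNormal ((sGequiv.symm t : (sG (F := F)).range) :
        KK (F := F) ⊤ 1 top_sq) (sGequiv.symm x) : (sG (F := F)).range) =
        sGequiv.symm t * sGequiv.symm x * (sGequiv.symm t)⁻¹ := by
      apply Subtype.ext
      rw [MulAut.conjNormal_apply]
      rfl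
    rw [this, map_mul, map_mul, map_inv, MulEquiv.apply_symm_apply, MulEquiv.apply_symm_apply]

theorem not_comm :
    ∃ a b : ProjectiveSpecialLinearGroup (Fin 2) F, a * b ≠ b * a := by
  by_contra hcon
  push Not at hcon
  have h1 : ∀ s : SpecialLinearGroup (Fin 2) F, sG s = 1 := by
    intro s
    apply sG_cent
    intro t
    have h2 := hcon (sGequiv ⟨sG s, s, rfl⟩) (sGequiv ⟨sG t, t, rfl⟩)
    rw [← map_mul, ← map_mul] at h2
    have h3 := sGequiv.injective h2
    exact congrArg Subtype.val h3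
  obtain ⟨s, hs⟩ := pu_range (1 : F)
  have h2 := congrArg Subtype.val (h1 s)
  rw [sG_val, hs] at h2
  have h3 := congrArg (fun k : Equiv.Perm (OnePoint F) => k ((0 : F) : OnePoint F)) h2
  simp at h3

theorem lt_card {ω : Fˣ} (hω : orderOf ω = 24) :
    Nat.card (KK (Lsq F) ω sq_Lsq) < Nat.card (KK (F := F) ⊤ 1 top_sq) := by
  have hle := KK_le (Lsq F) ω sq_Lsq
  have hmem : ph ω ∈ KK (F := F) ⊤ 1 top_sq := ph_mem _ trivial
  have hnot : ph ω ∉ KK (Lsq F) ω sq_Lsq := by
    intro h
    obtain ⟨c, hc, h1 | h1⟩ := stab sq_Lsq h (ph_inf ω) (by simp)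
    · have h2 := congrArg (fun k : Equiv.Perm (OnePoint F) => k ((1 : F) : OnePoint F)) h1
      simp only [ph_coe, mul_one] at h2
      rw [OnePoint.coe_eq_coe] at h2
      have h3 : ω = c := Units.ext h2
      exact gen_not hω (h3 ▸ hc)
    · have h2 := congrArg (fun k : Equiv.Perm (OnePoint F) => k ((1 : F) : OnePoint F)) h1
      have h3 := congrArg (fun k : Equiv.Perm (OnePoint F) => k ((ω : F) : OnePoint F)) h1
      simp only [Equiv.Perm.mul_apply, ph_coe, pt_coe, mul_one, one_pow] at h2 h3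
      rw [OnePoint.coe_eq_coe] at h2 h3
      have h4 : (ω : F) * ω = ω * ω ^ 5 := by
        rw [h3, ← mul_assoc, ← h2]
      have h5 : (ω : F) = ω ^ 5 := mul_left_cancel₀ ω.ne_zero h4
      have h6 : ω ^ 4 = 1 := by
        apply Units.ext
        have : (ω : F) * 1 = ω * ω ^ 4 := by rw [mul_one, ← pow_succ']; exact h5
        rw [Units.val_pow_eq_pow_val, Units.val_one]
        exact (mul_left_cancel₀ ω.ne_zero this).symm
      have h7 := orderOf_dvd_of_pow_eq_one h6
      rw [hω] at h7
      norm_num at h7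
  have hlt : (KK (Lsq F) ω sq_Lsq : Set (Equiv.Perm (OnePoint F))) ⊂
      (KK (F := F) ⊤ 1 top_sq : Set (Equiv.Perm (OnePoint F))) := by
    refine ⟨hle, fun h => hnot (h hmem)⟩
  exact Set.ncard_lt_ncard hlt (Set.toFinite _)

end

end Pool.Agent.V1150.MZ
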