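import Pool.Agent.V1150.MZ.Rep

namespace Pool.Agent.V1150.MZ

open Module

/-- Systems of operators satisfying the relations of the generators of a group between
`PSL(2,25)` and `PΓL(2,25)`. -/
structure OS (F V : Type) [Field F] [Fintype F] [AddCommGroup V] [Module ℂ V]
    (L : Subgroup Fˣ) (a1 : Fˣ) where
  U : F → Module.End ℂ V
  H : Fˣ → Module.End ℂ V
  W : Module.End ℂ V
  T : Module.End ℂ V
  U_zero : U 0 = 1
  U_add : ∀ a b, U (a + b) = U a * U b
  H_one : H 1 = 1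
  H_mul : ∀ a ∈ L, ∀ b ∈ L, H (a * b) = H a * H b
  W_sq : W * W = 1
  HU : ∀ a ∈ L, ∀ b : F, H a * U b = U (a * b) * H a
  WH : ∀ a ∈ L, W * H a = H a⁻¹ * W
  WUW : ∀ b : Fˣ, W * U (b : F) * W = U ((b⁻¹ : Fˣ) : F) * H (-(b⁻¹ * b⁻¹)) * W * U ((b⁻¹ : Fˣ) : F)
  TU : ∀ b : F, T * U b = U (a1 * b ^ 5) * T
  TH : ∀ a ∈ L, T * H a = H (a ^ 5) * T
  TT : T * T = H (a1 ^ 6)
  WT : W * T = H (a1⁻¹ * a1⁻¹) * T * W

namespace OS

variable {F V : Type} [Field F] [Fintype F] [DecidableEq F] [AddCommGroup V] [Module ℂ V]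
  [FiniteDimensional ℂ V]
  {L : Subgroup Fˣ} {a1 : Fˣ} (o : OS F V L a1)

/-- Invariance under the operators without `T`. -/
def InvK (S : Submodule ℂ V) : Prop :=
  (∀ b, ∀ v ∈ S, o.U b v ∈ S) ∧ (∀ a ∈ L, ∀ v ∈ S, o.H a v ∈ S) ∧ (∀ v ∈ S, o.W v ∈ S)

/-- Invariance under all the operators. -/
def Inv (S : Submodule ℂ V) : Prop := o.InvK S ∧ (∀ v ∈ S, o.T v ∈ S)

def Irr : Prop := Nontrivial V ∧ ∀ S : Submodule ℂ V, o.Inv S → S = ⊥ ∨ S = ⊤

variable (ψ : AddChar F ℂ)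

/-- The projection to the eigenspace of the translations for the character `x ↦ ψ (c x)`. -/
noncomputable def E (c : F) : Module.End ℂ V :=
  (1 / (Fintype.card F : ℂ)) • ∑ b : F, ψ (-(c * b)) • o.U b

omit [FiniteDimensional ℂ V] [DecidableEq F]

theorem card_ne : (Fintype.card F : ℂ) ≠ 0 := by
  exact_mod_cast Fintype.card_ne_zero

theorem U_comm (a b : F) : o.U a * o.U b = o.U b * o.U a := by
  rw [← o.U_add, ← o.U_add, add_comm]

theorem U_E (b c : F) : o.U b * o.E ψ c = ψ (c * b) • o.E ψ c := by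
  unfold E
  rw [mul_smul_comm, smul_comm]
  congr 1
  rw [Finset.mul_sum, Finset.smul_sum]
  refine Fintype.sum_equiv (Equiv.addLeft b) _ _ ?_
  intro x
  rw [mul_smul_comm, ← o.U_add, smul_smul, ← AddChar.map_add_eq_mul]
  simp only [Equiv.coe_addLeft]
  congr 2
  ring

theorem E_U (b c : F) : o.E ψ c * o.U b = ψ (c * b) • o.E ψ c := by
  rw [← U_E]
  unfold E
  rw [mul_smul_comm, smul_mul_assoc]
  congr 1
  rw [Finset.mul_sum, Finset.sum_mul]
  refine Finset.sum_congr rfl fun x _ => ?_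
  rw [mul_smul_comm, smul_mul_assoc, o.U_comm]

theorem E_E [DecidableEq F] (hψ : ψ ≠ 1) (c d : F) :
    o.E ψ c * o.E ψ d = if c = d then o.E ψ c else 0 := by
  have h1 : o.E ψ c * o.E ψ d = ((1 / (Fintype.card F : ℂ)) * ∑ b : F, ψ (b * (d - c))) • o.E ψ d := by
    conv_lhs => rw [E]
    rw [smul_mul_assoc, Finset.sum_mul, Finset.mul_sum, Finset.sum_smul, Finset.smul_sum]
    refine Finset.sum_congr rfl fun x _ => ?_
    rw [smul_mul_assoc, U_E, smul_smul, smul_smul, mul_assoc, ← AddChar.map_add_eq_mul]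
    congr 3
    ring
  have hp : ψ.IsPrimitive := AddChar.IsPrimitive.of_ne_one hψ
  rw [h1, AddChar.sum_mulShift _ hp]
  by_cases h : c = d
  · subst h
    simp
  · rw [if_neg (sub_ne_zero.2 (Ne.symm h)), if_neg h]
    simp

theorem sum_E [DecidableEq F] (hψ : ψ ≠ 1) : ∑ c : F, o.E ψ c = 1 := by
  have hp : ψ.IsPrimitive := AddChar.IsPrimitive.of_ne_one hψ
  unfold E
  rw [← Finset.smul_sum, Finset.sum_comm]
  have : ∀ b : F, ∑ c : F, ψ (-(c * b)) • o.U b = (if b = 0 then (Fintype.card F : ℂ) else 0) • o.U b := by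
    intro b
    rw [← Finset.sum_smul]
    congr 1
    have h := AddChar.sum_mulShift (R' := ℂ) (-b) hp
    simp only [neg_eq_zero] at h
    have h2 : ∑ c : F, ψ (-(c * b)) = ∑ x : F, ψ (x * -b) := by
      refine Finset.sum_congr rfl fun x _ => ?_
      rw [mul_neg]
    rw [h2, h]
    push_cast
    rfl
  rw [Finset.sum_congr rfl fun b _ => this b]
  simp only [ite_smul, zero_smul, Finset.sum_ite_eq', Finset.mem_univ, if_true]
  rw [smul_smul, one_div, inv_mul_cancel₀ card_ne, one_smul, o.U_zero]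

theorem H_E {a : Fˣ} (ha : a ∈ L) (c : F) :
    o.H a * o.E ψ c = o.E ψ (c * (a⁻¹ : Fˣ)) * o.H a := by
  unfold E
  rw [mul_smul_comm, smul_mul_assoc]
  congr 1
  rw [Finset.mul_sum, Finset.sum_mul]
  refine Fintype.sum_equiv (Equiv.mulLeft₀ (a : F) a.ne_zero) _ _ ?_
  intro x
  rw [mul_smul_comm, smul_mul_assoc, o.HU a ha]
  simp only [Equiv.mulLeft₀_apply]
  congr 2
  rw [mul_assoc, ← mul_assoc _ (a : F) x]
  simp

theorem H_inv_mul {a : Fˣ} (ha : a ∈ L) : o.H a⁻¹ * o.H a = 1 := by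
  rw [← o.H_mul _ (L.inv_mem ha) _ ha, inv_mul_cancel, o.H_one]

theorem H_mul_inv {a : Fˣ} (ha : a ∈ L) : o.H a * o.H a⁻¹ = 1 := by
  rw [← o.H_mul _ ha _ (L.inv_mem ha), mul_inv_cancel, o.H_one]

theorem T_E (hF : Fintype.card F = 25) (hψ5 : ∀ x, ψ (x ^ 5) = ψ x) (c : F) :
    o.T * o.E ψ c = o.E ψ (c ^ 5 * (a1⁻¹ : Fˣ)) * o.T := by
  have h25 : ∀ x : F, x ^ 25 = x := by
    intro x
    rw [← hF]
    exact FiniteField.pow_card x
  unfold E
  rw [mul_smul_comm, smul_mul_assoc]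
  congr 1
  rw [Finset.mul_sum, Finset.sum_mul]
  let e : F ≃ F :=
    { toFun := fun b => a1 * b ^ 5
      invFun := fun y => ((a1⁻¹ : Fˣ) * y) ^ 5
      left_inv := by
        intro b
        simp only
        rw [← mul_assoc, Units.inv_mul, one_mul, ← pow_mul]
        exact h25 b
      right_inv := by
        intro y
        simp only
        rw [← pow_mul]
        norm_num
        rw [h25]
        simp }
  refine Fintype.sum_equiv e _ _ ?_
  intro x
  rw [mul_smul_comm, smul_mul_assoc, o.TU]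
  change ψ (-(c * x)) • _ = ψ (-(c ^ 5 * (a1⁻¹ : Fˣ) * (a1 * x ^ 5))) • _
  congr 1
  have : -(c ^ 5 * ((a1⁻¹ : Fˣ) : F) * (a1 * x ^ 5)) = (-(c * x)) ^ 5 := by
    rw [mul_assoc, ← mul_assoc _ (a1 : F), Units.inv_mul, one_mul]
    ring
  rw [this, hψ5]

theorem trace_idem (f : Module.End ℂ V) (hf : f * f = f) [FiniteDimensional ℂ V] :
    LinearMap.trace ℂ V f = (finrank ℂ (LinearMap.range f) : ℂ) := by
  have h : LinearMap.IsProj (LinearMap.range f) f := by
    refine ⟨fun x => LinearMap.mem_range_self f x, ?_⟩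
    rintro _ ⟨y, rfl⟩
    have := congrArg (fun g => g y) hf
    simpa using this
  exact h.trace

theorem trace_E [FiniteDimensional ℂ V] [DecidableEq F] (hψ : ψ ≠ 1) (c : F) :
    LinearMap.trace ℂ V (o.E ψ c) = (finrank ℂ (LinearMap.range (o.E ψ c)) : ℂ) :=
  trace_idem _ (by rw [o.E_E ψ hψ, if_pos rfl])

theorem trace_conj_eq [FiniteDimensional ℂ V] (f g A B : Module.End ℂ V) (hAB : B * A = 1)
    (h : A * f = g * A) : LinearMap.trace ℂ V g = LinearMap.trace ℂ V f := by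
  have hBA : A * B = 1 := _root_.mul_eq_one_comm.1 hAB
  have : g = A * f * B := by rw [h, mul_assoc, hBA, mul_one]
  rw [this, LinearMap.trace_mul_comm, ← mul_assoc, hAB, one_mul]

end OS

end Pool.Agent.V1150.MZ
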