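import Pool.Agent.V1150.MZ.OS

namespace Pool.Agent.V1150.MZ

open Module

/-- Standing hypotheses on the field, the additive character and the pair `(L, a1)`. -/
structure Hyp (F : Type) [Field F] [Fintype F] (L : Subgroup Fˣ) (a1 : Fˣ) (ψ : AddChar F ℂ) :
    Prop where
  card : Fintype.card F = 25
  ne : ψ ≠ 1
  pow5 : ∀ x, ψ (x ^ 5) = ψ x
  sq : ∀ a : Fˣ, a * a ∈ L
  negone : ∃ i : Fˣ, i * i = -1
  tr : ∀ c : Fˣ, c ∈ L ∨ a1 * c ∈ L

namespace OS

variable {F V : Type} [Field F] [Fintype F] [DecidableEq F] [AddCommGroup V] [Module ℂ V]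
  [FiniteDimensional ℂ V]
  {L : Subgroup Fˣ} {a1 : Fˣ} (o : OS F V L a1) {ψ : AddChar F ℂ} (h : Hyp F L a1 ψ)

omit [Fintype F] [DecidableEq F] in
theorem negsq_mem [Fintype F] (h : Hyp F L a1 ψ) (b : Fˣ) : -(b * b) ∈ L := by
  obtain ⟨i, hi⟩ := h.negone
  have : -(b * b) = (i * b) * (i * b) := by
    rw [mul_mul_mul_comm, hi, neg_one_mul]
  rw [this]
  exact h.sq _

omit [FiniteDimensional ℂ V] [DecidableEq F] in
theorem a16 (h : Hyp F L a1 ψ) : a1 ^ 6 ∈ L := by
  have : a1 ^ 6 = a1 ^ 3 * a1 ^ 3 := by rw [← pow_add]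
  rw [this]
  exact h.sq _

omit [FiniteDimensional ℂ V] [DecidableEq F] in
include h in
theorem T_inv : o.H (a1 ^ 6)⁻¹ * o.T * o.T = 1 := by
  rw [mul_assoc, o.TT, o.H_inv_mul (a16 h)]

include h in
theorem trace_E_unit (c : Fˣ) :
    LinearMap.trace ℂ V (o.E ψ c) = LinearMap.trace ℂ V (o.E ψ 1) := by
  have key : ∀ a ∈ L, ∀ x : F, LinearMap.trace ℂ V (o.E ψ (x * a)) = LinearMap.trace ℂ V (o.E ψ x) := by
    intro a ha x
    refine trace_conj_eq _ _ (o.H a⁻¹) (o.H a) (o.H_mul_inv ha) ?_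
    have := o.H_E ψ (L.inv_mem ha) x
    simpa using this
  have k2 : LinearMap.trace ℂ V (o.E ψ ((a1⁻¹ : Fˣ) : F)) = LinearMap.trace ℂ V (o.E ψ 1) := by
    refine trace_conj_eq _ _ o.T (o.H (a1 ^ 6)⁻¹ * o.T) (o.T_inv h) ?_
    have := o.T_E ψ h.card h.pow5 1
    simpa using this
  rcases h.tr c with hc | hc
  · have := key c hc 1
    simpa using this
  · have := key _ hc ((a1⁻¹ : Fˣ) : F)
    rw [← k2, ← this]
    simp

include h in
theorem finrank_eq :
    finrank ℂ V = finrank ℂ (LinearMap.range (o.E ψ 0)) +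
      24 * finrank ℂ (LinearMap.range (o.E ψ 1)) := by
  have h1 : (finrank ℂ V : ℂ) = ∑ c : F, LinearMap.trace ℂ V (o.E ψ c) := by
    rw [← map_sum, o.sum_E ψ h.ne, LinearMap.trace_one]
  have h2 : ∑ c : F, LinearMap.trace ℂ V (o.E ψ c) = LinearMap.trace ℂ V (o.E ψ 0) +
      24 * LinearMap.trace ℂ V (o.E ψ 1) := by
    rw [← Finset.add_sum_erase _ _ (Finset.mem_univ (0 : F))]
    congr 1
    have : ∀ c ∈ Finset.univ.erase (0 : F), LinearMap.trace ℂ V (o.E ψ c) =
        LinearMap.trace ℂ V (o.E ψ 1) := by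
      intro c hc
      have hc0 : c ≠ 0 := Finset.ne_of_mem_erase hc
      exact o.trace_E_unit h (Units.mk0 c hc0)
    rw [Finset.sum_congr rfl this, Finset.sum_const, Finset.card_erase_of_mem (Finset.mem_univ _),
      Finset.card_univ, h.card]
    simp
  rw [h2, o.trace_E ψ h.ne, o.trace_E ψ h.ne] at h1
  exact_mod_cast h1

/-- Schur's lemma for operator systems. -/
theorem schur (hI : o.Irr) (Q : Module.End ℂ V) (hU : ∀ b, Q * o.U b = o.U b * Q)
    (hH : ∀ a ∈ L, Q * o.H a = o.H a * Q) (hW : Q * o.W = o.W * Q) (hT : Q * o.T = o.T * Q) :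
    ∃ c : ℂ, Q = c • (1 : Module.End ℂ V) := by
  have := hI.1
  obtain ⟨c, hc⟩ := Module.End.exists_eigenvalue Q
  refine ⟨c, ?_⟩
  have hinv : o.Inv (LinearMap.ker (Q - c • (1 : Module.End ℂ V))) := by
    have hm : ∀ v, v ∈ LinearMap.ker (Q - c • (1 : Module.End ℂ V)) ↔ Q v = c • v := by
      intro v
      simp [sub_eq_zero]
    have hA : ∀ A : Module.End ℂ V, Q * A = A * Q → ∀ v ∈ LinearMap.ker (Q - c • (1 : Module.End ℂ V)),
        A v ∈ LinearMap.ker (Q - c • (1 : Module.End ℂ V)) := by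
      intro A hA v hv
      rw [hm] at *
      have := congrArg (fun g => g v) hA
      simp only [Module.End.mul_apply] at this
      rw [this, hv, map_smul]
    exact ⟨⟨fun b => hA _ (hU b), fun a ha => hA _ (hH a ha), hA _ hW⟩, hA _ hT⟩
  rcases hI.2 _ hinv with h0 | h0
  · exfalso
    obtain ⟨v, hv⟩ := hc.exists_hasEigenvector
    have : v ∈ LinearMap.ker (Q - c • (1 : Module.End ℂ V)) := by
      simp [hv.apply_eq_smul]
    rw [h0] at this
    exact hv.2 (by simpa using this)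
  · rw [LinearMap.ker_eq_top, sub_eq_zero] at h0
    exact h0

/-- Extending invariance from generators of a span. -/
theorem span_stable (A : Module.End ℂ V) (S : Set V) (hA : ∀ v ∈ S, A v ∈ Submodule.span ℂ S) :
    ∀ v ∈ Submodule.span ℂ S, A v ∈ Submodule.span ℂ S := by
  intro v hv
  have : Submodule.span ℂ S ≤ (Submodule.span ℂ S).comap A := by
    rw [Submodule.span_le]
    intro x hx
    exact hA x hx
  exact this hv

theorem comm0_H (a : Fˣ) (ha : a ∈ L) : o.H a * o.E ψ 0 = o.E ψ 0 * o.H a := by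
  rw [o.H_E ψ ha, zero_mul]

include h in
theorem comm0_T : o.T * o.E ψ 0 = o.E ψ 0 * o.T := by
  have := o.T_E ψ h.card h.pow5 0
  simpa using this

theorem U_E0 (b : F) : o.U b * o.E ψ 0 = o.E ψ 0 := by
  rw [o.U_E]; simp

theorem E0_U (b : F) : o.E ψ 0 * o.U b = o.E ψ 0 := by
  rw [o.E_U]; simp

end OS

end Pool.Agent.V1150.MZ
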