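import Pool.Agent.V1150.MZ.OS2

namespace Pool.Agent.V1150.MZ

open Module

theorem sum_F {F M : Type} [Field F] [Fintype F] [DecidableEq F] [AddCommMonoid M] (f : F → M) :
    ∑ b : F, f b = f 0 + ∑ u : Fˣ, f u := by
  rw [Fintype.sum_eq_add_sum_subtype_ne f 0]
  congr 1
  symm
  exact Fintype.sum_equiv (unitsEquivNeZero (G₀ := F)) _ _ (fun u => rfl)

/-- The permutation `b ↦ a1 * b ^ 5` of a field with 25 elements. -/
def e5 {F : Type} [Field F] [Fintype F] (a1 : Fˣ) (hF : Fintype.card F = 25) : F ≃ F where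
  toFun := fun b => a1 * b ^ 5
  invFun := fun y => ((a1⁻¹ : Fˣ) * y) ^ 5
  left_inv := by
    intro b
    have h25 : b ^ 25 = b := by
      have := FiniteField.pow_card b
      rwa [hF] at this
    simp only
    rw [← mul_assoc, Units.inv_mul, one_mul, ← pow_mul]
    exact h25
  right_inv := by
    intro y
    have h25 : ∀ x : F, x ^ 25 = x := by
      intro x
      rw [← hF]
      exact FiniteField.pow_card x
    simp only
    rw [← pow_mul]
    norm_num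
    rw [h25]
    simp

namespace OS

variable {F V : Type} [Field F] [Fintype F] [DecidableEq F] [AddCommGroup V] [Module ℂ V]
  [FiniteDimensional ℂ V]
  {L : Subgroup Fˣ} {a1 : Fˣ} (o : OS F V L a1) {ψ : AddChar F ℂ} (h : Hyp F L a1 ψ)

theorem U_U (a b : F) (v : V) : o.U a (o.U b v) = o.U (a + b) v := by
  rw [o.U_add]; rfl

theorem H_H {a b : Fˣ} (ha : a ∈ L) (hb : b ∈ L) (v : V) : o.H a (o.H b v) = o.H (a * b) v := by
  rw [o.H_mul a ha b hb]; rfl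

theorem W_W (v : V) : o.W (o.W v) = v := by
  have := congrArg (fun g => g v) o.W_sq
  simpa using this

theorem H_U {a : Fˣ} (ha : a ∈ L) (b : F) (v : V) : o.H a (o.U b v) = o.U (a * b) (o.H a v) := by
  have := congrArg (fun g => g v) (o.HU a ha b)
  simpa using this

theorem H_W {a : Fˣ} (ha : a ∈ L) (v : V) : o.H a (o.W v) = o.W (o.H a⁻¹ v) := by
  have := congrArg (fun g => g v) (o.WH a⁻¹ (L.inv_mem ha))
  simp only [Module.End.mul_apply, inv_inv] at this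
  exact this.symm

theorem W_H {a : Fˣ} (ha : a ∈ L) (v : V) : o.W (o.H a v) = o.H a⁻¹ (o.W v) := by
  have := congrArg (fun g => g v) (o.WH a ha)
  simpa using this

theorem W_U (b : Fˣ) (v : V) : o.W (o.U (b : F) (o.W v)) =
    o.U ((b⁻¹ : Fˣ) : F) (o.H (-(b⁻¹ * b⁻¹)) (o.W (o.U ((b⁻¹ : Fˣ) : F) v))) := by
  have := congrArg (fun g => g v) (o.WUW b)
  simpa only [Module.End.mul_apply] using this

theorem T_U (b : F) (v : V) : o.T (o.U b v) = o.U (a1 * b ^ 5) (o.T v) := by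
  have := congrArg (fun g => g v) (o.TU b)
  simpa using this

theorem T_H {a : Fˣ} (ha : a ∈ L) (v : V) : o.T (o.H a v) = o.H (a ^ 5) (o.T v) := by
  have := congrArg (fun g => g v) (o.TH a ha)
  simpa using this

theorem T_T (v : V) : o.T (o.T v) = o.H (a1 ^ 6) v := by
  have := congrArg (fun g => g v) o.TT
  simpa using this

theorem H_one' (v : V) : o.H 1 v = v := by rw [o.H_one]; rfl

theorem U_zero' (v : V) : o.U 0 v = v := by rw [o.U_zero]; rfl

include h in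
theorem k_mem : a1⁻¹ * a1⁻¹ ∈ L := h.sq _

include h in
theorem T_W (v : V) : o.T (o.W v) = o.W (o.H (a1⁻¹ * a1⁻¹) (o.T v)) := by
  have hk : a1⁻¹ * a1⁻¹ ∈ L := h.sq _
  have h1 : o.W (o.T v) = o.H (a1⁻¹ * a1⁻¹) (o.T (o.W v)) := by
    have := congrArg (fun g => g v) o.WT
    simpa using this
  rw [o.W_H hk, h1, o.H_H (L.inv_mem hk) hk, inv_mul_cancel, o.H_one']

theorem U_of_E0 {v : V} (hv : o.E ψ 0 v = v) (b : F) : o.U b v = v := by
  have := congrArg (fun g => g v) (o.U_E0 (ψ := ψ) b)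
  simp only [Module.End.mul_apply] at this
  rwa [hv] at this

theorem E0_U' (b : F) (v : V) : o.E ψ 0 (o.U b v) = o.E ψ 0 v := by
  have := congrArg (fun g => g v) (o.E0_U (ψ := ψ) b)
  simpa using this

theorem E0_H' {a : Fˣ} (ha : a ∈ L) (v : V) : o.E ψ 0 (o.H a v) = o.H a (o.E ψ 0 v) := by
  have := congrArg (fun g => g v) (o.comm0_H (ψ := ψ) a ha)
  simp only [Module.End.mul_apply] at this
  exact this.symm

include h in
theorem E0_T' (v : V) : o.E ψ 0 (o.T v) = o.T (o.E ψ 0 v) := by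
  have := congrArg (fun g => g v) (o.comm0_T h)
  simp only [Module.End.mul_apply] at this
  exact this.symm

include h in
theorem E0_E0 (v : V) : o.E ψ 0 (o.E ψ 0 v) = o.E ψ 0 v := by
  have := congrArg (fun g => g v) (o.E_E ψ h.ne 0 0)
  simpa using this

include h in
theorem mem_V0 (v : V) : v ∈ LinearMap.range (o.E ψ 0) ↔ o.E ψ 0 v = v := by
  constructor
  · rintro ⟨w, rfl⟩
    exact o.E0_E0 h w
  · intro hv
    exact ⟨v, hv⟩

include h in
theorem lemA (hI : o.Irr) (Z : Submodule ℂ V) (hZ0 : Z ≠ ⊥) (hZV : ∀ v ∈ Z, o.E ψ 0 v = v)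
    (hZH : ∀ a ∈ L, ∀ v ∈ Z, o.H a v ∈ Z) (hZT : ∀ v ∈ Z, o.T v ∈ Z)
    (hZX : ∀ v ∈ Z, o.E ψ 0 (o.W v) ∈ Z) : LinearMap.range (o.E ψ 0) = Z := by
  classical
  let S : Set V := {x | x ∈ Z ∨ ∃ b : F, ∃ z ∈ Z, x = o.U b (o.W z)}
  have hS1 : ∀ z ∈ Z, z ∈ Submodule.span ℂ S := fun z hz => Submodule.subset_span (Or.inl hz)
  have hS2 : ∀ b : F, ∀ z ∈ Z, o.U b (o.W z) ∈ Submodule.span ℂ S :=
    fun b z hz => Submodule.subset_span (Or.inr ⟨b, z, hz, rfl⟩)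
  have hinv : o.Inv (Submodule.span ℂ S) := by
    refine ⟨⟨?_, ?_, ?_⟩, ?_⟩
    · intro c
      refine span_stable _ _ ?_
      rintro v (hv | ⟨b, z, hz, rfl⟩)
      · rw [o.U_of_E0 (hZV v hv)]
        exact hS1 v hv
      · rw [o.U_U]
        exact hS2 _ _ hz
    · intro a ha
      refine span_stable _ _ ?_
      rintro v (hv | ⟨b, z, hz, rfl⟩)
      · exact hS1 _ (hZH a ha v hv)
      · rw [o.H_U ha, o.H_W ha]
        exact hS2 _ _ (hZH _ (L.inv_mem ha) _ hz)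
    · refine span_stable _ _ ?_
      rintro v (hv | ⟨b, z, hz, rfl⟩)
      · have := hS2 0 v hv
        rwa [o.U_zero'] at this
      · by_cases hb : b = 0
        · rw [hb, o.U_zero', o.W_W]
          exact hS1 z hz
        · have h1 := o.W_U (Units.mk0 b hb) z
          rw [Units.val_mk0] at h1
          rw [h1, o.U_of_E0 (hZV z hz), o.H_W (negsq_mem h _)]
          exact hS2 _ _ (hZH _ (L.inv_mem (negsq_mem h _)) _ hz)
    · refine span_stable _ _ ?_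
      rintro v (hv | ⟨b, z, hz, rfl⟩)
      · exact hS1 _ (hZT v hv)
      · rw [o.T_U, o.T_W h]
        exact hS2 _ _ (hZH _ (h.sq _) _ (hZT _ hz))
  have htop : Submodule.span ℂ S = ⊤ := by
    rcases hI.2 _ hinv with h0 | h0
    · exfalso
      apply hZ0
      rw [Submodule.eq_bot_iff]
      intro z hz
      have := hS1 z hz
      rw [h0] at this
      simpa using this
    · exact h0
  have hle : Submodule.span ℂ S ≤ Z.comap (o.E ψ 0) := by
    rw [Submodule.span_le]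
    rintro v (hv | ⟨b, z, hz, rfl⟩)
    · change o.E ψ 0 v ∈ Z
      rw [hZV v hv]
      exact hv
    · change o.E ψ 0 (o.U b (o.W z)) ∈ Z
      rw [o.E0_U']
      exact hZX z hz
  refine le_antisymm ?_ ?_
  · rintro _ ⟨v, rfl⟩
    apply hle
    rw [htop]
    trivial
  · intro z hz
    exact ⟨z, hZV z hz⟩

/-- The averaging operator. -/
noncomputable def Q (ψ : AddChar F ℂ) : Module.End ℂ V :=
  o.E ψ 0 + ∑ b : F, o.U b * (o.W * o.E ψ 0 * o.W) * o.U (-b)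

theorem Q_U (c : F) : o.Q ψ * o.U c = o.U c * o.Q ψ := by
  unfold Q
  rw [add_mul, mul_add, o.U_E0, o.E0_U, Finset.sum_mul, Finset.mul_sum]
  congr 1
  refine Fintype.sum_equiv (Equiv.subRight c) _ _ ?_
  intro x
  simp only [Equiv.subRight_apply]
  rw [mul_assoc _ (o.U (-x)), ← o.U_add, ← mul_assoc (o.U c), ← mul_assoc (o.U c), ← o.U_add]
  congr 2
  · congr 2
    ring
  · ring

theorem WEW_H {a : Fˣ} (ha : a ∈ L) :
    (o.W * o.E ψ 0 * o.W) * o.H a = o.H a * (o.W * o.E ψ 0 * o.W) := by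
  apply LinearMap.ext
  intro v
  simp only [Module.End.mul_apply]
  rw [o.W_H ha, o.E0_H' (L.inv_mem ha), o.W_H (L.inv_mem ha), inv_inv]

theorem Q_H (a : Fˣ) (ha : a ∈ L) : o.Q ψ * o.H a = o.H a * o.Q ψ := by
  unfold Q
  rw [add_mul, mul_add, o.comm0_H _ ha, Finset.sum_mul, Finset.mul_sum]
  congr 1
  symm
  refine Fintype.sum_equiv (Equiv.mulLeft₀ (a : F) a.ne_zero) _ _ ?_
  intro x
  simp only [Equiv.mulLeft₀_apply]
  rw [← mul_assoc, ← mul_assoc, o.HU a ha, mul_assoc (o.U _) (o.H a), ← o.WEW_H ha,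
    ← mul_assoc (o.U _), mul_assoc _ (o.H a) (o.U (-x)), o.HU a ha, ← mul_assoc]
  congr 3
  ring

include h in
theorem WEW_T :
    o.T * (o.W * o.E ψ 0 * o.W) = (o.W * o.E ψ 0 * o.W) * o.T := by
  apply LinearMap.ext
  intro v
  have hk : a1⁻¹ * a1⁻¹ ∈ L := h.sq _
  simp only [Module.End.mul_apply]
  rw [o.T_W h, ← o.E0_T' h, ← o.E0_H' hk, o.T_W h, o.H_W hk, o.H_H (L.inv_mem hk) hk,
    inv_mul_cancel, o.H_one']

include h in
theorem Q_T : o.Q ψ * o.T = o.T * o.Q ψ := by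
  unfold Q
  rw [add_mul, mul_add, o.comm0_T h, Finset.sum_mul, Finset.mul_sum]
  congr 1
  symm
  refine Fintype.sum_equiv (e5 a1 h.card) _ _ ?_
  intro x
  change _ = o.U (a1 * x ^ 5) * _ * o.U (-(a1 * x ^ 5)) * o.T
  rw [← mul_assoc, ← mul_assoc, o.TU, mul_assoc (o.U _) o.T, o.WEW_T h,
    ← mul_assoc (o.U _), mul_assoc _ o.T (o.U (-x)), o.TU, ← mul_assoc]
  congr 3
  ring

include h in
theorem Q_W : o.Q ψ * o.W = o.W * o.Q ψ := by
  unfold Q
  rw [add_mul, mul_add, Finset.sum_mul, Finset.mul_sum,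
    sum_F (fun b : F => o.U b * (o.W * o.E ψ 0 * o.W) * o.U (-b) * o.W),
    sum_F (fun b : F => o.W * (o.U b * (o.W * o.E ψ 0 * o.W) * o.U (-b)))]
  have e1 : o.U 0 * (o.W * o.E ψ 0 * o.W) * o.U (-0) * o.W = o.W * o.E ψ 0 := by
    rw [neg_zero, o.U_zero, one_mul, mul_one, mul_assoc, o.W_sq, mul_one]
  have e2 : o.W * (o.U 0 * (o.W * o.E ψ 0 * o.W) * o.U (-0)) = o.E ψ 0 * o.W := by
    rw [neg_zero, o.U_zero, one_mul, mul_one, ← mul_assoc, ← mul_assoc, o.W_sq, one_mul]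
  rw [e1, e2, ← add_assoc, ← add_assoc, add_comm (o.E ψ 0 * o.W)]
  congr 1
  refine Fintype.sum_equiv (Equiv.inv Fˣ) _ _ ?_
  intro u
  simp only [Equiv.inv_apply]
  apply LinearMap.ext
  intro v
  simp only [Module.End.mul_apply]
  have h1 := o.W_U (-u) v
  have h2 := o.W_U u⁻¹ (o.E ψ 0 (o.W (o.U (-((u⁻¹ : Fˣ) : F)) v)))
  have h3 := negsq_mem h u⁻¹
  have h4 := negsq_mem h u
  rw [Units.val_neg] at h1
  rw [h1, h2, inv_inv]
  have e3 : (-u)⁻¹ = -u⁻¹ := inv_eq_of_mul_eq_one_right (by rw [neg_mul_neg, mul_inv_cancel])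
  rw [e3, neg_mul_neg, Units.val_neg, o.E0_U', o.E0_H' h3, o.W_H h3]
  have e4 : o.U (u : F) (o.E ψ 0 (o.W (o.U (-((u⁻¹ : Fˣ) : F)) v))) =
      o.E ψ 0 (o.W (o.U (-((u⁻¹ : Fˣ) : F)) v)) := o.U_of_E0 (o.E0_E0 h _) _
  have e6 : (-(u⁻¹ * u⁻¹))⁻¹ = -(u * u) :=
    inv_eq_of_mul_eq_one_right (by rw [neg_mul_neg, mul_mul_mul_comm]; simp)
  rw [e4, e6]

/-- The trace of the averaging operator. -/
theorem trace_Q (hψ : ψ ≠ 1) (hF : Fintype.card F = 25) : LinearMap.trace ℂ V (o.Q ψ) =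
    26 * (finrank ℂ (LinearMap.range (o.E ψ 0)) : ℂ) := by
  unfold Q
  have h1 : ∀ b : F, LinearMap.trace ℂ V (o.U b * (o.W * o.E ψ 0 * o.W) * o.U (-b)) =
      LinearMap.trace ℂ V (o.E ψ 0) := by
    intro b
    rw [LinearMap.trace_mul_comm, ← mul_assoc, ← o.U_add, neg_add_cancel, o.U_zero, one_mul,
      LinearMap.trace_mul_comm, ← mul_assoc, o.W_sq, one_mul]
  rw [map_add, map_sum, Finset.sum_congr rfl fun b _ => h1 b, Finset.sum_const, Finset.card_univ,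
    hF, o.trace_E ψ hψ]
  simp
  ring

theorem X_sq_formula (hF : Fintype.card F = 25) (hL : ∀ u : Fˣ, -(u * u) ∈ L)
    {v : V} (hv : o.E ψ 0 v = v) :
    o.E ψ 0 (o.W (o.E ψ 0 (o.W v))) = (1 / 25 : ℂ) • (v +
      ∑ u : Fˣ, o.H (-(u⁻¹ * u⁻¹)) (o.E ψ 0 (o.W v))) := by
  have h1 : o.E ψ 0 (o.W v) = (1 / 25 : ℂ) • ∑ b : F, o.U b (o.W v) := by
    rw [E, hF]
    simp [LinearMap.sum_apply]
  conv_lhs => rw [h1]
  rw [map_smul, map_smul, map_sum, map_sum, sum_F]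
  congr 2
  · rw [o.U_zero', o.W_W, hv]
  · refine Finset.sum_congr rfl fun u _ => ?_
    rw [o.W_U, o.E0_U', o.E0_H' (hL _), o.U_of_E0 hv]

theorem Q_apply (hF : Fintype.card F = 25) {v : V} (hv : o.E ψ 0 v = v) :
    o.E ψ 0 (o.Q ψ v) = v + (25 : ℂ) • o.E ψ 0 (o.W (o.E ψ 0 (o.W v))) := by
  unfold Q
  rw [LinearMap.add_apply, LinearMap.sum_apply, map_add, map_sum, hv, hv]
  congr 1
  have h1 : ∀ b : F, o.E ψ 0 ((o.U b * (o.W * o.E ψ 0 * o.W) * o.U (-b)) v) =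
      o.E ψ 0 (o.W (o.E ψ 0 (o.W v))) := by
    intro b
    simp only [Module.End.mul_apply]
    rw [o.E0_U', o.U_of_E0 hv]
  rw [Finset.sum_congr rfl fun b _ => h1 b, Finset.sum_const, Finset.card_univ, hF]
  exact (Nat.cast_smul_eq_nsmul ℂ 25 _).symm

/-- The scalar of the averaging operator. -/
theorem exists_lam (h : Hyp F L a1 ψ) (hI : o.Irr) : ∃ lam : ℂ,
    26 * (finrank ℂ (LinearMap.range (o.E ψ 0)) : ℂ) = lam * finrank ℂ V ∧
    ∀ v, o.E ψ 0 v = v → lam • v = v + (25 : ℂ) • o.E ψ 0 (o.W (o.E ψ 0 (o.W v))) := by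
  obtain ⟨lam, hl⟩ := o.schur hI (o.Q ψ) o.Q_U o.Q_H (o.Q_W h) (o.Q_T h)
  refine ⟨lam, ?_, ?_⟩
  · rw [← o.trace_Q h.ne h.card, hl, map_smul, LinearMap.trace_one, smul_eq_mul]
  · intro v hv
    rw [← o.Q_apply h.card hv, hl]
    simp [hv]

end OS

end Pool.Agent.V1150.MZ
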