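import Mathlib

namespace Pool.Agent.V1150.MZ

open Module
open scoped ComplexOrder

/-- A representation is irreducible iff it is nontrivial and has no proper invariant subspace. -/
theorem irr_iff {G V : Type} [Group G] [AddCommGroup V] [Module ℂ V] (ρ : Representation ℂ G V) :
    ρ.IsIrreducible ↔ (Nontrivial V ∧ ∀ S : Submodule ℂ V, (∀ g, ∀ v ∈ S, ρ g v ∈ S) →
      S = ⊥ ∨ S = ⊤) := by
  constructor
  · intro h
    have hs : IsSimpleOrder (Subrepresentation ρ) := h
    refine ⟨?_, ?_⟩
    · by_contra hn
      rw [not_nontrivial_iff_subsingleton] at hn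
      obtain ⟨a, b, hab⟩ := hs.toNontrivial
      apply hab
      apply Subrepresentation.toSubmodule_injective
      exact Subsingleton.elim _ _
    · intro S hS
      rcases hs.eq_bot_or_eq_top ⟨S, fun g v hv => hS g v hv⟩ with h | h
      · left
        exact congrArg Subrepresentation.toSubmodule h
      · right
        exact congrArg Subrepresentation.toSubmodule h
  · rintro ⟨hn, hS⟩
    have : Nontrivial (Subrepresentation ρ) := by
      refine ⟨⊥, ⊤, ?_⟩
      intro h
      have h2 : (⊥ : Submodule ℂ V) = ⊤ := congrArg Subrepresentation.toSubmodule h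
      exact bot_ne_top h2
    refine { toNontrivial := this, eq_bot_or_eq_top := ?_ }
    intro a
    rcases hS a.toSubmodule (fun g v hv => a.apply_mem_toSubmodule g hv) with h | h
    · left
      apply Subrepresentation.toSubmodule_injective
      exact h
    · right
      apply Subrepresentation.toSubmodule_injective
      exact h

/-- Commuting operators preserving a nonzero finite-dimensional subspace have a common
eigenvector in it. -/
theorem common_eigen {V : Type} [AddCommGroup V] [Module ℂ V] [FiniteDimensional ℂ V]
    {I : Type*} (A : I → Module.End ℂ V) (S : Submodule ℂ V) (hS : S ≠ ⊥)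
    (hA : ∀ i, ∀ v ∈ S, A i v ∈ S) (hc : ∀ i j, ∀ v ∈ S, A i (A j v) = A j (A i v)) :
    ∃ v ∈ S, v ≠ 0 ∧ ∀ i, ∃ c : ℂ, A i v = c • v := by
  classical
  -- minimal nonzero invariant subspace of S
  have key : ∀ n : ℕ, ∀ S : Submodule ℂ V, S ≠ ⊥ → finrank ℂ S = n →
      (∀ i, ∀ v ∈ S, A i v ∈ S) → (∀ i j, ∀ v ∈ S, A i (A j v) = A j (A i v)) →
      ∃ v ∈ S, v ≠ 0 ∧ ∀ i, ∃ c : ℂ, A i v = c • v := by
    intro n
    induction n using Nat.strong_induction_on with
    | _ n ih =>
      intro S hS hn hA hc
      by_cases hall : ∀ i, ∃ c : ℂ, ∀ v ∈ S, A i v = c • v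
      · obtain ⟨v, hv, hv0⟩ := S.ne_bot_iff.1 hS
        exact ⟨v, hv, hv0, fun i => (hall i).imp fun c hc => hc v hv⟩
      · push Not at hall
        obtain ⟨i, hi⟩ := hall
        have hnt : Nontrivial S := (Submodule.nontrivial_iff_ne_bot).2 hS
        obtain ⟨c, hcv⟩ := Module.End.exists_eigenvalue ((A i).restrict (hA i))
        obtain ⟨w, hw⟩ := hcv.exists_hasEigenvector
        have hw1 : A i (w : V) = c • (w : V) := by
          have := hw.apply_eq_smul
          have := congrArg Subtype.val this
          simpa using this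
        have hw0 : (w : V) ≠ 0 := by
          intro h
          exact hw.2 (Subtype.ext h)
        let S' : Submodule ℂ V := S ⊓ LinearMap.ker (A i - c • (1 : Module.End ℂ V))
        have hmem : ∀ v, v ∈ S' ↔ v ∈ S ∧ A i v = c • v := by
          intro v
          simp [S', sub_eq_zero]
        have hS' : S' ≠ ⊥ := by
          rw [Submodule.ne_bot_iff]
          exact ⟨w, (hmem _).2 ⟨w.2, hw1⟩, hw0⟩
        have hlt : S' < S := by
          refine lt_of_le_of_ne inf_le_left ?_
          intro h
          obtain ⟨v, hv, hv'⟩ := hi c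
          apply hv'
          rw [← h] at hv
          exact ((hmem v).1 hv).2
        obtain ⟨v, hv, hv0, hv1⟩ := ih (finrank ℂ S') (hn ▸ Submodule.finrank_lt_finrank_of_lt hlt)
          S' hS' rfl
          (by
            intro j v hv
            have hv' := (hmem v).1 hv
            refine (hmem _).2 ⟨hA j v hv'.1, ?_⟩
            rw [hc i j v hv'.1, hv'.2, map_smul])
          (by
            intro j k v hv
            exact hc j k v ((hmem v).1 hv).1)
        exact ⟨v, ((hmem v).1 hv).1, hv0, hv1⟩
  exact key _ S hS rfl hA hc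

/-- The representation on a quotient of the group algebra by a left ideal. -/
noncomputable def quoRep {G : Type} [Group G] (J : Submodule (MonoidAlgebra ℂ G) (MonoidAlgebra ℂ G)) :
    Representation ℂ G (MonoidAlgebra ℂ G ⧸ J) :=
  ((Algebra.lsmul ℂ ℂ (MonoidAlgebra ℂ G ⧸ J)).toMonoidHom).comp (MonoidAlgebra.of ℂ G)

theorem quoRep_algHom {G : Type} [Group G]
    (J : Submodule (MonoidAlgebra ℂ G) (MonoidAlgebra ℂ G)) (a : MonoidAlgebra ℂ G)
    (x : MonoidAlgebra ℂ G ⧸ J) :
    (quoRep J).asAlgebraHom a x = a • x := by
  induction a using MonoidAlgebra.induction_on with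
  | of g =>
    simp [quoRep]
  | add a b ha hb => rw [map_add, LinearMap.add_apply, ha, hb, add_smul]
  | smul r a ha => rw [map_smul, LinearMap.smul_apply, ha, smul_assoc]

/-- Existence of an irreducible representation with a nonzero vector satisfying all the group
algebra equations satisfied by a given nonzero vector. -/
theorem exists_irr {G V : Type} [Group G] [Finite G] [AddCommGroup V] [Module ℂ V]
    (ρ : Representation ℂ G V) (v : V) (hv : v ≠ 0) :
    ∃ (V' : Type) (_ : AddCommGroup V') (_ : Module ℂ V') (_ : FiniteDimensional ℂ V')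
      (ρ' : Representation ℂ G V') (v' : V'), ρ'.IsIrreducible ∧ v' ≠ 0 ∧
      ∀ a : MonoidAlgebra ℂ G, ρ.asAlgebraHom a v = 0 → ρ'.asAlgebraHom a v' = 0 := by
  classical
  let R := MonoidAlgebra ℂ G
  let I : Submodule R R :=
    { carrier := {a | ρ.asAlgebraHom a v = 0}
      add_mem' := by
        intro a b ha hb
        simp only [Set.mem_ofPred_eq] at *
        rw [map_add, LinearMap.add_apply, ha, hb, add_zero]
      zero_mem' := by simp
      smul_mem' := by
        intro c a ha
        simp only [Set.mem_ofPred_eq] at *
        rw [smul_eq_mul, map_mul, Module.End.mul_apply, ha, map_zero] }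
  have hI : I ≠ ⊤ := by
    intro h
    have h1 : (1 : R) ∈ I := by rw [h]; trivial
    have : ρ.asAlgebraHom (1 : R) v = 0 := h1
    rw [map_one] at this
    exact hv this
  obtain ⟨J, hJ, hIJ⟩ := (eq_top_or_exists_le_coatom I).resolve_left hI
  have hsim : IsSimpleModule R (R ⧸ J) := isSimpleModule_iff_isCoatom.2 hJ
  have hfin : FiniteDimensional ℂ R := by
    have : Finite G := inferInstance
    have : Fintype G := Fintype.ofFinite G
    have h2 : Module.Finite ℂ (G →₀ ℂ) := inferInstance
    exact Module.Finite.equiv (MonoidAlgebra.coeffLinearEquiv ℂ).symm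
  refine ⟨R ⧸ J, inferInstance, inferInstance, ?_, quoRep J, Submodule.Quotient.mk (1 : R), ?_, ?_, ?_⟩
  · exact Module.Finite.of_surjective ((Submodule.mkQ J).restrictScalars ℂ)
      (Submodule.mkQ_surjective J)
  · rw [irr_iff]
    have hnt : Nontrivial (R ⧸ J) := hsim.nontrivial
    refine ⟨hnt, ?_⟩
    intro S hS
    let S' : Submodule R (R ⧸ J) :=
      { carrier := S
        add_mem' := fun ha hb => S.add_mem ha hb
        zero_mem' := S.zero_mem
        smul_mem' := by
          intro a x hx
          rw [← quoRep_algHom]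
          induction a using MonoidAlgebra.induction_on with
          | of g => simpa using hS g x hx
          | add a b ha hb =>
            rw [map_add, LinearMap.add_apply]
            exact S.add_mem ha hb
          | smul r a ha =>
            rw [map_smul, LinearMap.smul_apply]
            exact S.smul_mem _ ha }
    rcases eq_bot_or_eq_top S' with h | h
    · left
      rw [Submodule.eq_bot_iff]
      intro x hx
      have : x ∈ S' := hx
      rw [h] at this
      simpa using this
    · right
      rw [Submodule.eq_top_iff']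
      intro x
      have : x ∈ S' := by rw [h]; trivial
      exact this
  · intro h
    rw [Submodule.Quotient.mk_eq_zero] at h
    apply hJ.1
    rw [Submodule.eq_top_iff']
    intro a
    simpa using J.smul_mem a h
  · intro a ha
    rw [quoRep_algHom, ← Submodule.Quotient.mk_smul, smul_eq_mul, mul_one,
      Submodule.Quotient.mk_eq_zero]
    exact hIJ ha

/-- Characters of finite groups: the value at the inverse is the complex conjugate. -/
theorem char_inv {G V : Type} [Group G] [Fintype G] [AddCommGroup V] [Module ℂ V]
    [FiniteDimensional ℂ V] (ρ : Representation ℂ G V) (h : G) :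
    ρ.character h⁻¹ = (starRingEnd ℂ) (ρ.character h) := by
  classical
  let b := Module.finBasis ℂ V
  let A : G →* Matrix (Fin (finrank ℂ V)) (Fin (finrank ℂ V)) ℂ :=
    (LinearMap.toMatrixAlgEquiv b).toMonoidHom.comp ρ
  have hA : ∀ g, ρ.character g = (A g).trace := by
    intro g
    rw [Representation.character, LinearMap.trace_eq_matrix_trace ℂ b]
    rfl
  let M : Matrix (Fin (finrank ℂ V)) (Fin (finrank ℂ V)) ℂ := ∑ g : G, (A g).conjTranspose * A g
  have hM : ∀ g, (A g).conjTranspose * M * A g = M := by
    intro g
    simp only [M, Finset.mul_sum, Finset.sum_mul]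
    refine Fintype.sum_equiv (Equiv.mulRight g) _ _ ?_
    intro x
    simp only [Equiv.coe_mulRight, map_mul, Matrix.conjTranspose_mul, Matrix.mul_assoc]
  have hpos : M.PosDef := by
    have h1 : ∀ g, ((A g).conjTranspose * A g).PosSemidef := fun g =>
      Matrix.posSemidef_conjTranspose_mul_self _
    have h2 : M = (A 1).conjTranspose * A 1 + ∑ g ∈ Finset.univ.erase (1 : G),
        (A g).conjTranspose * A g := (Finset.add_sum_erase _ _ (Finset.mem_univ _)).symm
    rw [h2]
    refine Matrix.PosDef.add_posSemidef ?_ ?_
    · simp [Matrix.PosDef.one]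
    · exact Matrix.posSemidef_sum _ (fun g _ => h1 g)
  have hunit : IsUnit M := hpos.isUnit
  have hdet : IsUnit M.det := (Matrix.isUnit_iff_isUnit_det _).1 hunit
  have e1 : A h⁻¹ = M⁻¹ * (A h).conjTranspose * M := by
    have h3 : (A h).conjTranspose * M = M * A h⁻¹ := by
      have := hM h
      calc (A h).conjTranspose * M = (A h).conjTranspose * M * (A h * A h⁻¹) := by
            rw [← map_mul, mul_inv_cancel, map_one, mul_one]
        _ = ((A h).conjTranspose * M * A h) * A h⁻¹ := by simp only [Matrix.mul_assoc]
        _ = M * A h⁻¹ := by rw [this]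
    rw [Matrix.mul_assoc, h3, ← Matrix.mul_assoc, Matrix.nonsing_inv_mul _ hdet, one_mul]
  rw [hA, hA, e1, Matrix.mul_assoc, Matrix.trace_mul_comm, Matrix.mul_assoc,
    Matrix.mul_nonsing_inv _ hdet, mul_one, Matrix.trace_conjTranspose]
  rfl

/-- First orthogonality relation in absolute value form. -/
theorem sum_normSq {G V : Type} [Group G] [Fintype G] [AddCommGroup V] [Module ℂ V]
    [FiniteDimensional ℂ V] (ρ : Representation ℂ G V) (hρ : ρ.IsIrreducible) :
    ∑ g : G, Complex.normSq (ρ.character g) = Fintype.card G := by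
  classical
  have hc : (Nat.card G : ℂ) ≠ 0 := by
    rw [Nat.card_eq_fintype_card]
    exact_mod_cast Fintype.card_ne_zero
  have : Invertible (Nat.card G : ℂ) := invertibleOfNonzero hc
  have := hρ
  have h := Representation.char_orthonormal ρ ρ
  rw [if_pos ⟨Representation.Equiv.refl ρ⟩] at h
  have h2 : ∑ g : G, ρ.character g * ρ.character g⁻¹ = (Fintype.card G : ℂ) := by
    rw [Nat.card_eq_fintype_card] at h hc
    field_simp at h
    exact h
  have h3 : ∑ g : G, ρ.character g * ρ.character g⁻¹
      = ((∑ g : G, Complex.normSq (ρ.character g) : ℝ) : ℂ) := by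
    push_cast
    refine Finset.sum_congr rfl fun g _ => ?_
    rw [char_inv, Complex.mul_conj]
  rw [h3] at h2
  exact_mod_cast h2

end Pool.Agent.V1150.MZ
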